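import Pool.Agent.Helper49.AXU.V0
import Pool.Agent.Helper94.AXG.E6B
import Pool.Agent.Helper94.AXG.E6C
import Pool.Agent.Helper94.AXG.C11

/-!
# AXU: mixed polynomials in `U(x_i)`, `i ∈ K0`, and `x_i`, `i ∉ K0`
-/

namespace Pool.Agent.Helper49.AXU

open Complex Filter Topology Pool.Agent.Helper94.AXG

/-- `U` for the variables in `K0`, the identity for the others -/
noncomputable def VV {k : ℕ} (K0 : Finset (Fin k)) (i : Fin k) (z : ℂ) : ℂ := if i ∈ K0 then U z else z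

theorem VV_mem {k : ℕ} {K0 : Finset (Fin k)} {i : Fin k} (h : i ∈ K0) (z : ℂ) : VV K0 i z = U z := by
  unfold VV
  rw [if_pos h]

theorem VV_not {k : ℕ} {K0 : Finset (Fin k)} {i : Fin k} (h : i ∉ K0) (z : ℂ) : VV K0 i z = z := by
  unfold VV
  rw [if_neg h]

theorem U_differentiable : Differentiable ℂ U := Complex.differentiable_one_div_Gamma

theorem VV_differentiable {k : ℕ} (K0 : Finset (Fin k)) (i : Fin k) : Differentiable ℂ (VV K0 i) := by
  by_cases h : i ∈ K0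
  · have e : VV K0 i = U := funext fun z => VV_mem h z
    rw [e]
    exact U_differentiable
  · have e : VV K0 i = fun z => z := funext fun z => VV_not h z
    rw [e]
    exact differentiable_id

theorem Zt_inv {K : ℕ} (hK : 1 ≤ K) : Zt K (fun s => 1 / s) := by
  refine ⟨?_, fun ε hε => ?_⟩
  · unfold An
    filter_upwards [self_mem_nhdsWithin] with s hs
    exact analyticAt_const.div analyticAt_id hs
  · have h0 : Tendsto (fun s : ℂ => ‖s‖) (𝓝[≠] 0) (𝓝 0) :=
      tendsto_norm_zero.mono_left nhdsWithin_le_nhds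
    have hpos : 0 < min 1 (ε ^ 2 / 4) := lt_min one_pos (by positivity)
    filter_upwards [h0.eventually (gt_mem_nhds hpos), self_mem_nhdsWithin] with s hs hne
    have hs0 : 0 < ‖s‖ := norm_pos_iff.2 hne
    have hs1 : ‖s‖ < 1 := hs.trans_le (min_le_left _ _)
    have hs2 : ‖s‖ < ε ^ 2 / 4 := hs.trans_le (min_le_right _ _)
    have hs3 : ‖s‖ ^ K ≤ ‖s‖ := by
      have h2 := pow_le_pow_of_le_one hs0.le hs1.le hK
      rwa [pow_one] at h2
    have hs4 : 0 < ‖s‖ ^ K := pow_pos hs0 K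
    have h3 : ε / ‖s‖ ≤ ε / ‖s‖ ^ K := div_le_div_of_nonneg_left hε.le hs4 hs3
    have h4 : Real.exp (ε / ‖s‖) ≤ Real.exp (ε / ‖s‖ ^ K) := Real.exp_le_exp.2 h3
    refine le_trans ?_ h4
    rw [norm_div, norm_one]
    have h5 := Real.quadratic_le_exp_of_nonneg (x := ε / ‖s‖) (by positivity)
    have h6 : 1 / ‖s‖ ≤ (ε / ‖s‖) ^ 2 / 2 := by
      rw [div_pow, div_div, div_le_div_iff₀ hs0 (by positivity)]
      nlinarith
    have h7 : 0 ≤ ε / ‖s‖ := by positivity
    linarith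

theorem Zt_analytic {K : ℕ} (hK : 1 ≤ K) {h : ℂ → ℂ} (hh : AnalyticAt ℂ h 0) : Zt K h := by
  refine ⟨?_, fun ε hε => ?_⟩
  · unfold An
    exact hh.eventually_analyticAt.filter_mono nhdsWithin_le_nhds
  · have h1 : Tendsto (fun s => ‖h s‖) (𝓝 (0 : ℂ)) (𝓝 ‖h 0‖) := hh.continuousAt.norm
    have h2 : ∀ᶠ s in 𝓝 (0 : ℂ), ‖h s‖ < ‖h 0‖ + 1 := h1.eventually_lt_const (by linarith)
    have h3 := (Zt_const hK (((‖h 0‖ + 1 : ℝ)) : ℂ)).2 ε hε
    filter_upwards [h2.filter_mono nhdsWithin_le_nhds, h3] with s h4 h5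
    rw [Complex.norm_real, Real.norm_of_nonneg (by positivity)] at h5
    linarith

/-- the functions of the curve along a branch are of zero type -/
theorem Zt_X {k : ℕ} (c : Crv k) {e N : ℕ} {g : Fin c.M.natDegree → ℂ → ℂ} (hP : Puis c e N g)
    (l : Fin c.M.natDegree) (j : Fin k) {K : ℕ} (hK : 1 ≤ K) :
    Zt K (fun s => c.X j (1 / s ^ e) (g l s / s ^ N)) := by
  rcases X_form c hP j l with ⟨K', -, h, hh, -, he⟩ | ⟨h, hh, he⟩
  · have h1 : Zt K (fun s => h s * (1 / s) ^ K') := Zt_mul (Zt_analytic hK hh) (Zt_pow hK (Zt_inv hK) K')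
    refine Zt_congr h1 ?_
    filter_upwards [he] with s hs
    rw [hs, one_div, inv_pow, div_eq_mul_inv]
  · exact Zt_congr (Zt_analytic hK hh) he

end Pool.Agent.Helper49.AXU
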