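import Pool.Agent.Helper94.AXG.Z4
import Pool.Agent.Helper49.AXU.U8
import Pool.Agent.Helper94.AXG.Z5B
import Pool.Agent.Helper94.AXG.G8

/-! # AXU-U9: the eliminated function -/

namespace Pool.Agent.Helper49.AXU

open MvPolynomial Filter Topology Pool.Agent.Helper94.AXG

/-- the parameter differences at the level `i` -/
private noncomputable def u9_b {r n D d l : ℕ} (bs : Par (r + n) D d l → ℂ)
    (F : Fin (r + n) → ℕ → MvPolynomial (Fin (r + n)) ℂ)
    (L : Fin l → ℕ → MvPolynomial (Fin (r + n)) ℂ) (P : ℕ → MvPolynomial (Fin (r + n)) ℂ) (i : ℕ) :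
    Par (r + n) D d l → ℂ :=
  fun w => par D d (fun j => if r ≤ (j : ℕ) then F j i else 0) (fun s => L s i) (P i) w - bs w

private theorem u9_fF {r n D d l : ℕ} (bs : Par (r + n) D d l → ℂ)
    (F : Fin (r + n) → ℕ → MvPolynomial (Fin (r + n)) ℂ)
    (L : Fin l → ℕ → MvPolynomial (Fin (r + n)) ℂ) (P : ℕ → MvPolynomial (Fin (r + n)) ℂ) (i : ℕ)
    (z₀ z : Fin (r + n) → ℂ) (j : ℕ) (hj : r + j < r + n) (hle : r + j + 1 ≤ r + n) {m : ℕ}
    (hD : (F ⟨r + j, hj⟩ i).totalDegree ≤ D) (hF : LeadAt ⟨r + j, hj⟩ m (F ⟨r + j, hj⟩ i)) :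
    fF r n bs z₀ j (u9_b bs F L P i) (fun k => z (Fin.castLE hle k)) =
      eval (fun k => z₀ k + z k) (F ⟨r + j, hj⟩ i) := by
  unfold fF
  rw [dif_pos hj]
  have h1 : (fun ν => bs (Sum.inl (⟨r + j, hj⟩, ν)) +
      u9_b bs F L P i (Sum.inl (⟨r + j, hj⟩, ν))) = cf D (F ⟨r + j, hj⟩ i) := by
    funext ν
    unfold u9_b par
    rw [Sum.elim_inl]
    simp only
    rw [if_pos (Nat.le_add_right r j)]
    ring
  rw [h1, pol_cf hD]
  refine eval_LeadAt hF (fun k hk => ?_)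
  have hk' : (k : ℕ) < r + j + 1 := Nat.lt_succ_of_le hk
  rw [dif_pos hk']
  rfl

private theorem u9_gF {r n D d l : ℕ} (K0 : Finset (Fin (r + n))) (bs : Par (r + n) D d l → ℂ)
    (F : Fin (r + n) → ℕ → MvPolynomial (Fin (r + n)) ℂ)
    (L : Fin l → ℕ → MvPolynomial (Fin (r + n)) ℂ) (P : ℕ → MvPolynomial (Fin (r + n)) ℂ) (i : ℕ)
    {A B : Matrix (Fin (r + n)) (Fin (r + n)) ℤ} (hBA : B * A = 1) (a : ℕ)
    (x₀ z : Fin (r + n) → ℂ) (hD : ∀ s, (L s i).totalDegree ≤ D) :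
    gV K0 bs x₀ B a (u9_b bs F L P i) z =
      gaV K0 (cf d (P i)) (mv B (fun k => mv A x₀ k + z k)) +
        ∑ s : Fin l, (a : ℂ) ^ ((s : ℕ) + 1) * eval (mv B (fun k => mv A x₀ k + z k)) (L s i) := by
  have hy : (fun k => x₀ k + mv B z k) = mv B (fun k => mv A x₀ k + z k) := by
    funext k
    rw [mv_add, mv_mv hBA]
  unfold gV
  rw [hy]
  have h1 : (fun ν => bs (Sum.inr (Sum.inr ν)) +
      u9_b bs F L P i (Sum.inr (Sum.inr ν))) = cf d (P i) := by
    funext ν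
    unfold u9_b par
    rw [Sum.elim_inr, Sum.elim_inr]
    ring
  have h2 : ∀ s : Fin l, (fun ν => bs (Sum.inr (Sum.inl (s, ν))) +
      u9_b bs F L P i (Sum.inr (Sum.inl (s, ν)))) = cf D (L s i) := by
    intro s
    funext ν
    unfold u9_b par
    rw [Sum.elim_inr, Sum.elim_inl]
    ring
  rw [h1]
  congr 1
  refine Finset.sum_congr rfl (fun s _ => ?_)
  rw [h2 s, pol_cf (hD s)]

private theorem u9_cont {k r : ℕ} (A : Matrix (Fin r) (Fin k) ℤ) : Continuous (mv A) := by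
  unfold mv
  exact continuous_pi fun j => continuous_finsetSum _ fun i _ =>
    continuous_const.mul (continuous_apply i)

/-- the eliminated function for mixed polynomials -/
theorem tower_aU {r n : ℕ} (K0 : Finset (Fin (r + n))) {S : ℕ → Finset (Pt (r + n))} {A B : Matrix (Fin (r + n)) (Fin (r + n)) ℤ}
    (hBA : B * A = 1) {F : Fin (r + n) → ℕ → MvPolynomial (Fin (r + n)) ℂ} {l : ℕ}
    {L : Fin l → ℕ → MvPolynomial (Fin (r + n)) ℂ} {P : ℕ → MvPolynomial (Fin (r + n)) ℂ} {D d : ℕ}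
    {m : Fin (r + n) → ℕ} {bs : Par (r + n) D d l → ℂ}
    (hFD : ∀ᶠ i in (UF : Filter ℕ), (∀ j : Fin (r + n), r ≤ (j : ℕ) → (F j i).totalDegree ≤ D ∧
      LeadAt j (m j) (F j i)) ∧ ∀ s, (L s i).totalDegree ≤ D)
    (hlim : ∀ j : Fin (r + n), r ≤ (j : ℕ) → ∃ (m' : ℕ) (Fs : MvPolynomial (Fin (r + n)) ℂ),
      LeadAt j m' Fs ∧ Fs.totalDegree ≤ D ∧ ∀ ν, bs (Sum.inl (j, ν)) = cf D Fs ν)
    (hb : Tendsto (fun i w => par D d (fun j => if r ≤ (j : ℕ) then F j i else 0) (fun s => L s i) (P i) w -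
      bs w) (UF : Filter ℕ) (𝓝 0))
    (hFv : ∀ᶠ i in (UF : Filter ℕ), ∀ x ∈ S i, (∀ j : Fin (r + n), r ≤ (j : ℕ) →
      eval (mv A (xp x)) (F j i) = 0) ∧ (∀ s, eval (xp x) (L s i) = 0) ∧ gaV K0 (cf d (P i)) (xp x) = 0)
    (x₀ : Fin (r + n) → ℂ) (a : ℕ) :
    ∃ (N : (Par (r + n) D d l → ℂ) → (Fin r → ℂ) → ℂ) (e ρ : ℝ), CA2 N ∧ 0 < e ∧ 0 < ρ ∧
      (∀ᶠ i in (UF : Filter ℕ), ∀ x ∈ S i, (∀ j, ‖xp x j - x₀ j‖ < e) →
        N (fun w => par D d (fun j => if r ≤ (j : ℕ) then F j i else 0) (fun s => L s i) (P i) w - bs w)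
          (fun j => mv (rows (Nat.le_add_right r n) A) (xp x) j -
            mv (rows (Nat.le_add_right r n) A) x₀ j) = 0) ∧
      ∀ᶠ i in (UF : Filter ℕ), ∀ z' : Fin r → ℂ, (∀ j, ‖z' j‖ < ρ) →
        N (fun w => par D d (fun j => if r ≤ (j : ℕ) then F j i else 0) (fun s => L s i) (P i) w - bs w)
          z' = 0 → ∃ y : Fin (r + n) → ℂ,
            (∀ j : Fin r, y (Fin.castLE (Nat.le_add_right r n) j) =
              mv (rows (Nat.le_add_right r n) A) x₀ j + z' j) ∧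
            (∀ j : Fin (r + n), r ≤ (j : ℕ) → eval y (F j i) = 0) ∧
            gaV K0 (cf d (P i)) (mv B y) +
              ∑ s : Fin l, (a : ℂ) ^ ((s : ℕ) + 1) * eval (mv B y) (L s i) = 0 := by
  have hle : ∀ j, j < n → r + j < r + n := fun j hj => by omega
  obtain ⟨N, hN, h1, h2⟩ := elim_tower r n (fF r n bs (mv A x₀)) (fun j _ => CA2_fF r n bs (mv A x₀) j)
    (fun j hj => by
      obtain ⟨m', Fs, hFs, hFsD, hbs⟩ := hlim ⟨r + j, hle j hj⟩ (Nat.le_add_right r j)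
      exact reg_fF r n bs (mv A x₀) j (hle j hj) hFs hFsD hbs)
    (gV K0 bs x₀ B a) (CA2_gV K0 bs x₀ B a)
  obtain ⟨δ, hδ, h1'⟩ := Metric.eventually_nhds_iff_ball.1 h1
  obtain ⟨ρ, hρ, h2'⟩ := Metric.eventually_nhds_iff_ball.1 (h2 1 one_pos)
  have hc : ∀ᶠ x in 𝓝 x₀, mv A x ∈ Metric.ball (mv A x₀) δ :=
    (u9_cont A).continuousAt.eventually (Metric.ball_mem_nhds _ hδ)
  obtain ⟨e, he, h3⟩ := Metric.eventually_nhds_iff_ball.1 hc
  have hb' : ∀ t : ℝ, 0 < t → ∀ᶠ i in (UF : Filter ℕ), ‖u9_b bs F L P i‖ < t := by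
    intro t ht
    have h4 := hb (Metric.ball_mem_nhds _ ht)
    filter_upwards [h4] with i hi
    have h5 : u9_b bs F L P i ∈ Metric.ball (0 : Par (r + n) D d l → ℂ) t := hi
    rwa [Metric.mem_ball, dist_zero_right] at h5
  refine ⟨N, e, ρ, hN, he, hρ, ?_, ?_⟩
  · filter_upwards [hb' δ hδ, hFD, hFv] with i hbi hFDi hFvi x hx hxe
    have hz : ‖fun k => mv A (xp x) k - mv A x₀ k‖ < δ := by
      have h5 : xp x ∈ Metric.ball x₀ e := by
        rw [Metric.mem_ball, dist_eq_norm, pi_norm_lt_iff he]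
        exact hxe
      have h6 := h3 _ h5
      rw [Metric.mem_ball, dist_eq_norm] at h6
      exact h6
    have hw : ((u9_b bs F L P i, fun k => mv A (xp x) k - mv A x₀ k) :
        (Par (r + n) D d l → ℂ) × (Fin (r + n) → ℂ)) ∈ Metric.ball 0 δ := by
      rw [Metric.mem_ball, dist_zero_right, Prod.norm_def]
      exact max_lt hbi hz
    have hy : (fun k => mv A x₀ k + (mv A (xp x) k - mv A x₀ k)) = mv A (xp x) := by
      funext k
      ring
    have h7 := h1' _ hw (fun j hj => ?_) ?_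
    · have h8 : (fun j => mv (rows (Nat.le_add_right r n) A) (xp x) j -
          mv (rows (Nat.le_add_right r n) A) x₀ j) =
          fun j : Fin r => mv A (xp x) (Fin.castAdd n j) - mv A x₀ (Fin.castAdd n j) := by
        funext j
        rw [mv_rows, mv_rows]
        rfl
      rw [h8]
      exact h7
    · have h9 := u9_fF bs F L P i (mv A x₀) (fun k => mv A (xp x) k - mv A x₀ k) j (hle j hj)
        (by omega) (hFDi.1 ⟨r + j, hle j hj⟩ (Nat.le_add_right r j)).1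
        (hFDi.1 ⟨r + j, hle j hj⟩ (Nat.le_add_right r j)).2
      rw [hy, (hFvi x hx).1 ⟨r + j, hle j hj⟩ (Nat.le_add_right r j)] at h9
      exact h9
    · have h9 := u9_gF K0 bs F L P i hBA a x₀ (fun k => mv A (xp x) k - mv A x₀ k) hFDi.2
      rw [hy, mv_mv hBA, (hFvi x hx).2.2] at h9
      refine h9.trans ?_
      rw [zero_add]
      exact Finset.sum_eq_zero fun s _ => by rw [(hFvi x hx).2.1 s, mul_zero]
  · filter_upwards [hb' ρ hρ, hFD] with i hbi hFDi z' hz' hN0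
    have hw : ((u9_b bs F L P i, z') : (Par (r + n) D d l → ℂ) × (Fin r → ℂ)) ∈ Metric.ball 0 ρ := by
      rw [Metric.mem_ball, dist_zero_right, Prod.norm_def]
      exact max_lt hbi ((pi_norm_lt_iff hρ).2 hz')
    obtain ⟨z, -, hz2, hz3, hz4⟩ := h2' _ hw hN0
    refine ⟨fun k => mv A x₀ k + z k, fun j => ?_, fun j hj => ?_, ?_⟩
    · have h5 : z (Fin.castLE (Nat.le_add_right r n) j) = z' j := hz2 j
      show mv A x₀ (Fin.castLE (Nat.le_add_right r n) j) + z (Fin.castLE (Nat.le_add_right r n) j) = _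
      rw [h5, mv_rows]
    · obtain ⟨j', hj'⟩ := Nat.exists_eq_add_of_le hj
      have hj2 : j' < n := by have := j.2; omega
      have hjj : (⟨r + j', hle j' hj2⟩ : Fin (r + n)) = j := Fin.ext hj'.symm
      have h9 := u9_fF bs F L P i (mv A x₀) z j' (hle j' hj2)
        (by omega) (hFDi.1 ⟨r + j', hle j' hj2⟩ (Nat.le_add_right r j')).1
        (hFDi.1 ⟨r + j', hle j' hj2⟩ (Nat.le_add_right r j')).2
      rw [← hjj]
      exact h9.symm.trans (hz3 j' hj2)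
    · exact (u9_gF K0 bs F L P i hBA a x₀ z hFDi.2).symm.trans hz4

end Pool.Agent.Helper49.AXU
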