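import Pool.Agent.Helper94.AXG.H12

/-! # AXU-U7: the algebraic part, with the dichotomy for all elements of bounded degree -/

namespace Pool.Agent.Helper49.AXU

open MvPolynomial Filter Topology Pool.Agent.Helper94.AXG

/-- the dichotomy for all elements of degree `≤ D` at once -/
theorem dich_deg {k l r : ℕ} (A : Matrix (Fin r) (Fin k) ℤ) {g : Fin l → MvPolynomial (Fin k) KK}
    {L : Fin l → ℕ → MvPolynomial (Fin k) ℂ} (hg : ∀ i, Rp (g i) (L i))
    (h : ∀ ψ, Dich A (Ideal.span (Set.range g)) ψ) (D : ℕ) :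
    ∀ᶠ n in (UF : Filter ℕ), ∀ ψ : MvPolynomial (Fin k) ℂ, ψ.totalDegree ≤ D →
      Dich A (IdL L n) ψ := by
  by_contra hcon
  rw [← Ultrafilter.eventually_not] at hcon
  have h1 : ∀ᶠ n in (UF : Filter ℕ), ∃ ψ : MvPolynomial (Fin k) ℂ,
      ψ.totalDegree ≤ D ∧ ¬ Dich A (IdL L n) ψ := by
    filter_upwards [hcon] with n hn
    push Not at hn
    exact hn
  obtain ⟨w, hw⟩ := h1.choice
  obtain ⟨f, hf⟩ := exists_of_seq w (hw.mono fun n hn => hn.1)
  have h2 := dich_transfer A hg hf (h f)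
  obtain ⟨n, h3, h4⟩ := (hw.and h2).exists
  exact h3.2 h4

theorem alg_mainU {k : ℕ} (Q : ℕ → ℕ) (hQ : Tendsto Q atTop atTop) (S : ℕ → Finset (Pt k))
    (hS : Large Q S) (hinj : ∀ n, Set.InjOn xp (S n : Set (Pt k))) :
    ∃ (T : ℕ → Finset (Pt k)) (r : ℕ) (hrk : r ≤ k) (A B : Matrix (Fin k) (Fin k) ℤ)
      (F : Fin k → ℕ → MvPolynomial (Fin k) ℂ) (l : ℕ) (L : Fin l → ℕ → MvPolynomial (Fin k) ℂ),
      (∀ n, T n ⊆ S n) ∧ Alg Q T r hrk A B F l L ∧ ∀ D : ℕ, ∀ᶠ n in (UF : Filter ℕ),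
        ∀ ψ : MvPolynomial (Fin k) ℂ, ψ.totalDegree ≤ D → Dich (rows hrk A) (IdL L n) ψ := by
  obtain ⟨T, hTS, hT, hmax⟩ := exists_max Q S hS
  have hp : (Idl T).IsPrime := Idl_prime hQ hT hmax
  obtain ⟨r, hrk, A, B, f, F, hTow, hin⟩ := exists_Tow (Idl T) hp.ne_top
  obtain ⟨l, g, L, hI, hg, D, hD⟩ := exists_gens (Idl T)
  have hinjT : ∀ n, Set.InjOn xp (T n : Set (Pt k)) := fun n =>
    (hinj n).mono (by exact_mod_cast hTS n)
  have hlead : ∀ j : Fin k, r ≤ (j : ℕ) → ∃ m, 1 ≤ m ∧ LeadAt j m (f j) := fun j hj =>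
    (hTow.good j hj).lead (hTow.rep j hj)
  have hint : ∀ ψ, Intg (rows hrk A) (Idl T) ψ := by
    classical
    refine integral_of_tower hrk A B hTow.BA (Idl T) f
      (fun j => if h : r ≤ (j : ℕ) then Classical.choose (hlead j h) else 0) (fun j hj => ?_)
      hTow.mem
    rw [dif_pos hj]
    exact (Classical.choose_spec (hlead j hj)).2
  have hdich : ∀ ψ, Dich (rows hrk A) (Idl T) ψ := fun ψ => dich_of_prime _ _ hp hin ψ (hint ψ)
  refine ⟨T, r, hrk, A, B, F, l, L, hTS, ?_,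
    fun D => dich_deg (rows hrk A) hg (fun ψ => hI ▸ hdich ψ) D⟩
  refine ⟨hT, ?_, hTow.AB, hTow.BA, hTow.good, ?_, ⟨D, hD⟩, ?_, ?_, ?_, ?_⟩
  · by_contra h0
    have h1 : r = 0 := by omega
    subst h1
    exact r_pos_of hQ hT hinjT hTow
  · intro j hj
    exact mem_IdL hg (Rp_phi A (hTow.rep j hj)) (hI ▸ hTow.mem j hj)
  · rw [eventually_all]
    intro i
    have hi : g i ∈ Idl T := by rw [hI]; exact Ideal.subset_span ⟨i, rfl⟩
    exact (mem_Idl (hg i)).1 hi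
  · rw [eventually_all]
    intro i
    exact intg_transfer (rows hrk A) hg (Rp_X i) (hI ▸ hint (X i))
  · exact dich_all (rows hrk A) hg (fun ψ => hI ▸ hdich ψ)
  · intro T' hT' hL D' G hG
    exact maxi_of (rows hrk A) hmax hin T' hT' hL D' G hG

end Pool.Agent.Helper49.AXU
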