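import Pool.Agent.Helper49.AXQ.YQ1

/-! # AXU-U13: relations over the integers -/

namespace Pool.Agent.Helper49.AXU

open MvPolynomial Pool.Agent.Helper94.AXG Pool.Agent.Helper49.AXQ

/-- nonzero polynomials of total degree `≤ d` and height `≤ H` -/
def SmT {σ : Type} (d H : ℕ) (P : MvPolynomial σ ℤ) : Prop :=
  P ≠ 0 ∧ P.totalDegree ≤ d ∧ ∀ ν, |coeff ν P| ≤ (H : ℤ)

/-- the numbers `θ_j` and `Γ(r)`, `r ∈ J` -/
noncomputable def valsT {m : ℕ} (θ : Fin m → ℂ) (J : Finset ℚ) : Fin m ⊕ J → ℂ :=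
  Sum.elim θ (fun r => Complex.Gamma ((r : ℚ) : ℂ))

/-- the `θ_j` and the `Γ(r)`, `r ∈ J`, satisfy a nonzero polynomial relation over `ℤ` of total degree `≤ d`
and height `≤ H` -/
def DepT {m : ℕ} (θ : Fin m → ℂ) (d H : ℕ) (J : Finset ℚ) : Prop :=
  ∃ P : MvPolynomial (Fin m ⊕ J) ℤ, P ≠ 0 ∧ P.totalDegree ≤ d ∧ (∀ ν, |coeff ν P| ≤ (H : ℤ)) ∧
    aeval (valsT θ J) P = 0

theorem depT_of_inj {m d H : ℕ} {θ : Fin m → ℂ} {σ : Type} {J : Finset ℚ} (r : σ → ℚ)
    (hr : ∀ i, r i ∈ J) (hinj : Function.Injective r) {R : MvPolynomial (Fin m ⊕ σ) ℤ} (hR : SmT d H R)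
    (h0 : aeval (Sum.elim θ (fun i => Complex.Gamma ((r i : ℚ) : ℂ))) R = 0) : DepT θ d H J := by
  have hg : Function.Injective (Sum.map (id : Fin m → Fin m) (fun i => (⟨r i, hr i⟩ : J))) :=
    Function.Injective.sumMap Function.injective_id
      (fun i j hij => hinj (congrArg Subtype.val hij))
  obtain ⟨h1, h2, h3⟩ := Sm_rename _ hg hR
  refine ⟨_, h1, h2, h3, ?_⟩
  rw [aeval_rename, ← h0]
  congr 2
  funext o
  cases o with
  | inl j => rfl
  | inr i => rfl

/-- the transport to the index type `Fin k` -/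
theorem depT_fin {m k d H : ℕ} {θ : Fin m → ℂ} {J : Finset ℚ} (hk : J.card = k) (h : DepT θ d H J) :
    ∃ R : MvPolynomial (Fin m ⊕ Fin k) ℤ, SmT d H R ∧
      aeval (Sum.elim θ (fun i : Fin k => Complex.Gamma ((J.orderEmbOfFin hk i : ℚ) : ℂ))) R = 0 := by
  obtain ⟨P, h1, h2, h3, h4⟩ := h
  have hg : Function.Injective (Sum.map (id : Fin m → Fin m) (J.orderIsoOfFin hk).symm) :=
    Function.Injective.sumMap Function.injective_id (J.orderIsoOfFin hk).symm.injective
  refine ⟨_, Sm_rename _ hg ⟨h1, h2, h3⟩, ?_⟩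
  rw [aeval_rename, ← h4]
  congr 2
  funext o
  cases o with
  | inl j => rfl
  | inr b =>
    have hb : (J.orderEmbOfFin hk ((J.orderIsoOfFin hk).symm b)) = (b : ℚ) := by
      rw [← Finset.coe_orderIsoOfFin_apply, OrderIso.apply_symm_apply]
    change Complex.Gamma (((J.orderEmbOfFin hk ((J.orderIsoOfFin hk).symm b) : ℚ)) : ℂ) =
      Complex.Gamma ((b : ℚ) : ℂ)
    rw [hb]

open scoped Classical in
/-- a small polynomial which becomes `0` by the substitution of the numbers `w_o` for the variables outside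
of `I` gives a small relation between the numbers `w_o`, `o ∉ I` -/
theorem free_rel {σ : Type} [Fintype σ] {d H : ℕ} {R : MvPolynomial σ ℤ} (hR : SmT d H R) (I : Finset σ)
    (w : σ → ℂ) (h : aeval (fun o => if o ∈ I then (X o : MvPolynomial σ ℂ) else C (w o)) R = 0) :
    ∃ R' : MvPolynomial σ ℤ, SmT d H R' ∧ (∀ o ∈ I, o ∉ R'.vars) ∧ aeval w R' = 0 := by
  obtain ⟨hR0, hRd, hRH⟩ := hR
  obtain ⟨ν₀, hν₀⟩ := Finset.nonempty_iff_ne_empty.2 (fun h0 => hR0 (support_eq_empty.1 h0))
  obtain ⟨inI, hinI⟩ : ∃ inI : (σ →₀ ℕ) → (σ →₀ ℕ), inI = fun ν => ν.filter (· ∈ I) := ⟨_, rfl⟩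
  obtain ⟨outI, houtI⟩ : ∃ outI : (σ →₀ ℕ) → (σ →₀ ℕ), outI = fun ν => ν.filter (· ∉ I) := ⟨_, rfl⟩
  have hsum : ∀ ν, inI ν + outI ν = ν := by
    intro ν
    rw [hinI, houtI]
    exact Finsupp.filter_add_filter_not ν (· ∈ I)
  obtain ⟨R', hR'⟩ : ∃ R' : MvPolynomial σ ℤ, R' = ∑ ν ∈ R.support.filter (fun ν => inI ν = inI ν₀),
      monomial (outI ν) (coeff ν R) := ⟨_, rfl⟩
  have hcoef : ∀ κ, coeff κ R' = 0 ∨ (coeff κ R' = coeff (inI ν₀ + κ) R ∧ outI (inI ν₀ + κ) = κ) := by
    intro κ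
    by_cases hc : inI (inI ν₀ + κ) = inI ν₀ ∧ outI (inI ν₀ + κ) = κ
    · right
      refine ⟨?_, hc.2⟩
      rw [hR', coeff_sum, Finset.sum_eq_single (inI ν₀ + κ)]
      · rw [coeff_monomial, if_pos hc.2]
      · intro ν hν hne
        rw [Finset.mem_filter] at hν
        rw [coeff_monomial, if_neg]
        intro h2
        apply hne
        rw [← hsum ν, hν.2, h2]
      · intro hν
        rw [coeff_monomial, if_pos hc.2]
        by_contra hcc
        apply hν
        rw [Finset.mem_filter]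
        exact ⟨mem_support_iff.mpr hcc, hc.1⟩
    · left
      rw [hR', coeff_sum]
      apply Finset.sum_eq_zero
      intro ν hν
      rw [Finset.mem_filter] at hν
      rw [coeff_monomial, if_neg]
      intro h2
      apply hc
      have h3 : inI ν₀ + κ = ν := by rw [← hsum ν, hν.2, h2]
      rw [h3]
      exact ⟨hν.2, h2⟩
  refine ⟨R', ⟨?_, ?_, ?_⟩, ?_, ?_⟩
  · intro h0
    have h1 : coeff (outI ν₀) R' = coeff ν₀ R := by
      rw [hR', coeff_sum, Finset.sum_eq_single ν₀]
      · rw [coeff_monomial, if_pos rfl]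
      · intro ν hν hne
        rw [Finset.mem_filter] at hν
        rw [coeff_monomial, if_neg]
        intro h2
        apply hne
        rw [← hsum ν, hν.2, h2, hsum]
      · intro hν
        exfalso
        apply hν
        rw [Finset.mem_filter]
        exact ⟨hν₀, rfl⟩
    rw [h0, coeff_zero] at h1
    exact (mem_support_iff.1 hν₀) h1.symm
  · refine Finset.sup_le fun κ hκ => ?_
    rcases hcoef κ with h1 | ⟨h1, h2⟩
    · exact absurd h1 (mem_support_iff.1 hκ)
    · have h3 : inI ν₀ + κ ∈ R.support := by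
        rw [mem_support_iff, ← h1]
        exact mem_support_iff.1 hκ
      have h4 := le_totalDegree h3
      have h5 : (κ.sum fun _ e => e) ≤ ((inI ν₀ + κ).sum fun _ e => e) := by
        rw [Finsupp.sum_add_index' (fun _ => rfl) (fun _ _ _ => rfl)]
        exact Nat.le_add_left _ _
      exact h5.trans (h4.trans hRd)
  · intro κ
    rcases hcoef κ with h1 | ⟨h1, -⟩
    · rw [h1, abs_zero]
      exact Int.natCast_nonneg H
    · rw [h1]
      exact hRH _
  · intro o ho hv
    obtain ⟨κ, hκ, hκo⟩ := (mem_vars_iff_mem_support o).1 hv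
    rcases hcoef κ with h1 | ⟨-, h2⟩
    · exact absurd h1 (mem_support_iff.1 hκ)
    · rw [← h2, houtI] at hκo
      rw [Finsupp.support_filter, Finset.mem_filter] at hκo
      exact hκo.2 ho
  · -- the coefficient of `X^(inI ν₀)`
    have hterm : ∀ ν : σ →₀ ℕ, ∏ o, (if o ∈ I then (X o : MvPolynomial σ ℂ) else C (w o)) ^ ν o =
        monomial (inI ν) (∏ o, if o ∈ I then 1 else w o ^ ν o) := by
      intro ν
      have e1 : ∀ o, (if o ∈ I then (X o : MvPolynomial σ ℂ) else C (w o)) ^ ν o =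
          (X o) ^ (inI ν o) * C (if o ∈ I then 1 else w o ^ ν o) := by
        intro o
        rw [hinI]
        by_cases ho : o ∈ I
        · simp only [if_pos ho]
          rw [Finsupp.filter_apply_pos _ _ ho, C_1, mul_one]
        · simp only [if_neg ho]
          rw [Finsupp.filter_apply_neg _ _ ho, pow_zero, one_mul, C_pow]
      rw [Finset.prod_congr rfl (fun o _ => e1 o), Finset.prod_mul_distrib, monomial_eq, ← map_prod,
        mul_comm]
      congr 1
      rw [Finsupp.prod_fintype]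
      intro o
      exact pow_zero _
    have h1 : coeff (inI ν₀) (aeval (fun o => if o ∈ I then (X o : MvPolynomial σ ℂ) else C (w o)) R) =
        aeval w R' := by
      rw [aeval_eq_eval₂Hom, coe_eval₂Hom, eval₂_eq', coeff_sum, hR', map_sum, Finset.sum_filter]
      refine Finset.sum_congr rfl fun ν hν => ?_
      rw [hterm ν]
      have e2 : (algebraMap ℤ (MvPolynomial σ ℂ)) (coeff ν R) = C ((coeff ν R : ℤ) : ℂ) := by
        simp
      rw [e2, coeff_C_mul, coeff_monomial]
      by_cases hc : inI ν = inI ν₀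
      · rw [if_pos hc, if_pos hc, aeval_monomial]
        have e3 : (algebraMap ℤ ℂ) (coeff ν R) = ((coeff ν R : ℤ) : ℂ) := by simp
        rw [e3, Finsupp.prod_fintype _ _ (fun o => pow_zero _)]
        congr 1
        refine Finset.prod_congr rfl fun o _ => ?_
        rw [houtI]
        by_cases ho : o ∈ I
        · rw [if_pos ho]
          simp only
          rw [Finsupp.filter_apply_neg (fun x => x ∉ I) ν (not_not.2 ho), pow_zero]
        · rw [if_neg ho]
          simp only
          rw [Finsupp.filter_apply_pos (fun x => x ∉ I) ν ho]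
      · rw [if_neg hc, if_neg hc, mul_zero]
    rw [← h1, h, coeff_zero]

end Pool.Agent.Helper49.AXU
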