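import Pool.Agent.Helper49.AXU.U11
import Pool.Agent.Helper49.AXU.U13

/-! # AXU-U14: the universal polynomial and its points -/

namespace Pool.Agent.Helper49.AXU

open MvPolynomial Pool.Agent.Helper94.AXG Pool.Agent.Helper49.AXQ

/-- the exponents of degree `≤ d` -/
abbrev EE (m k d : ℕ) : Type := {ν : (Fin m ⊕ Fin k) → Fin (d + 1) // ∑ o, (ν o : ℕ) ≤ d}

/-- their number -/
noncomputable def NE (m k d : ℕ) : ℕ := Fintype.card (EE m k d)

/-- their enumeration -/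
noncomputable def eE (m k d : ℕ) : EE m k d ≃ Fin (NE m k d) := Fintype.equivFin _

/-- the exponent -/
noncomputable def exE {m k d : ℕ} (ν : EE m k d) : (Fin m ⊕ Fin k) →₀ ℕ :=
  Finsupp.equivFunOnFinite.symm (fun o => (ν.1 o : ℕ))

theorem exE_apply {m k d : ℕ} (ν : EE m k d) (o : Fin m ⊕ Fin k) : exE ν o = (ν.1 o : ℕ) := rfl

theorem exE_inj {m k d : ℕ} : Function.Injective (exE (m := m) (k := k) (d := d)) := by
  intro a b hab
  refine Subtype.ext (funext fun i => ?_)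
  have := DFunLike.congr_fun hab i
  rw [exE_apply, exE_apply] at this
  exact Fin.ext this

theorem exE_surj {m k d : ℕ} {R : MvPolynomial (Fin m ⊕ Fin k) ℤ} (hR : R.totalDegree ≤ d)
    {κ : (Fin m ⊕ Fin k) →₀ ℕ} (hκ : κ ∈ R.support) : ∃ ν : EE m k d, exE ν = κ := by
  have h2 : κ.degree ≤ R.totalDegree := by
    have := le_totalDegree hκ
    simpa [Finsupp.degree, Finsupp.sum] using this
  have hle : ∀ i, κ i < d + 1 := by
    intro i
    have h1 : κ i ≤ κ.degree := Finsupp.le_degree i κ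
    omega
  refine ⟨⟨fun i => ⟨κ i, hle i⟩, ?_⟩, ?_⟩
  · rw [Finsupp.degree_eq_sum] at h2
    exact h2.trans hR
  ext i
  rfl

theorem sum_EE {m k d : ℕ} {R : MvPolynomial (Fin m ⊕ Fin k) ℤ} (hR : R.totalDegree ≤ d)
    (w : Fin m ⊕ Fin k → ℂ) :
    aeval w R = ∑ ν : EE m k d, ((coeff (exE ν) R : ℤ) : ℂ) * ∏ o, w o ^ (ν.1 o : ℕ) := by
  classical
  have hsub : R.support ⊆ Finset.univ.image (exE : EE m k d → _) := by
    intro κ hκ
    obtain ⟨ν, hν⟩ := exE_surj hR hκ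
    exact Finset.mem_image.2 ⟨ν, Finset.mem_univ _, hν⟩
  have h1 : aeval w R = ∑ κ ∈ R.support, ((coeff κ R : ℤ) : ℂ) * ∏ o, w o ^ κ o := by
    rw [aeval_eq_eval₂Hom, coe_eval₂Hom, eval₂_eq']
    rfl
  rw [h1, Finset.sum_subset hsub, Finset.sum_image (fun a _ b _ h => exE_inj h)]
  · rfl
  · intro κ _ hκ
    rw [notMem_support_iff.mp hκ]
    simp

/-- the largest coefficient -/
noncomputable def MR {m k : ℕ} (d : ℕ) (R : MvPolynomial (Fin m ⊕ Fin k) ℤ) : ℕ :=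
  Finset.univ.sup (fun ν : EE m k d => (coeff (exE ν) R).natAbs)

theorem MR_pos {m k d H : ℕ} {R : MvPolynomial (Fin m ⊕ Fin k) ℤ} (hR : SmT d H R) : 1 ≤ MR d R := by
  obtain ⟨κ, hκ⟩ := Finset.nonempty_iff_ne_empty.2 (fun h0 => hR.1 (support_eq_empty.1 h0))
  obtain ⟨ν, hν⟩ := exE_surj hR.2.1 hκ
  have h1 : (coeff (exE ν) R).natAbs ≤ MR d R :=
    Finset.le_sup (f := fun ν : EE m k d => (coeff (exE ν) R).natAbs) (Finset.mem_univ ν)
  have h2 : coeff (exE ν) R ≠ 0 := by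
    rw [hν]
    exact mem_support_iff.1 hκ
  omega

theorem MR_le {m k d H : ℕ} {R : MvPolynomial (Fin m ⊕ Fin k) ℤ} (hR : SmT d H R) : MR d R ≤ H := by
  refine Finset.sup_le fun ν _ => ?_
  have h := hR.2.2 (exE ν)
  rw [Int.abs_eq_natAbs] at h
  exact_mod_cast h

theorem le_MR {m k d : ℕ} (R : MvPolynomial (Fin m ⊕ Fin k) ℤ) (ν : EE m k d) :
    |coeff (exE ν) R| ≤ (MR d R : ℤ) := by
  have h1 : (coeff (exE ν) R).natAbs ≤ MR d R :=
    Finset.le_sup (f := fun ν : EE m k d => (coeff (exE ν) R).natAbs) (Finset.mem_univ ν)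
  rw [Int.abs_eq_natAbs]
  exact_mod_cast h1

/-- the tuple `(r, y)` -/
noncomputable def rho {m k : ℕ} (d : ℕ) (r : Fin k → ℚ) (R : MvPolynomial (Fin m ⊕ Fin k) ℤ) :
    Fin (k + NE m k d) → ℚ :=
  Fin.append r (fun s => (((coeff (exE ((eE m k d).symm s)) R + MR d R : ℤ) : ℚ)) /
    ((2 * MR d R : ℕ) : ℚ))

theorem rho_left {m k d : ℕ} (r : Fin k → ℚ) (R : MvPolynomial (Fin m ⊕ Fin k) ℤ) (i : Fin k) :
    rho d r R (Fin.castAdd _ i) = r i := Fin.append_left _ _ i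

theorem rho_right {m k d : ℕ} (r : Fin k → ℚ) (R : MvPolynomial (Fin m ⊕ Fin k) ℤ) (ν : EE m k d) :
    rho d r R (Fin.natAdd k (eE m k d ν)) = ((coeff (exE ν) R + MR d R : ℤ) : ℚ) /
      ((2 * MR d R : ℕ) : ℚ) := by
  unfold rho
  rw [Fin.append_right, Equiv.symm_apply_apply]

/-- the coordinates of the tuple lie in `[0, 1]` and have denominators `≤ 2 Q` -/
theorem rho_range {m k d Q : ℕ} {r : Fin k → ℚ} {R : MvPolynomial (Fin m ⊕ Fin k) ℤ}
    (hr : ∀ i, Rat01 Q (r i)) (hR : SmT d Q R) (s : Fin (k + NE m k d)) :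
    0 ≤ rho d r R s ∧ rho d r R s ≤ 1 ∧ (rho d r R s).den ≤ 2 * Q := by
  refine Fin.addCases (fun i => ?_) (fun j => ?_) s
  · rw [rho_left]
    obtain ⟨h1, h2, h3⟩ := hr i
    exact ⟨h1.le, h2.le, by omega⟩
  · obtain ⟨ν, hν⟩ := (eE m k d).surjective j
    rw [← hν, rho_right]
    have h1 := MR_pos hR
    have h2 := MR_le hR
    have h3 := abs_le.1 (le_MR R ν)
    have hpos : (0 : ℚ) < ((2 * MR d R : ℕ) : ℚ) := by
      have : 0 < 2 * MR d R := by omega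
      exact_mod_cast this
    refine ⟨div_nonneg ?_ hpos.le, ?_, ?_⟩
    · have : (0 : ℤ) ≤ coeff (exE ν) R + MR d R := by linarith [h3.1]
      exact_mod_cast this
    · rw [div_le_one hpos]
      have : coeff (exE ν) R + MR d R ≤ ((2 * MR d R : ℕ) : ℤ) := by
        push_cast
        linarith [h3.2]
      exact_mod_cast this
    · have h4 : (((coeff (exE ν) R + MR d R : ℤ) : ℚ) / ((2 * MR d R : ℕ) : ℚ)).den ∣ 2 * MR d R := by
        have h5 := Rat.den_dvd (coeff (exE ν) R + MR d R) ((2 * MR d R : ℕ) : ℤ)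
        rw [Rat.divInt_eq_div] at h5
        exact_mod_cast h5
      exact (Nat.le_of_dvd (by omega) h4).trans (by omega)

/-- the universal polynomial -/
noncomputable def Pth {m k : ℕ} (d : ℕ) (θ : Fin m → ℂ) : MvPolynomial (Fin (k + NE m k d)) ℂ :=
  ∑ ν : EE m k d, C (∏ j, θ j ^ (ν.1 (Sum.inl j) : ℕ)) * (C 2 * X (Fin.natAdd k (eE m k d ν)) - 1) *
    ∏ i : Fin k, X (Fin.castAdd (NE m k d) i) ^ (d - (ν.1 (Sum.inr i) : ℕ))

theorem Pth_deg {m k d : ℕ} (θ : Fin m → ℂ) : (Pth (k := k) d θ).totalDegree ≤ k * d + 1 := by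
  unfold Pth
  refine (totalDegree_finsetSum _ _).trans (Finset.sup_le fun ν _ => ?_)
  refine (totalDegree_mul _ _).trans ?_
  have h1 : (C (∏ j, θ j ^ (ν.1 (Sum.inl j) : ℕ)) * (C 2 * X (Fin.natAdd k (eE m k d ν)) - 1) :
      MvPolynomial (Fin (k + NE m k d)) ℂ).totalDegree ≤ 1 := by
    refine (totalDegree_mul _ _).trans ?_
    rw [totalDegree_C, zero_add]
    refine (totalDegree_sub _ _).trans (max_le ?_ ?_)
    · refine (totalDegree_mul _ _).trans ?_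
      rw [totalDegree_C, zero_add, totalDegree_X]
    · rw [totalDegree_one]
      exact Nat.zero_le 1
  have h2 : (∏ i : Fin k, X (Fin.castAdd (NE m k d) i) ^ (d - (ν.1 (Sum.inr i) : ℕ)) :
      MvPolynomial (Fin (k + NE m k d)) ℂ).totalDegree ≤ k * d := by
    refine (totalDegree_finsetProd _ _).trans ?_
    calc ∑ i : Fin k, (X (Fin.castAdd (NE m k d) i) ^ (d - (ν.1 (Sum.inr i) : ℕ)) :
          MvPolynomial (Fin (k + NE m k d)) ℂ).totalDegree ≤ ∑ _i : Fin k, d := by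
          refine Finset.sum_le_sum fun i _ => ?_
          refine (totalDegree_pow _ _).trans ?_
          rw [totalDegree_X, mul_one]
          omega
      _ = k * d := by simp
  omega

/-- the key identity -/
theorem key_sum {m k d : ℕ} {R : MvPolynomial (Fin m ⊕ Fin k) ℤ} (hR : R.totalDegree ≤ d)
    (θ : Fin m → ℂ) (z : Fin k → ℂ) (hz : ∀ i, z i ≠ 0) (M : ℂ) :
    ∑ ν : EE m k d, (∏ j, θ j ^ (ν.1 (Sum.inl j) : ℕ)) * (((coeff (exE ν) R : ℤ) : ℂ) / M) *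
      ∏ i : Fin k, (z i)⁻¹ ^ (d - (ν.1 (Sum.inr i) : ℕ)) =
      M⁻¹ * (∏ i, (z i)⁻¹ ^ d) * aeval (Sum.elim θ z) R := by
  rw [sum_EE hR, Finset.mul_sum]
  refine Finset.sum_congr rfl fun ν _ => ?_
  rw [Fintype.prod_sum_type]
  simp only [Sum.elim_inl, Sum.elim_inr]
  have h1 : ∏ i : Fin k, (z i)⁻¹ ^ (d - (ν.1 (Sum.inr i) : ℕ)) =
      (∏ i, (z i)⁻¹ ^ d) * ∏ i, z i ^ (ν.1 (Sum.inr i) : ℕ) := by
    rw [← Finset.prod_mul_distrib]
    refine Finset.prod_congr rfl fun i _ => ?_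
    have h2 : (ν.1 (Sum.inr i) : ℕ) ≤ d := by
      have := (ν.1 (Sum.inr i)).2
      omega
    have h3 : (z i)⁻¹ ^ d = (z i)⁻¹ ^ (d - (ν.1 (Sum.inr i) : ℕ)) * (z i)⁻¹ ^ (ν.1 (Sum.inr i) : ℕ) := by
      rw [← pow_add]
      congr 1
      omega
    rw [h3, mul_assoc, ← mul_pow, inv_mul_cancel₀ (hz i), one_pow, mul_one]
  rw [h1]
  ring

end Pool.Agent.Helper49.AXU
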