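import Pool.Agent.Helper49.AXU.V0
import Pool.Agent.Helper49.AXQ.YQ1

/-!
# AXU-V1: sets of rationals without a matching
-/

namespace Pool.Agent.Helper49.AXU

open Pool.Agent.Helper94.AXG Pool.Agent.Helper49.AXQ

open scoped Classical in
/-- no matching of degree `≤ D` of the numbers `r i`, `i ∈ J` -/
def NR {ι : Type} (D : ℕ) (J : Finset ι) (r : ι → ℚ) : Prop :=
  ∀ (C : Finset ι), C ⊆ J → ∀ (N : ι → ℤ) (b : ι → ℚ) (m : ι → ℤ) (t₀ : ℚ),
    (∑ i ∈ C, (m i).toNat ≤ D) → (∑ i ∈ C, (-m i).toNat ≤ D) → (∀ i ∈ C, N i ≠ 0) →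
    (∀ i ∈ C, (N i : ℚ) * t₀ + b i = r i) →
    (∀ τ : ℚ, ∑ i ∈ C, (if (∃ z : ℤ, (N i : ℚ) * τ + b i = z) then (N i).sign * m i else 0) = 0) →
    ∀ i ∈ C, m i = 0

theorem NR.mono {ι : Type} {D : ℕ} {J J' : Finset ι} {r : ι → ℚ} (h : NR D J r)
    (hJ : J' ⊆ J) : NR D J' r := fun C hC => h C (hC.trans hJ)

theorem NR_of_NDD {ι : Type} {D : ℕ} {J : Finset ι} {q : ℕ} {a : ι → ℤ} (h : NDD D J q a) :
    NR D J (fun i => (a i : ℚ) / q) := h

theorem NDD_of_NR {ι : Type} {D : ℕ} {J : Finset ι} {q : ℕ} {a : ι → ℤ}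
    (h : NR D J (fun i => (a i : ℚ) / q)) : NDD D J q a := h

theorem sum_pull {ι κ M : Type} [AddCommMonoid M] [DecidableEq ι] {C : Finset κ} {g : κ → ι} {f : ι → κ}
    (hg : Set.InjOn g C) (hf : ∀ s ∈ C, f (g s) = s) (F : κ → M) :
    ∑ j ∈ C.image g, F (f j) = ∑ s ∈ C, F s := by
  rw [Finset.sum_image (fun x hx y hy h => hg hx hy h)]
  exact Finset.sum_congr rfl fun s hs => by rw [hf s hs]

theorem NR_pull {ι κ : Type} {D : ℕ} {J : Finset ι} {K : Finset κ} {r : ι → ℚ} {r' : κ → ℚ}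
    (h : NR D J r) (g : κ → ι) (hg : Set.InjOn g K) (hJ : ∀ s ∈ K, g s ∈ J)
    (hr : ∀ s ∈ K, r (g s) = r' s) : NR D K r' := by
  classical
  intro C hC N b m t₀ hmD hmD' hN hpt hsum i hi
  have hex : ∀ j : ι, ∃ s : κ, j ∈ C.image g → s ∈ C ∧ g s = j := by
    intro j
    by_cases hj : j ∈ C.image g
    · obtain ⟨s, hs, hsj⟩ := Finset.mem_image.1 hj
      exact ⟨s, fun _ => ⟨hs, hsj⟩⟩
    · exact ⟨i, fun h => absurd h hj⟩
  choose f hf using hex
  have hgC : Set.InjOn g C := hg.mono (by exact_mod_cast hC)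
  have hfg : ∀ s ∈ C, f (g s) = s := by
    intro s hs
    obtain ⟨h1, h2⟩ := hf (g s) (Finset.mem_image_of_mem g hs)
    exact hgC h1 hs h2
  have key := h (C.image g) (fun j hj => by
      obtain ⟨s, hs, rfl⟩ := Finset.mem_image.1 hj
      exact hJ s (hC hs)) (fun j => N (f j)) (fun j => b (f j)) (fun j => m (f j)) t₀ (by
      rw [sum_pull hgC hfg (fun s => (m s).toNat)]
      exact hmD) (by
      rw [sum_pull hgC hfg (fun s => (-m s).toNat)]
      exact hmD') (fun j hj => hN _ (hf j hj).1) (fun j hj => by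
      obtain ⟨h1, h2⟩ := hf j hj
      rw [hpt _ h1, ← hr _ (hC h1), h2]) (fun τ => by
      rw [sum_pull hgC hfg (fun s => if (∃ z : ℤ, (N s : ℚ) * τ + b s = z) then
        (N s).sign * m s else 0)]
      exact hsum τ) (g i) (Finset.mem_image_of_mem g hi)
  rwa [hfg i hi] at key

/-- the quotient of two different monomials of degree `≤ D` in the `Γ(r)`, `r ∈ J`, is never standard -/
def StdInd (D : ℕ) (J : Finset ℚ) : Prop :=
  ∀ m n : ℚ → ℕ, ∑ r ∈ J, m r ≤ D → ∑ r ∈ J, n r ≤ D →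
    (∀ u : ℤ, (∀ r ∈ J, IsCoprime u (r.den : ℤ)) → ∑ r ∈ J, ((m r : ℚ) - n r) * B1 (u * r) = 0) →
    ∀ r ∈ J, m r = n r

/-- the set has no standard relation of degree `≤ D` -/
theorem NR_of_StdInd {D : ℕ} {J : Finset ℚ} (hJ : ∀ r ∈ J, 0 < r ∧ r < 1) (h : StdInd D J) :
    NR D J id := by
  classical
  obtain ⟨q, hq⟩ : ∃ q : ℕ, q = ∏ r ∈ J, r.den := ⟨_, rfl⟩
  have hq1 : 1 ≤ q := by
    rw [hq]
    exact Nat.succ_le_of_lt (Finset.prod_pos fun (r : ℚ) _ => r.den_pos)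
  have hq0 : (0 : ℚ) < q := by exact_mod_cast hq1
  have hdvd : ∀ r ∈ J, r.den ∣ q := fun r hr => by
    rw [hq]
    exact Finset.dvd_prod_of_mem (fun r : ℚ => r.den) hr
  have hex : ∀ r : ℚ, ∃ a : ℤ, r ∈ J → (a : ℚ) / q = r := by
    intro r
    by_cases hr : r ∈ J
    · obtain ⟨c, hc⟩ := hdvd r hr
      refine ⟨r.num * c, fun _ => ?_⟩
      have hc0 : (c : ℚ) ≠ 0 := by
        intro h0
        have h1 : c = 0 := by exact_mod_cast h0
        rw [h1, mul_zero] at hc
        omega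
      have hd0 : (r.den : ℚ) ≠ 0 := by exact_mod_cast r.den_pos.ne'
      rw [hc]
      push_cast
      rw [mul_div_mul_right _ _ hc0, Rat.num_div_den]
    · exact ⟨0, fun h => absurd h hr⟩
  choose a ha using hex
  have h1 : NDD D J q a := by
    refine NDD_of_SID D J q hq1 a (fun r hr hd => ?_) (fun m hm hm' hu r hr => ?_)
    · obtain ⟨z, hz⟩ := hd
      have h2 := ha r hr
      rw [hz] at h2
      push_cast at h2
      rw [mul_div_cancel_left₀ _ hq0.ne'] at h2
      obtain ⟨h3, h4⟩ := hJ r hr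
      rw [← h2] at h3 h4
      have h5 : (0 : ℤ) < z := by exact_mod_cast h3
      have h6 : z < 1 := by exact_mod_cast h4
      omega
    · have h2 := h (fun r => (m r).toNat) (fun r => (-m r).toNat) hm hm' (fun u hu' => ?_) r hr
      · have h3 : (m r).toNat = (-m r).toNat := h2
        omega
      · have hc : IsCoprime u ((q : ℕ) : ℤ) := by
          rw [hq]
          push_cast
          exact IsCoprime.prod_right fun r hr => hu' r hr
        rw [← hu u hc]
        refine Finset.sum_congr rfl fun r hr => ?_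
        rw [ha r hr]
        congr 1
        have h3 : (((m r).toNat : ℤ) : ℚ) - (((-m r).toNat : ℤ) : ℚ) = ((m r : ℤ) : ℚ) := by
          rw [← Int.cast_sub]
          congr 1
          omega
        exact_mod_cast h3
  exact NR_pull (NR_of_NDD h1) id (fun x _ y _ h => h) (fun s hs => hs) (fun s hs => ha s hs)

theorem StdInd.mono {D : ℕ} {J J' : Finset ℚ} (h : StdInd D J) (hJ : J' ⊆ J) : StdInd D J' := by
  classical
  intro m n hm hn hu r hr
  have e : ∀ F : ℚ → ℕ, ∑ r ∈ J, (if r ∈ J' then F r else 0) = ∑ r ∈ J', F r := by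
    intro F
    symm
    refine Finset.sum_subset_zero_on_sdiff hJ (fun x hx => ?_) (fun x hx => ?_)
    · rw [if_neg (Finset.mem_sdiff.1 hx).2]
    · rw [if_pos hx]
  have key := h (fun x => if x ∈ J' then m x else 0) (fun x => if x ∈ J' then n x else 0)
    ((e m).le.trans hm) ((e n).le.trans hn) (fun u hu' => ?_) r (hJ hr)
  · simpa [hr] using key
  · rw [← hu u (fun x hx => hu' x (hJ hx))]
    symm
    refine Finset.sum_subset_zero_on_sdiff hJ (fun x hx => ?_) (fun x hx => ?_)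
    · rw [if_neg (Finset.mem_sdiff.1 hx).2, if_neg (Finset.mem_sdiff.1 hx).2]
      simp
    · rw [if_pos hx, if_pos hx]

/-- the numbers `a / q` with `a` prime to `q`, no two of them equal or opposite modulo `1` -/
theorem NR_of_level {D : ℕ} {J : Finset ℚ} {q : ℕ} (hq : 1 ≤ q) (h : ∀ r ∈ J, r.den = q)
    (hd : ∀ r ∈ J, ∀ s ∈ J, r ≠ s → (¬ ∃ z : ℤ, r - s = z) ∧ ¬ ∃ z : ℤ, r + s = z) :
    NR D J id := by
  have hq0 : (q : ℚ) ≠ 0 := by
    have : q ≠ 0 := by omega
    exact_mod_cast this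
  have hr : ∀ r ∈ J, ((r.num : ℤ) : ℚ) / q = r := fun r hr => by
    rw [← h r hr, Rat.num_div_den]
  have h1 : ND J q (fun r => r.num) := by
    refine ND_of_coprime J q hq _ (fun r hr' => ?_) (fun r hr' s hs hne => ⟨fun hdv => ?_, fun hdv => ?_⟩)
    · have h2 := r.reduced
      rw [h r hr'] at h2
      exact Int.isCoprime_iff_gcd_eq_one.2 (by
        rw [Int.gcd_eq_natAbs, Int.natAbs_natCast]
        exact h2)
    · obtain ⟨z, hz⟩ := hdv
      refine (hd r hr' s hs hne).1 ⟨z, ?_⟩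
      rw [← hr r hr', ← hr s hs, ← sub_div, ← Int.cast_sub, hz]
      push_cast
      field_simp
    · obtain ⟨z, hz⟩ := hdv
      refine (hd r hr' s hs hne).2 ⟨z, ?_⟩
      rw [← hr r hr', ← hr s hs, ← add_div, ← Int.cast_add, hz]
      push_cast
      field_simp
  intro C hC N b m t₀ _ _ hN hpt hsum
  exact h1 C hC N b m t₀ hN (fun r hr' => by rw [hpt r hr', id, hr r (hC hr')]) hsum

end Pool.Agent.Helper49.AXU
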