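import Pool.Agent.Helper49.AXU.U15
import Pool.Agent.Helper49.AXU.V1
import Pool.Agent.Helper49.AXQ.YQ3

/-! # AXU-U16: counting minimal dependent sets -/

namespace Pool.Agent.Helper49.AXU

open MvPolynomial Pool.Agent.Helper94.AXG Pool.Agent.Helper49.AXQ

/-- the degrees of the universal polynomial -/
theorem Pth_DegC {m k d : ℕ} (θ : Fin m → ℂ) : DegC d (KK0 k (NE m k d)) (Pth (k := k) d θ) := by
  classical
  intro κ hκ
  unfold Pth at hκ
  have h1 := support_sum hκ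
  rw [Finset.mem_biUnion] at h1
  obtain ⟨ν, -, h2⟩ := h1
  have h3 := support_mul _ _ h2
  rw [Finset.mem_add] at h3
  obtain ⟨κ1, hκ1, κ2, hκ2, rfl⟩ := h3
  have hν : ∀ i : Fin k, (ν.1 (Sum.inr i) : ℕ) ≤ d := fun i => by
    have := (ν.1 (Sum.inr i)).2
    omega
  have e1 : ∀ i : Fin k, κ1 (Fin.castAdd (NE m k d) i) = 0 := by
    intro i
    have h4 : (C (∏ j, θ j ^ (ν.1 (Sum.inl j) : ℕ)) *
        (C 2 * X (Fin.natAdd k (eE m k d ν)) - 1) :
          MvPolynomial (Fin (k + NE m k d)) ℂ).degreeOf (Fin.castAdd (NE m k d) i) = 0 := by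
      refine Nat.le_zero.1 ((degreeOf_mul_le _ _ _).trans ?_)
      rw [degreeOf_C, zero_add]
      refine (degreeOf_sub_le _ _ _).trans (max_le ?_ ?_)
      · refine (degreeOf_mul_le _ _ _).trans ?_
        rw [degreeOf_C, zero_add, degreeOf_X, if_neg]
        intro h5
        have h6 := congrArg Fin.val h5
        have h7 : (Fin.natAdd k (eE m k d ν)).val = k + (eE m k d ν).val := rfl
        have h8 : (Fin.castAdd (NE m k d) i).val = i.val := rfl
        have := i.2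
        omega
      · rw [degreeOf_one]
    exact Nat.le_zero.1 ((monomial_le_degreeOf _ hκ1).trans h4.le)
  have e2 : ∀ i : Fin k, κ2 (Fin.castAdd (NE m k d) i) = d - (ν.1 (Sum.inr i) : ℕ) := by
    intro i
    have h4 : (∏ i : Fin k, X (Fin.castAdd (NE m k d) i) ^ (d - (ν.1 (Sum.inr i) : ℕ)) :
        MvPolynomial (Fin (k + NE m k d)) ℂ) =
        monomial (∑ i : Fin k, Finsupp.single (Fin.castAdd (NE m k d) i)
          (d - (ν.1 (Sum.inr i) : ℕ))) 1 := by
      rw [monomial_sum_one]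
      refine Finset.prod_congr rfl fun i _ => ?_
      rw [X_pow_eq_monomial]
    rw [h4] at hκ2
    have h5 := support_monomial_subset hκ2
    rw [Finset.mem_singleton] at h5
    rw [h5, Finsupp.finsetSum_apply, Finset.sum_eq_single i]
    · rw [Finsupp.single_eq_same]
    · intro j _ hj
      rw [Finsupp.single_eq_of_ne]
      intro h6
      exact hj (Fin.castAdd_injective _ _ h6).symm
    · intro h6
      exact absurd (Finset.mem_univ i) h6
  have e3 : ∀ i : Fin k, (κ1 + κ2) (Fin.castAdd (NE m k d) i) = d - (ν.1 (Sum.inr i) : ℕ) := by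
    intro i
    rw [Finsupp.add_apply, e1, e2, zero_add]
  refine ⟨fun s hs => ?_, ?_⟩
  · obtain ⟨i, rfl⟩ := mem_KK0 hs
    rw [e3]
    exact Nat.sub_le _ _
  · have h4 : ∑ s ∈ KK0 k (NE m k d), (d - (κ1 + κ2) s) = ∑ i : Fin k, (ν.1 (Sum.inr i) : ℕ) := by
      unfold KK0
      rw [Finset.sum_map]
      refine Finset.sum_congr rfl fun i _ => ?_
      have e0 : (Fin.castAddEmb (NE m k d)) i = Fin.castAdd (NE m k d) i := rfl
      rw [e0, e3]
      have := hν i
      omega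
    rw [h4]
    have h5 := ν.2
    rw [Fintype.sum_sum_type] at h5
    omega

theorem admU_rho {m k d Q : ℕ} {r : Fin k → ℚ} {R : MvPolynomial (Fin m ⊕ Fin k) ℤ} {J : Finset ℚ}
    (hr : ∀ i, Rat01 Q (r i)) (hinj : Function.Injective r) (hrJ : ∀ i, r i ∈ J) (hS : NR d J id)
    (hR : SmT d Q R) : AdmU d (KK0 k (NE m k d)) (ptT (rho d r R)) := by
  have hq := qT_pos (rho d r R)
  have hq' : (0 : ℚ) < (qT (rho d r R) : ℕ) := by exact_mod_cast hq
  refine ⟨hq, fun s => ?_, ?_⟩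
  · obtain ⟨h1, h2, -⟩ := rho_range hr hR s
    have h3 := en_cast h1 (den_dvd (rho d r R) s)
    have h4 : ((en (qT (rho d r R)) (rho d r R s) : ℕ) : ℚ) ≤ (qT (rho d r R) : ℕ) := by
      rw [h3]
      calc rho d r R s * (qT (rho d r R) : ℕ) ≤ 1 * (qT (rho d r R) : ℕ) :=
            mul_le_mul_of_nonneg_right h2 hq'.le
        _ = _ := one_mul _
    exact_mod_cast h4
  · refine NDD_of_NR (NR_pull hS (fun s => rho d r R s) (fun s hs s' hs' h => ?_) (fun s hs => ?_)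
      (fun s hs => ?_))
    · obtain ⟨i, rfl⟩ := mem_KK0 (Finset.mem_coe.1 hs)
      obtain ⟨i', rfl⟩ := mem_KK0 (Finset.mem_coe.1 hs')
      simp only [rho_left] at h
      rw [hinj h]
    · obtain ⟨i, rfl⟩ := mem_KK0 hs
      simp only [rho_left]
      exact hrJ i
    · have e1 : (((((ptT (rho d r R)).2 s : ℕ) : ℤ) : ℚ)) / ((ptT (rho d r R)).1 : ℕ) = rho d r R s := by
        rw [Int.cast_natCast]
        exact en_div hq (rho_range hr hR s).1 (den_dvd _ s)
      exact e1.symm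

/-- minimal dependent sets of `k` numbers without a matching of degree `≤ d` -/
def MinT {m : ℕ} (θ : Fin m → ℂ) (k d H Q : ℕ) : Set (Finset ℚ) :=
  {J : Finset ℚ | J.card = k ∧ (∀ r ∈ J, Rat01 Q r) ∧ NR d J id ∧ DepT θ d H J ∧
    ∀ J', J' ⊂ J → ¬ DepT θ d H J'}

theorem minT_finite {m : ℕ} (θ : Fin m → ℂ) (k d H Q : ℕ) : (MinT θ k d H Q).Finite :=
  finite_of_rat (Q := Q) fun _ hJ => hJ.2.1

/-- a relation free of some variables contradicts the minimality -/
theorem not_free {m k d H Q : ℕ} {θ : Fin m → ℂ} {J : Finset ℚ} (hJ : J ∈ MinT θ k d H Q)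
    (J' : Finset (Fin k)) (hJ' : J'.Nonempty) : ¬ ∃ R' : MvPolynomial (Fin m ⊕ Fin k) ℤ, SmT d H R' ∧
      (∀ i ∈ J', (Sum.inr i : Fin m ⊕ Fin k) ∉ R'.vars) ∧
      aeval (Sum.elim θ (fun i : Fin k => Complex.Gamma ((tup k J i : ℚ) : ℂ))) R' = 0 := by
  classical
  rintro ⟨R', ⟨h1, h2, h3⟩, hfree, h0⟩
  have hinj := tup_injective hJ.1
  let f : Fin m ⊕ {i : Fin k // i ∉ J'} → Fin m ⊕ Fin k := Sum.map id Subtype.val
  have hf : Function.Injective f := Function.Injective.sumMap Function.injective_id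
    Subtype.val_injective
  have hv : (↑R'.vars : Set (Fin m ⊕ Fin k)) ⊆ Set.range f := by
    intro o ho
    cases o with
    | inl j => exact ⟨Sum.inl j, rfl⟩
    | inr i => exact ⟨Sum.inr ⟨i, fun hi => hfree i hi ho⟩, rfl⟩
  obtain ⟨R'', hR''⟩ := exists_rename_eq_of_vars_subset_range R' f hf hv
  have hc : ∀ ν, coeff ν R'' = coeff (ν.mapDomain f) R' := by
    intro ν
    rw [← hR'', coeff_rename_mapDomain f hf]
  refine hJ.2.2.2.2 ((Finset.univ.filter (fun i => i ∉ J')).image (tup k J)) ?_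
    (depT_of_inj (σ := {i : Fin k // i ∉ J'}) (R := R'') (fun i => tup k J i.1) (fun i => ?_)
      (fun i j hij => Subtype.ext (hinj hij)) ⟨?_, ?_, fun ν => ?_⟩ ?_)
  · rw [Finset.ssubset_iff_of_subset]
    · obtain ⟨i, hi⟩ := hJ'
      refine ⟨tup k J i, (tup_range hJ.1 _).2 ⟨i, rfl⟩, fun h => ?_⟩
      obtain ⟨j, hj, hji⟩ := Finset.mem_image.1 h
      rw [hinj hji] at hj
      exact (Finset.mem_filter.1 hj).2 hi
    · intro x hx
      obtain ⟨j, -, rfl⟩ := Finset.mem_image.1 hx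
      exact (tup_range hJ.1 _).2 ⟨j, rfl⟩
  · exact Finset.mem_image_of_mem _ (Finset.mem_filter.mpr ⟨Finset.mem_univ _, i.2⟩)
  · rintro rfl
    exact h1 (by rw [← hR'', map_zero])
  · refine le_trans (Finset.sup_le fun ν hν => ?_) h2
    have h4 : ν.mapDomain f ∈ R'.support := by
      rw [mem_support_iff, ← hc]
      exact mem_support_iff.mp hν
    have h5 := le_totalDegree h4
    rwa [Finsupp.sum_mapDomain_index (fun _ => rfl) (fun _ _ _ => rfl)] at h5
  · rw [hc]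
    exact h3 _
  · rw [← hR'', aeval_rename] at h0
    rw [← h0]
    congr 2
    funext o
    cases o with
    | inl j => rfl
    | inr i => rfl

/-- the number of minimal dependent sets -/
theorem count_minT_pos {k : ℕ} (hk : 1 ≤ k) (m d : ℕ) {ε : ℝ} (hε : 0 < ε) : ∃ C : ℝ, 0 ≤ C ∧
    ∀ (θ : Fin m → ℂ) (H Q : ℕ), 1 ≤ Q → H ≤ Q → ((MinT θ k d H Q).ncard : ℝ) ≤ C * (Q : ℝ) ^ ε := by
  classical
  have hn0 : (0 : ℝ) < ((k + NE m k d : ℕ) : ℝ) := by
    have : 0 < k + NE m k d := by omega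
    exact_mod_cast this
  obtain ⟨C, hC⟩ := uniformU (KK0 k (NE m k d)) (k * d + 1) d (div_pos hε hn0)
  have hC0 : 0 ≤ C := by
    have h := hC 1 le_rfl 0 (by rw [totalDegree_zero]; exact Nat.zero_le _)
      (fun m hm => by rw [support_zero] at hm; exact absurd hm (Finset.notMem_empty m)) ∅ (by simp) (by simp)
    simpa using h
  refine ⟨C * 2 ^ ε, by positivity, fun θ H Q hQ hHQ => ?_⟩
  obtain ⟨M, hM⟩ : ∃ M, M = (minT_finite θ k d H Q).toFinset := ⟨_, rfl⟩
  have hMm : ∀ J, J ∈ M ↔ J ∈ MinT θ k d H Q := fun J => by rw [hM, Set.Finite.mem_toFinset]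
  have hMc : (MinT θ k d H Q).ncard = M.card := by
    rw [hM]
    exact Set.ncard_eq_toFinset_card _ _
  have hrel : ∀ J : Finset ℚ, ∃ R : MvPolynomial (Fin m ⊕ Fin k) ℤ, J ∈ M → SmT d H R ∧
      aeval (Sum.elim θ (fun i : Fin k => Complex.Gamma ((tup k J i : ℚ) : ℂ))) R = 0 := by
    intro J
    by_cases hJ : J ∈ M
    · obtain ⟨hc, -, -, hd, -⟩ := (hMm J).1 hJ
      obtain ⟨R, h1, h2⟩ := depT_fin hc hd
      refine ⟨R, fun _ => ⟨h1, ?_⟩⟩
      unfold tup
      rw [dif_pos hc]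
      exact h2
    · exact ⟨0, fun h => absurd h hJ⟩
  choose R hR using hrel
  have hrat : ∀ J ∈ M, ∀ i, Rat01 Q (tup k J i) := fun J hJ i =>
    ((hMm J).1 hJ).2.1 _ ((tup_range ((hMm J).1 hJ).1 _).2 ⟨i, rfl⟩)
  have hxpt : ∀ J ∈ M, ∀ i : Fin k, xp (ptT (rho d (tup k J) (R J))) (Fin.castAdd (NE m k d) i) =
      ((tup k J i : ℚ) : ℂ) := by
    intro J hJ i
    rw [xp_ptT0 fun s => (rho_range (hrat J hJ) ((hR J hJ).1.mono hHQ) s).1]
    simp only
    rw [rho_left]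
  have hinj : ∀ J ∈ M, ∀ J' ∈ M, (fun j : KK0 k (NE m k d) => xp (ptT (rho d (tup k J) (R J))) j) =
      (fun j : KK0 k (NE m k d) => xp (ptT (rho d (tup k J') (R J'))) j) → J = J' := by
    intro J hJ J' hJ' h
    refine tup_injOn ((hMm J).1 hJ).1 ((hMm J').1 hJ').1 (funext fun i => ?_)
    have h1 := congrFun h ⟨Fin.castAdd (NE m k d) i, castAdd_mem _ _ i⟩
    simp only at h1
    rw [hxpt J hJ, hxpt J' hJ'] at h1
    exact_mod_cast h1
  have hinj' : Set.InjOn (fun J => ptT (rho d (tup k J) (R J))) (M : Set (Finset ℚ)) := by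
    intro J hJ J' hJ' h
    refine hinj J hJ J' hJ' ?_
    have h' : ptT (rho d (tup k J) (R J)) = ptT (rho d (tup k J') (R J')) := h
    rw [h']
  have h := hC ((2 * Q) ^ (k + NE m k d)) (Nat.one_le_pow _ _ (by omega)) (Pth d θ) (Pth_deg θ) (Pth_DegC θ)
    (M.image (fun J => ptT (rho d (tup k J) (R J)))) (by
      intro x hx y hy hxy
      rw [Finset.mem_coe, Finset.mem_image] at hx hy
      obtain ⟨J, hJ, rfl⟩ := hx
      obtain ⟨J', hJ', rfl⟩ := hy
      rw [hinj J hJ J' hJ' hxy]) (by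
      intro x hx
      rw [Finset.mem_image] at hx
      obtain ⟨J, hJ, rfl⟩ := hx
      have hm := (hMm J).1 hJ
      refine ⟨admU_rho (hrat J hJ) (tup_injective hm.1) (fun i => (tup_range hm.1 _).2 ⟨i, rfl⟩)
        hm.2.2.1 ((hR J hJ).1.mono hHQ), qT_le fun s => (rho_range (hrat J hJ) ((hR J hJ).1.mono hHQ) s).2.2, ?_⟩
      exact zrU_of_min hHQ (hrat J hJ) (hR J hJ).1 (hR J hJ).2 (fun J' hJ' => not_free hm J' hJ'))
  rw [Finset.card_image_of_injOn hinj'] at h
  rw [hMc]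
  refine h.trans (le_of_eq ?_)
  have hQ0 : (0 : ℝ) ≤ Q := Nat.cast_nonneg Q
  have h2Q : (0 : ℝ) ≤ 2 * Q := by positivity
  rw [Nat.cast_pow, Nat.cast_mul, Nat.cast_ofNat, ← Real.rpow_natCast (2 * (Q : ℝ)) (k + NE m k d),
    ← Real.rpow_mul h2Q, mul_div_cancel₀ _ hn0.ne', Real.mul_rpow (by norm_num) hQ0]
  ring

end Pool.Agent.Helper49.AXU
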