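import Pool.Agent.Helper49.AXU.U16

/-! # AXU-U17: the counting theorems -/

namespace Pool.Agent.Helper49.AXU

open MvPolynomial Pool.Agent.Helper94.AXG Pool.Agent.Helper49.AXQ

/-- dependent sets of `k` numbers without a matching of degree `≤ d` -/
def AllT {m : ℕ} (θ : Fin m → ℂ) (k d H Q : ℕ) : Set (Finset ℚ) :=
  {J : Finset ℚ | J.card = k ∧ (∀ r ∈ J, Rat01 Q r) ∧ NR d J id ∧ DepT θ d H J}

theorem allT_finite {m : ℕ} (θ : Fin m → ℂ) (k d H Q : ℕ) : (AllT θ k d H Q).Finite :=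
  finite_of_rat (Q := Q) fun _ hJ => hJ.2.1

/-- the number of minimal dependent sets -/
theorem count_minT (k m d : ℕ) {ε : ℝ} (hε : 0 < ε) : ∃ C : ℝ, 0 ≤ C ∧
    ∀ (θ : Fin m → ℂ) (H Q : ℕ), 1 ≤ Q → H ≤ Q → ((MinT θ k d H Q).ncard : ℝ) ≤ C * (Q : ℝ) ^ ε := by
  rcases Nat.eq_zero_or_pos k with hk | hk
  · subst hk
    refine ⟨1, zero_le_one, fun θ H Q hQ _ => ?_⟩
    have h1 : MinT θ 0 d H Q ⊆ {∅} := fun J hJ => Finset.card_eq_zero.1 hJ.1
    have h2 : (MinT θ 0 d H Q).ncard ≤ 1 := by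
      have h3 := Set.ncard_le_ncard h1 (Set.finite_singleton _)
      rwa [Set.ncard_singleton] at h3
    have h4 : (1 : ℝ) ≤ (Q : ℝ) ^ ε := Real.one_le_rpow (by exact_mod_cast hQ) hε.le
    have h5 : ((MinT θ 0 d H Q).ncard : ℝ) ≤ 1 := by exact_mod_cast h2
    linarith
  · exact count_minT_pos hk m d hε

theorem exists_minT' {m d H : ℕ} {θ : Fin m → ℂ} {J : Finset ℚ} (h : DepT θ d H J) :
    ∃ J', J' ⊆ J ∧ DepT θ d H J' ∧ ∀ J'', J'' ⊂ J' → ¬ DepT θ d H J'' := by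
  classical
  induction hn : J.card using Nat.strong_induction_on generalizing J with
  | _ n ih =>
  by_cases hc : ∃ J'', J'' ⊂ J ∧ DepT θ d H J''
  · obtain ⟨J'', h1, h2⟩ := hc
    obtain ⟨J', h3, h4, h5⟩ := ih J''.card (by rw [← hn]; exact Finset.card_lt_card h1) h2 rfl
    exact ⟨J', h3.trans h1.1, h4, h5⟩
  · push Not at hc
    exact ⟨J, Finset.Subset.refl J, h, hc⟩

theorem exists_minT {m k d H Q : ℕ} {θ : Fin m → ℂ} (h0 : ¬ DepT θ d H ∅) {J : Finset ℚ}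
    (hJ : J ∈ AllT θ k d H Q) :
    ∃ J', J' ⊆ J ∧ 1 ≤ J'.card ∧ J'.card ≤ k ∧ J' ∈ MinT θ J'.card d H Q := by
  obtain ⟨h1, h2, h3, h4⟩ := hJ
  obtain ⟨J', h5, h6, h7⟩ := exists_minT' h4
  refine ⟨J', h5, ?_, ?_, rfl, fun r hr => h2 r (h5 hr), h3.mono h5, h6, h7⟩
  · rw [Nat.one_le_iff_ne_zero, Ne, Finset.card_eq_zero]
    intro h
    rw [h] at h6
    exact h0 h6
  · rw [← h1]
    exact Finset.card_le_card h5

/-- from minimal dependent sets to dependent sets -/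
theorem allT_of_min {m k d H Q : ℕ} {θ : Fin m → ℂ} {C : ℕ → ℝ} {ε : ℝ}
    (hC : ∀ j, ((MinT θ j d H Q).ncard : ℝ) ≤ C j * (Q : ℝ) ^ ε) (hC0 : ∀ j, 0 ≤ C j)
    (hQ : 1 ≤ Q) (h0 : ¬ DepT θ d H ∅) : ((AllT θ k d H Q).ncard : ℝ) ≤
      (∑ j ∈ Finset.Icc 1 k, C j * 4 ^ (k - 1)) * (Q : ℝ) ^ (2 * ((k : ℝ) - 1) + ε) := by
  classical
  have hQ' : (1 : ℝ) ≤ Q := by exact_mod_cast hQ
  have hQ0 : (0 : ℝ) < Q := by linarith
  obtain ⟨A, hA⟩ : ∃ A, A = (allT_finite θ k d H Q).toFinset := ⟨_, rfl⟩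
  obtain ⟨M, hM⟩ : ∃ M : ℕ → Finset (Finset ℚ), M = fun j => (minT_finite θ j d H Q).toFinset := ⟨_, rfl⟩
  have hAc : (AllT θ k d H Q).ncard = A.card := by
    rw [hA]
    exact Set.ncard_eq_toFinset_card _ _
  have hMc : ∀ j, (MinT θ j d H Q).ncard = (M j).card := by
    intro j
    rw [hM]
    exact Set.ncard_eq_toFinset_card _ _
  have hsub : A ⊆ (Finset.Icc 1 k).biUnion (fun j =>
      (M j ×ˢ (ratSet Q).powersetCard (k - j)).image (fun p => p.1 ∪ p.2)) := by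
    intro J hJ
    rw [hA, Set.Finite.mem_toFinset] at hJ
    obtain ⟨J', h1, h2, h3, h4⟩ := exists_minT h0 hJ
    rw [Finset.mem_biUnion]
    refine ⟨J'.card, Finset.mem_Icc.2 ⟨h2, h3⟩, ?_⟩
    rw [Finset.mem_image]
    refine ⟨(J', J \ J'), ?_, Finset.union_sdiff_of_subset h1⟩
    rw [Finset.mem_product, Finset.mem_powersetCard]
    refine ⟨?_, fun r hr => mem_ratSet (hJ.2.1 r (Finset.mem_sdiff.1 hr).1), ?_⟩
    · rw [hM]
      exact (Set.Finite.mem_toFinset _).2 h4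
    · rw [Finset.card_sdiff_of_subset h1, hJ.1]
  have hone : ∀ j ∈ Finset.Icc 1 k,
      (((M j ×ˢ (ratSet Q).powersetCard (k - j)).image (fun p => p.1 ∪ p.2)).card : ℝ) ≤
        (C j * 4 ^ (k - 1)) * (Q : ℝ) ^ (2 * ((k : ℝ) - 1) + ε) := by
    intro j hj
    obtain ⟨hj1, hj2⟩ := Finset.mem_Icc.1 hj
    have h1 : (((M j ×ˢ (ratSet Q).powersetCard (k - j)).image (fun p => p.1 ∪ p.2)).card : ℝ) ≤
        ((M j).card : ℝ) * ((4 * Q ^ 2 : ℕ) : ℝ) ^ (k - j) := by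
      have h2 := Finset.card_image_le (s := M j ×ˢ (ratSet Q).powersetCard (k - j))
        (f := fun p => p.1 ∪ p.2)
      rw [Finset.card_product, Finset.card_powersetCard] at h2
      have h3 : ((ratSet Q).card).choose (k - j) ≤ (4 * Q ^ 2) ^ (k - j) :=
        (Nat.choose_le_pow _ _).trans (Nat.pow_le_pow_left (card_ratSet hQ) _)
      have h4 := h2.trans (Nat.mul_le_mul_left _ h3)
      exact_mod_cast h4
    have h5 : ((4 * Q ^ 2 : ℕ) : ℝ) ^ (k - j) ≤ 4 ^ (k - 1) * (Q : ℝ) ^ (2 * ((k : ℝ) - 1)) := by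
      have h6 : (1 : ℝ) ≤ ((4 * Q ^ 2 : ℕ) : ℝ) := by
        have : 1 ≤ 4 * Q ^ 2 := by nlinarith
        exact_mod_cast this
      refine (pow_le_pow_right₀ h6 (Nat.sub_le_sub_left hj1 k)).trans (le_of_eq ?_)
      have h7 : 2 * ((k : ℝ) - 1) = ((2 * (k - 1) : ℕ) : ℝ) := by
        rw [Nat.cast_mul, Nat.cast_sub (by omega)]
        push_cast
        ring
      rw [h7, Real.rpow_natCast]
      push_cast
      rw [mul_pow, ← pow_mul]
    have h8 : ((M j).card : ℝ) ≤ C j * (Q : ℝ) ^ ε := by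
      rw [← hMc]
      exact hC j
    refine h1.trans ?_
    calc ((M j).card : ℝ) * ((4 * Q ^ 2 : ℕ) : ℝ) ^ (k - j)
        ≤ (C j * (Q : ℝ) ^ ε) * (4 ^ (k - 1) * (Q : ℝ) ^ (2 * ((k : ℝ) - 1))) :=
          mul_le_mul h8 h5 (by positivity) (mul_nonneg (hC0 j) (by positivity))
      _ = _ := by
        rw [Real.rpow_add hQ0]
        ring
  rw [hAc]
  have h1 : (A.card : ℝ) ≤ ∑ j ∈ Finset.Icc 1 k,
      (((M j ×ˢ (ratSet Q).powersetCard (k - j)).image (fun p => p.1 ∪ p.2)).card : ℝ) := by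
    have h2 := (Finset.card_le_card hsub).trans Finset.card_biUnion_le
    exact_mod_cast h2
  refine h1.trans ((Finset.sum_le_sum hone).trans (le_of_eq ?_))
  rw [← Finset.sum_mul]

end Pool.Agent.Helper49.AXU
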