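import Pool.Agent.Helper49.AXU.U17
import Pool.Agent.Helper94.AXG.Y1

/-!
# AXU-U18: the final form
-/

namespace Pool.Agent.Helper49.AXU

open MvPolynomial Pool.Agent.Helper94.AXG Pool.Agent.Helper49.AXQ

theorem rat01_mono {Q Q' : ℕ} {r : ℚ} (h : Rat01 Q r) (hQ : Q ≤ Q') : Rat01 Q' r :=
  ⟨h.1, h.2.1, h.2.2.trans hQ⟩

private theorem u18_pow {Q B : ℕ} (hB : 1 ≤ B) (ε : ℝ) :
    ((Q ^ B : ℕ) : ℝ) ^ (ε / B) = (Q : ℝ) ^ ε := by
  have hB' : (B : ℝ) ≠ 0 := by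
    have : B ≠ 0 := by omega
    exact_mod_cast this
  rw [Nat.cast_pow, ← Real.rpow_natCast, ← Real.rpow_mul (Nat.cast_nonneg Q), mul_div_cancel₀ _ hB']

/-- the number of minimal dependent sets, heights up to a power of `Q` -/
theorem count_minA (k m d A : ℕ) {ε : ℝ} (hε : 0 < ε) : ∃ C : ℝ, 0 ≤ C ∧
    ∀ (θ : Fin m → ℂ) (H Q : ℕ), 1 ≤ Q → H ≤ Q ^ A →
      ((MinT θ k d H Q).ncard : ℝ) ≤ C * (Q : ℝ) ^ ε := by
  obtain ⟨B, hB1, hB2⟩ : ∃ B, 1 ≤ B ∧ A ≤ B := ⟨max A 1, le_max_right _ _, le_max_left _ _⟩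
  have hB0 : (0 : ℝ) < B := by exact_mod_cast hB1
  obtain ⟨C, hC0, hC⟩ := count_minT k m d (div_pos hε hB0)
  refine ⟨C, hC0, fun θ H Q hQ hH => ?_⟩
  have h1 : MinT θ k d H Q ⊆ MinT θ k d H (Q ^ B) := fun J hJ =>
    ⟨hJ.1, fun r hr => rat01_mono (hJ.2.1 r hr) (Nat.le_self_pow (by omega) Q), hJ.2.2⟩
  have h2 := Set.ncard_le_ncard h1 (minT_finite _ _ _ _ _)
  have h3 := hC θ H (Q ^ B) (Nat.one_le_pow _ _ hQ) (hH.trans (Nat.pow_le_pow_right hQ hB2))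
  rw [u18_pow hB1] at h3
  exact (by exact_mod_cast h2 : ((MinT θ k d H Q).ncard : ℝ) ≤ (MinT θ k d H (Q ^ B)).ncard).trans h3

/-- the number of dependent sets, heights up to a power of `Q` -/
theorem count_allA (k m d A : ℕ) {ε : ℝ} (hε : 0 < ε) : ∃ C : ℝ, 0 ≤ C ∧
    ∀ (θ : Fin m → ℂ) (H Q : ℕ), 1 ≤ Q → H ≤ Q ^ A → ¬ DepT θ d H ∅ →
      ((AllT θ k d H Q).ncard : ℝ) ≤ C * (Q : ℝ) ^ (2 * ((k : ℝ) - 1) + ε) := by
  classical
  choose C hC0 hC using fun j : ℕ => count_minA j m d A hε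
  refine ⟨∑ j ∈ Finset.Icc 1 k, C j * 4 ^ (k - 1),
    Finset.sum_nonneg fun j _ => mul_nonneg (hC0 j) (by positivity), fun θ H Q hQ hHQ h0 => ?_⟩
  exact allT_of_min (fun j => hC j θ H Q hQ hHQ) hC0 hQ h0

/-- `π` is transcendental -/
theorem not_dep_pi (d H : ℕ) : ¬ DepT (fun _ : Fin 1 => (Real.pi : ℂ)) d H ∅ := by
  rintro ⟨P, hP, -, -, h0⟩
  obtain ⟨f, hf⟩ : ∃ f : Fin 1 ⊕ ↥(∅ : Finset ℚ) → PUnit.{1}, f = fun _ => PUnit.unit := ⟨_, rfl⟩
  have hinj : Function.Injective f := by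
    intro a b _
    rcases a with a | a
    · rcases b with b | b
      · rw [Subsingleton.elim a b]
      · exact absurd b.2 (Finset.notMem_empty _)
    · exact absurd a.2 (Finset.notMem_empty _)
  have h1 : pUnitAlgEquiv ℤ (rename f P) ≠ 0 := by
    intro h
    apply hP
    have h2 : rename f P = 0 := by
      apply (pUnitAlgEquiv ℤ).injective
      rw [h, map_zero]
    exact rename_injective f hinj (by rw [h2, map_zero])
  refine pi_transc _ h1 ?_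
  have e : ((Polynomial.aeval (Real.pi : ℂ)).comp ((pUnitAlgEquiv ℤ).toAlgHom.comp (rename f))) =
      aeval (valsT (fun _ : Fin 1 => (Real.pi : ℂ)) ∅) := by
    apply algHom_ext
    intro o
    rcases o with o | o
    · simp [valsT]
    · exact absurd o.2 (Finset.notMem_empty _)
  have h2 := congrArg (fun g => g P) e
  simp only [AlgHom.comp_apply] at h2
  rw [h0] at h2
  exact h2

end Pool.Agent.Helper49.AXU
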