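import Mathlib

/-! # AXU-U2: decomposition of a polynomial -/

namespace Pool.Agent.Helper49.AXU

open Complex Filter Topology

private theorem u2_prod {k : ℕ} (T : Finset (Fin k)) (m : Fin k →₀ ℕ) :
    ∏ i : T, (MvPolynomial.X (i : Fin k) : MvPolynomial (Fin k) ℂ) ^ m i =
      MvPolynomial.monomial (m.filter (· ∈ T)) 1 := by
  classical
  rw [Finset.prod_coe_sort T (fun i => (MvPolynomial.X i : MvPolynomial (Fin k) ℂ) ^ m i),
    MvPolynomial.monomial_eq, map_one, one_mul,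
    Finsupp.prod_of_support_subset (s := T) _ _ _ (fun i _ => pow_zero _)]
  · refine Finset.prod_congr rfl fun i hi => ?_
    rw [Finsupp.filter_apply_pos _ _ hi]
  · intro i hi
    rw [Finsupp.support_filter, Finset.mem_filter] at hi
    exact hi.2

private theorem u2_mon {k : ℕ} (T : Finset (Fin k)) (m : Fin k →₀ ℕ) (c : ℂ) :
    MvPolynomial.monomial (m.filter (· ∉ T)) c *
      ∏ i : T, (MvPolynomial.X (i : Fin k) : MvPolynomial (Fin k) ℂ) ^ m i =
      MvPolynomial.monomial m c := by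
  classical
  rw [u2_prod, MvPolynomial.monomial_mul, mul_one, add_comm,
    Finsupp.filter_add_filter_not m (· ∈ T)]

/-- the exponents of `P` in the variables `K0` are at most `D`, and of codegree at most `D` -/
def DegC {k : ℕ} (D : ℕ) (K0 : Finset (Fin k)) (P : MvPolynomial (Fin k) ℂ) : Prop :=
  ∀ m ∈ P.support, (∀ i ∈ K0, m i ≤ D) ∧ ∑ i ∈ K0, (D - m i) ≤ D

theorem DegC.mono {k : ℕ} {D : ℕ} {K0 K1 : Finset (Fin k)} {P : MvPolynomial (Fin k) ℂ}
    (h : DegC D K0 P) (hK : K1 ⊆ K0) : DegC D K1 P := fun m hm =>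
  ⟨fun i hi => (h m hm).1 i (hK hi), (Finset.sum_le_sum_of_subset hK).trans (h m hm).2⟩

theorem DegC.congr {k : ℕ} {D : ℕ} {K0 : Finset (Fin k)} {P Q : MvPolynomial (Fin k) ℂ}
    (h : DegC D K0 P) (hQ : ∀ κ ∈ Q.support, ∃ m ∈ P.support, ∀ i ∈ K0, κ i = m i) : DegC D K0 Q := by
  intro κ hκ
  obtain ⟨m, hm, he⟩ := hQ κ hκ
  refine ⟨fun i hi => by rw [he i hi]; exact (h m hm).1 i hi, ?_⟩
  rw [Finset.sum_congr rfl fun i hi => by rw [he i hi]]
  exact (h m hm).2

/-- decomposition of a polynomial by the exponents in `T`, which are at most `D` -/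
theorem split_polyD {k : ℕ} (J T : Finset (Fin k)) (D : ℕ) (P : MvPolynomial (Fin k) ℂ)
    (hv : (P.vars : Set (Fin k)) ⊆ J) (hD : DegC D T P) :
    ∃ Q : (T → Fin (D + 1)) → MvPolynomial (Fin k) ℂ,
      (∀ γ, ((Q γ).vars : Set (Fin k)) ⊆ J \ T) ∧
      (∀ γ, ∀ κ ∈ (Q γ).support, ∃ m ∈ P.support, ∀ i ∉ T, κ i = m i) ∧
      (∀ γ, ¬ (∑ i, (γ i : ℕ) ≤ D) → Q γ = 0) ∧
      P = ∑ γ, Q γ * ∏ i : T, MvPolynomial.X (i : Fin k) ^ (D - (γ i : ℕ)) := by
  classical
  let g : (Fin k →₀ ℕ) → (T → Fin (D + 1)) := fun m i => ⟨D - m i, by omega⟩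
  let Q : (T → Fin (D + 1)) → MvPolynomial (Fin k) ℂ := fun γ =>
    ∑ m ∈ P.support.filter (fun m => g m = γ),
      MvPolynomial.monomial (m.filter (· ∉ T)) (MvPolynomial.coeff m P)
  refine ⟨Q, ?_, ?_, ?_, ?_⟩
  · intro γ i hi
    have h1 := MvPolynomial.vars_sum_subset _ _ (Finset.mem_coe.1 hi)
    rw [Finset.mem_biUnion] at h1
    obtain ⟨m, hm, h2⟩ := h1
    have h3 : i ∈ (m.filter (· ∉ T)).support := by
      by_cases hc : MvPolynomial.coeff m P = 0
      · rw [hc, map_zero, MvPolynomial.vars_0] at h2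
        exact absurd h2 (Finset.notMem_empty i)
      · rwa [MvPolynomial.vars_monomial hc] at h2
    rw [Finsupp.support_filter, Finset.mem_filter] at h3
    have h4 : i ∈ P.vars := (MvPolynomial.mem_vars_iff_mem_support i).2 ⟨m, (Finset.mem_filter.1 hm).1, h3.1⟩
    exact ⟨hv (Finset.mem_coe.2 h4), fun h => h3.2 (Finset.mem_coe.1 h)⟩
  · intro γ κ hκ
    have h1 := MvPolynomial.support_sum hκ
    rw [Finset.mem_biUnion] at h1
    obtain ⟨m, hm, h2⟩ := h1
    have h3 := MvPolynomial.support_monomial_subset h2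
    rw [Finset.mem_singleton] at h3
    refine ⟨m, (Finset.mem_filter.1 hm).1, fun i hi => ?_⟩
    rw [h3, Finsupp.filter_apply_pos (fun x => x ∉ T) m hi]
  · intro γ hγ
    refine Finset.sum_eq_zero fun m hm => ?_
    exfalso
    obtain ⟨h1, h2⟩ := Finset.mem_filter.1 hm
    apply hγ
    rw [← h2]
    have h3 := (hD m h1).2
    rw [← Finset.sum_coe_sort T (fun i => D - m i)] at h3
    exact h3
  · have h1 : ∀ γ, Q γ * ∏ i : T, (MvPolynomial.X (i : Fin k) : MvPolynomial (Fin k) ℂ) ^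
        (D - (γ i : ℕ)) = ∑ m ∈ P.support.filter (fun m => g m = γ),
          MvPolynomial.monomial m (MvPolynomial.coeff m P) := by
      intro γ
      change (∑ m ∈ P.support.filter (fun m => g m = γ),
        MvPolynomial.monomial (m.filter (· ∉ T)) (MvPolynomial.coeff m P)) * _ = _
      rw [Finset.sum_mul]
      refine Finset.sum_congr rfl fun m hm => ?_
      rw [Finset.mem_filter] at hm
      rw [← u2_mon T m]
      congr 1
      refine Finset.prod_congr rfl fun i _ => ?_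
      have h2 : (γ i : ℕ) = D - m i := by
        rw [← hm.2]
      have h3 := (hD m hm.1).1 i i.2
      rw [h2]
      congr 1
      omega
    rw [Finset.sum_congr rfl fun γ _ => h1 γ, Finset.sum_fiberwise,
      MvPolynomial.support_sum_monomial_coeff]

end Pool.Agent.Helper49.AXU
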