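import Pool.Agent.Helper49.AXU.U1
import Pool.Agent.Helper49.AXU.U2
import Pool.Agent.Helper94.AXG.E6D

/-! # AXU-U3: the Ax-Lindemann theorem for mixed polynomials -/

namespace Pool.Agent.Helper49.AXU

open Complex Filter Topology Pool.Agent.Helper94.AXG Pool.Agent.Helper49.AXQ

private lemma u3_bdd {h : ℂ → ℂ} (hh : AnalyticAt ℂ h 0) :
    ∃ b : ℝ, ∀ᶠ s in 𝓝[≠] (0 : ℂ), ‖h s‖ ≤ b := by
  refine ⟨‖h 0‖ + 1, ?_⟩
  have h1 : Tendsto (fun s => ‖h s‖) (𝓝 (0 : ℂ)) (𝓝 ‖h 0‖) := hh.continuousAt.norm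
  have h2 : ∀ᶠ s in 𝓝 (0 : ℂ), ‖h s‖ < ‖h 0‖ + 1 := h1.eventually_lt_const (by linarith)
  exact (h2.filter_mono nhdsWithin_le_nhds).mono fun s hs => hs.le

private lemma u3_pt {k : ℕ} (c : Crv k) : ∃ t y, c.Pt t y := by
  obtain ⟨t, ht⟩ := Infinite.exists_notMem_finset c.S
  have h2 : (c.M.map (Polynomial.evalRingHom t)).natDegree = c.M.natDegree :=
    c.monic.natDegree_map _
  have h3 : c.M.natDegree ≠ 0 := by
    intro h
    have h4 : c.M = 1 := (Polynomial.Monic.natDegree_eq_zero c.monic).1 h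
    exact c.irr.not_isUnit (by rw [h4]; exact isUnit_one)
  obtain ⟨y, hy⟩ := IsAlgClosed.exists_root (c.M.map (Polynomial.evalRingHom t)) (by
    intro h
    apply h3
    rw [← h2]
    exact Polynomial.natDegree_eq_of_degree_eq_some h)
  exact ⟨t, y, ht, hy⟩

/-- the Ax-Lindemann theorem for mixed polynomials: if the polynomial `P` in `U(X_i)`, `i ∈ J`, and `X_i`,
`i ∉ K0`, vanishes on the curve, then all its coefficients (as a polynomial in the `U(X_i)`) vanish on the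
curve -/
theorem gamma_indepU {k : ℕ} (c : Crv k) (K0 J : Finset (Fin k)) (hJK : J ⊆ K0)
    (hnc : ∀ j ∈ J, ¬ ∃ b : ℂ, ∀ t y, c.Pt t y → c.X j t y = b)
    (q : ℕ) (hq : 1 ≤ q) (a : Fin k → ℤ) (D : ℕ) (hnd : NDD D J q a)
    (H2 : ∀ i ∈ J, ∀ j ∈ J, ∀ (M M' : ℤ) (b : ℂ), M ≠ 0 → M' ≠ 0 →
      (∀ t y, c.Pt t y → M * c.X i t y - M' * c.X j t y = b) →
      ((M * a i - M' * a j : ℤ) : ℂ) / q = b)
    (P : MvPolynomial (Fin k) ℂ) (hv : ∀ i ∈ P.vars, i ∈ K0 → i ∈ J)
    (hdeg : DegC D J P)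
    (hrel : ∀ t y, c.Pt t y → MvPolynomial.eval (fun j => VV K0 j (c.X j t y)) P = 0) :
    ∀ t y, c.Pt t y → MvPolynomial.aeval (fun i => if i ∈ J then
      (MvPolynomial.X i : MvPolynomial (Fin k) ℂ) else MvPolynomial.C (c.X i t y)) P = 0 := by
  classical
  induction hn : J.card using Nat.strong_induction_on generalizing J P with
  | _ n ih =>
  subst hn
  rcases J.eq_empty_or_nonempty with hJ | ⟨i, hi⟩
  · subst hJ
    intro t y hp
    have h3 := hrel t y hp
    have e1 : MvPolynomial.eval (fun j => VV K0 j (c.X j t y)) P =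
        MvPolynomial.eval (fun j => c.X j t y) P := by
      refine MvPolynomial.hom_congr_vars (by ext; simp) (fun i h1 _ => ?_) rfl
      rw [MvPolynomial.eval_X, MvPolynomial.eval_X]
      exact VV_not (fun h2 => absurd (hv i h1 h2) (Finset.notMem_empty i)) _
    rw [e1] at h3
    have e2 : MvPolynomial.aeval (fun i => if i ∈ (∅ : Finset (Fin k)) then
        (MvPolynomial.X i : MvPolynomial (Fin k) ℂ) else MvPolynomial.C (c.X i t y)) P =
        MvPolynomial.C (MvPolynomial.eval (fun j => c.X j t y) P) := by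
      have e3 : (MvPolynomial.aeval (fun i => if i ∈ (∅ : Finset (Fin k)) then
        (MvPolynomial.X i : MvPolynomial (Fin k) ℂ) else MvPolynomial.C (c.X i t y))).toRingHom =
        (MvPolynomial.C).comp (MvPolynomial.eval (fun j => c.X j t y)) := by
        apply MvPolynomial.ringHom_ext
        · intro r
          simp
        · intro i
          simp
      exact congrArg (fun f => f P) e3
    rw [e2, h3, map_zero]
  · obtain ⟨e, N, g, hP⟩ := exists_Puis c
    obtain ⟨l, K₀, h₀, hK₀, hpl₀⟩ := exists_pole c hP i (hnc i hi)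
    have hex : ∀ j : Fin k, ∃ o : ℕ,
        ((1 ≤ o ∧ ∃ h : ℂ → ℂ, Pl o (fun s => c.X j (1 / s ^ e) (g l s / s ^ N)) h) ∨
        (o = 0 ∧ ∃ h : ℂ → ℂ, AnalyticAt ℂ h 0 ∧
          ∀ᶠ s in 𝓝[≠] (0 : ℂ), c.X j (1 / s ^ e) (g l s / s ^ N) = h s)) ∧
        (j = i → 1 ≤ o) := by
      intro j
      by_cases hji : j = i
      · subst hji
        exact ⟨K₀, Or.inl ⟨hK₀, h₀, hpl₀⟩, fun _ => hK₀⟩
      · rcases X_form c hP j l with ⟨K, hK, h⟩ | h
        · exact ⟨K, Or.inl ⟨hK, h⟩, fun _ => hK⟩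
        · exact ⟨0, Or.inr ⟨rfl, h⟩, fun h => absurd h hji⟩
    choose o ho hoi using hex
    obtain ⟨K, hKdef⟩ : ∃ K, K = J.sup o := ⟨_, rfl⟩
    have hle : ∀ j ∈ J, o j ≤ K := fun j hj => by
      rw [hKdef]
      exact Finset.le_sup hj
    have hK : 1 ≤ K := (hoi i rfl).trans (hle i hi)
    obtain ⟨m, hm, hmK⟩ := Finset.exists_mem_eq_sup J ⟨i, hi⟩ o
    obtain ⟨T, hTdef⟩ : ∃ T, T = J.filter (fun j => o j = K) := ⟨_, rfl⟩
    have hTJ : T ⊆ J := by
      rw [hTdef]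
      exact Finset.filter_subset _ _
    have hmT : m ∈ T := by
      rw [hTdef, Finset.mem_filter]
      exact ⟨hm, by rw [hKdef, hmK]⟩
    have hT : ∀ j ∈ T, ∃ h : ℂ → ℂ, Pl K (fun s => c.X j (1 / s ^ e) (g l s / s ^ N)) h := by
      intro j hj
      rw [hTdef, Finset.mem_filter] at hj
      rcases ho j with ⟨_, h2⟩ | ⟨h1, _⟩
      · rw [hj.2] at h2
        exact h2
      · omega
    have hlow : ∀ j ∈ J, j ∉ T → ∃ N' : ℕ, N' < K ∧ ∃ b : ℝ, ∀ᶠ s in 𝓝[≠] (0 : ℂ),
        ‖c.X j (1 / s ^ e) (g l s / s ^ N)‖ ≤ b / ‖s‖ ^ N' := by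
      intro j hj hjT
      have hne : o j ≠ K := by
        intro h
        apply hjT
        rw [hTdef, Finset.mem_filter]
        exact ⟨hj, h⟩
      have hlt : o j < K := lt_of_le_of_ne (hle j hj) hne
      refine ⟨o j, hlt, ?_⟩
      rcases ho j with ⟨_, h, hh, _, he⟩ | ⟨h0, h, hh, he⟩
      · obtain ⟨b, hb⟩ := u3_bdd hh
        refine ⟨b, ?_⟩
        filter_upwards [hb, he] with s hs hs'
        have hs'' : c.X j (1 / s ^ e) (g l s / s ^ N) = h s / s ^ o j := hs'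
        rw [hs'', norm_div, norm_pow]
        gcongr
      · obtain ⟨b, hb⟩ := u3_bdd hh
        refine ⟨b, ?_⟩
        filter_upwards [hb, he] with s hs hs'
        rw [hs', h0, pow_zero, div_one]
        exact hs
    obtain ⟨J', hJ'⟩ : ∃ J' : Finset (Fin k), J' = Finset.univ.filter (fun i => i ∈ K0 → i ∈ J) :=
      ⟨_, rfl⟩
    have hmJ' : ∀ i, i ∈ J' ↔ (i ∈ K0 → i ∈ J) := fun i => by rw [hJ']; simp
    obtain ⟨Q, hQv, hQs, hQ0, hQ⟩ := split_polyD J' T D P
      (fun i hi => (hmJ' i).2 (hv i hi)) (hdeg.mono hTJ)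
    have hQv' : ∀ γ, ∀ i ∈ (Q γ).vars, i ∈ K0 → i ∈ J ∧ i ∉ T := by
      intro γ i hi hiK
      have h1 := hQv γ (Finset.mem_coe.2 hi)
      exact ⟨(hmJ' i).1 h1.1 hiK, h1.2⟩
    have hel := elim_stepU c hP l K0 J T hTJ hJK K hK hT hlow q hq a D hnd H2 Q hQv' hQ0 (by
      intro t y hp
      have h1 := hrel t y hp
      rw [hQ, map_sum] at h1
      rw [← h1]
      refine Finset.sum_congr rfl fun γ _ => ?_
      rw [map_mul, map_prod]
      congr 1
      refine Finset.prod_congr rfl fun j _ => ?_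
      rw [map_pow, MvPolynomial.eval_X, VV_mem (hJK (hTJ j.2))])
    have hcard : (J \ T).card < J.card := by
      apply Finset.card_lt_card
      rw [Finset.ssubset_iff_of_subset Finset.sdiff_subset]
      exact ⟨m, hm, fun h => (Finset.mem_sdiff.1 h).2 hmT⟩
    have hsub : ∀ j ∈ J \ T, j ∈ J := fun j hj => (Finset.mem_sdiff.1 hj).1
    intro t y hp
    rw [hQ, map_sum]
    refine Finset.sum_eq_zero fun γ _ => ?_
    have h1 := ih (J \ T).card hcard (J \ T) (Finset.sdiff_subset.trans hJK)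
      (fun j hj => hnc j (hsub j hj)) (hnd.mono Finset.sdiff_subset)
      (fun j hj j' hj' => H2 j (hsub j hj) j' (hsub j' hj')) (Q γ)
      (fun i hi hiK => Finset.mem_sdiff.2 (hQv' γ i hi hiK))
      ((hdeg.mono Finset.sdiff_subset).congr fun κ hκ => by
        obtain ⟨m', hm', hle'⟩ := hQs γ κ hκ
        exact ⟨m', hm', fun i hi => hle' i (Finset.mem_sdiff.1 hi).2⟩) (hel γ) rfl t y hp
    have h2 : MvPolynomial.aeval (fun i => if i ∈ J then
        (MvPolynomial.X i : MvPolynomial (Fin k) ℂ) else MvPolynomial.C (c.X i t y)) (Q γ) =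
        MvPolynomial.aeval (fun i => if i ∈ J \ T then
          (MvPolynomial.X i : MvPolynomial (Fin k) ℂ) else MvPolynomial.C (c.X i t y)) (Q γ) := by
      have e := MvPolynomial.hom_congr_vars (p₁ := Q γ) (p₂ := Q γ)
        (f₁ := (MvPolynomial.aeval (fun i => if i ∈ J then
          (MvPolynomial.X i : MvPolynomial (Fin k) ℂ) else MvPolynomial.C (c.X i t y))).toRingHom)
        (f₂ := (MvPolynomial.aeval (fun i => if i ∈ J \ T then
          (MvPolynomial.X i : MvPolynomial (Fin k) ℂ) else MvPolynomial.C (c.X i t y))).toRingHom)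
        (by ext r; simp) (fun i h1 _ => ?_) rfl
      · exact e
      · change MvPolynomial.aeval _ (MvPolynomial.X i) = MvPolynomial.aeval _ (MvPolynomial.X i)
        rw [MvPolynomial.aeval_X, MvPolynomial.aeval_X]
        by_cases hiJ : i ∈ J
        · have h3 := (hQv' γ i h1 (hJK hiJ)).2
          rw [if_pos hiJ, if_pos (Finset.mem_sdiff.2 ⟨hiJ, h3⟩)]
        · rw [if_neg hiJ, if_neg (fun h => hiJ (Finset.mem_sdiff.1 h).1)]
    rw [map_mul, h2, h1, zero_mul]

end Pool.Agent.Helper49.AXU
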