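import Pool.Agent.Helper94.AXG.F1

/-! # AXU-U4: a generic line -/

namespace Pool.Agent.Helper49.AXU

open MvPolynomial Pool.Agent.Helper94.AXG

/-- a generic line through `p`, for a countable family of elements with the dichotomy -/
theorem exists_lineU {r k : ℕ} (A : Matrix (Fin r) (Fin k) ℤ) (I : Ideal (MvPolynomial (Fin k) ℂ))
    {ι : Type} [Countable ι] (ψ : ι → MvPolynomial (Fin k) ℂ) (hd : ∀ i, Dich A I (ψ i)) (p : Fin r → ℂ) :
    ∃ v : Fin r → ℂ, ∀ i, (∃ c : ℂ, ψ i - C c ∈ I) ∨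
      ∃ χ : Polynomial (MvPolynomial (Fin r) ℂ), χ.Monic ∧
        (χ.map (phi (R := ℂ) A).toRingHom).eval (ψ i) ∈ I ∧
        ∀ c : ℂ, ∃ t : ℂ, eval (fun l => p l + t * v l) (χ.eval (C c)) ≠ 0 := by
  classical
  let Q : Type := {q : ι // ¬ ∃ c : ℂ, ψ q - C c ∈ I}
  have hQ : ∀ q : Q, ∃ χ : Polynomial (MvPolynomial (Fin r) ℂ), χ.Monic ∧
      (χ.map (phi (R := ℂ) A).toRingHom).eval (ψ q.1) ∈ I ∧
        ∀ c : ℂ, χ.eval (C c) ≠ 0 := fun q => (hd _).resolve_left q.2
  choose χ h1 h2 h3 using hQ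
  have hc : ∀ q : Q, Countable {c : ℂ // ((χ q).map (eval p)).IsRoot c} := fun q =>
    (Polynomial.finite_setOfPred_isRoot ((h1 q).map (eval p)).ne_zero).countable
  have hQc : Countable Q := inferInstanceAs (Countable {q : ι // ¬ ∃ c : ℂ, ψ q - C c ∈ I})
  have hB : Countable (Σ q : Q, {c : ℂ // ((χ q).map (eval p)).IsRoot c}) := inferInstance
  obtain ⟨w, hw⟩ := exists_generic
    (fun b : Σ q : Q, {c : ℂ // ((χ q).map (eval p)).IsRoot c} => (χ b.1).eval (C b.2.1))
    (fun b => h3 b.1 b.2.1)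
  refine ⟨fun l => w l - p l, fun i => ?_⟩
  by_cases hcase : ∃ c : ℂ, ψ i - C c ∈ I
  · exact Or.inl hcase
  · right
    let q : Q := ⟨i, hcase⟩
    refine ⟨χ q, h1 q, h2 q, fun c => ?_⟩
    by_cases hr : ((χ q).map (eval p)).IsRoot c
    · refine ⟨1, ?_⟩
      have e : (fun l => p l + 1 * (w l - p l)) = w := by
        funext l
        ring
      rw [e]
      exact hw ⟨q, c, hr⟩
    · refine ⟨0, ?_⟩
      have e : (fun l => p l + 0 * (w l - p l)) = p := by
        funext l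
        ring
      rw [e]
      intro h0
      apply hr
      rw [Polynomial.IsRoot.def, Polynomial.eval_map]
      have h4 := Polynomial.eval₂_at_apply (p := χ q) (eval p) (C c)
      rw [eval_C] at h4
      rw [h4]
      exact h0

end Pool.Agent.Helper49.AXU
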