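import Pool.Agent.Helper49.AXU.U0

/-! # AXU-U6A: the polynomial with polynomial coefficients -/

namespace Pool.Agent.Helper49.AXU

open MvPolynomial Pool.Agent.Helper94.AXG

/-- the polynomial in `X_i`, `i ∈ J`, with coefficients in the polynomial ring: the variables in `K0 ∖ J` are
replaced by `U(y_i)`, those outside of `K0` are moved to the coefficients -/
noncomputable def PJ {k : ℕ} (K0 J : Finset (Fin k)) (y : Fin k → ℂ) (P : MvPolynomial (Fin k) ℂ) :
    MvPolynomial (Fin k) (MvPolynomial (Fin k) ℂ) :=
  eval₂ (C.comp C) (fun i => if i ∈ J then X i else if i ∈ K0 then C (C (U (y i))) else C (X i)) P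

/-- the total degree of the coefficients of `PJ` -/
theorem PJ_deg {k : ℕ} (K0 J : Finset (Fin k)) (y : Fin k → ℂ) (P : MvPolynomial (Fin k) ℂ)
    (μ : Fin k →₀ ℕ) : (coeff μ (PJ K0 J y P)).totalDegree ≤ P.totalDegree := by
  classical
  -- the property `Dg n F`: all coefficients of `F` have total degree `≤ n`
  have hmul : ∀ (n m : ℕ) (F G : MvPolynomial (Fin k) (MvPolynomial (Fin k) ℂ)),
      (∀ μ, (coeff μ F).totalDegree ≤ n) → (∀ μ, (coeff μ G).totalDegree ≤ m) →
      ∀ μ, (coeff μ (F * G)).totalDegree ≤ n + m := by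
    intro n m F G hF hG μ
    rw [coeff_mul]
    refine (totalDegree_finsetSum _ _).trans (Finset.sup_le fun p _ => ?_)
    exact (totalDegree_mul _ _).trans (Nat.add_le_add (hF _) (hG _))
  have hone : ∀ μ, (coeff μ (1 : MvPolynomial (Fin k) (MvPolynomial (Fin k) ℂ))).totalDegree ≤ 0 := by
    intro μ
    rw [coeff_one]
    split_ifs
    · rw [totalDegree_one]
    · rw [totalDegree_zero]
  have hvar : ∀ i : Fin k, ∀ μ, (coeff μ ((if i ∈ J then X i else if i ∈ K0 then C (C (U (y i)))
      else C (X i)) : MvPolynomial (Fin k) (MvPolynomial (Fin k) ℂ))).totalDegree ≤ 1 := by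
    intro i μ
    split_ifs
    · rw [coeff_X']
      split_ifs
      · rw [totalDegree_one]; exact Nat.zero_le 1
      · rw [totalDegree_zero]; exact Nat.zero_le 1
    · rw [coeff_C]
      split_ifs
      · rw [totalDegree_C]; exact Nat.zero_le 1
      · rw [totalDegree_zero]; exact Nat.zero_le 1
    · rw [coeff_C]
      split_ifs
      · exact (totalDegree_X _).le
      · rw [totalDegree_zero]; exact Nat.zero_le 1
  have hpow : ∀ (i : Fin k) (n : ℕ), ∀ μ, (coeff μ (((if i ∈ J then X i else if i ∈ K0 then
      C (C (U (y i))) else C (X i)) : MvPolynomial (Fin k) (MvPolynomial (Fin k) ℂ)) ^ n)).totalDegree ≤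
        n := by
    intro i n
    induction n with
    | zero => rw [pow_zero]; exact hone
    | succ n ih => rw [pow_succ]; exact hmul n 1 _ _ ih (hvar i)
  have hprod : ∀ (s : Finset (Fin k)) (d : Fin k →₀ ℕ), ∀ μ, (coeff μ (∏ i ∈ s,
      ((if i ∈ J then X i else if i ∈ K0 then C (C (U (y i))) else C (X i)) :
        MvPolynomial (Fin k) (MvPolynomial (Fin k) ℂ)) ^ d i)).totalDegree ≤ ∑ i ∈ s, d i := by
    intro s d
    induction s using Finset.induction_on with
    | empty => rw [Finset.prod_empty, Finset.sum_empty]; exact hone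
    | insert i s hi ih =>
      rw [Finset.prod_insert hi, Finset.sum_insert hi]
      exact hmul _ _ _ _ (hpow i (d i)) ih
  unfold PJ
  rw [eval₂_eq, coeff_sum]
  refine (totalDegree_finsetSum _ _).trans (Finset.sup_le fun d hd => ?_)
  have h1 := hmul 0 _ (C (C (coeff d P))) _ (fun μ => ?_) (hprod d.support d) μ
  · rw [zero_add] at h1
    refine h1.trans ?_
    have h2 := le_totalDegree hd
    exact h2
  · rw [coeff_C]
    split_ifs
    · rw [totalDegree_C]
    · rw [totalDegree_zero]

/-- evaluation of the coefficients -/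
theorem PJ_map {k : ℕ} (K0 J : Finset (Fin k)) (y x : Fin k → ℂ) (P : MvPolynomial (Fin k) ℂ) :
    map (eval x) (PJ K0 J y P) = aeval (fun i => if i ∈ J then (X i : MvPolynomial (Fin k) ℂ) else
      C (if i ∈ K0 then U (y i) else x i)) P := by
  unfold PJ
  have h : (map (eval x)).comp (eval₂Hom (C.comp C) (fun i => if i ∈ J then
      (X i : MvPolynomial (Fin k) (MvPolynomial (Fin k) ℂ)) else if i ∈ K0 then C (C (U (y i))) else
        C (X i))) = (aeval (fun i => if i ∈ J then (X i : MvPolynomial (Fin k) ℂ) else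
      C (if i ∈ K0 then U (y i) else x i))).toRingHom := by
    apply MvPolynomial.ringHom_ext
    · intro r
      simp
    · intro i
      simp only [RingHom.comp_apply, eval₂Hom_X', AlgHom.toRingHom_eq_coe, RingHom.coe_coe, aeval_X]
      split_ifs <;> simp
  exact congrArg (fun f => f P) h

end Pool.Agent.Helper49.AXU
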