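import Mathlib

/-! # AXU-U6B: exponents after a substitution of constants -/

namespace Pool.Agent.Helper49.AXU

open MvPolynomial

theorem supp_subst {k : ℕ} (S : Fin k → Prop) [DecidablePred S] (y : Fin k → ℂ)
    (P : MvPolynomial (Fin k) ℂ) : ∀ κ ∈ (aeval (fun i => if S i then C (y i) else
      (X i : MvPolynomial (Fin k) ℂ)) P).support, ∃ m ∈ P.support, ∀ i, ¬ S i → κ i = m i := by
  classical
  intro κ hκ
  rw [aeval_def, eval₂_eq'] at hκ
  have h1 := support_sum hκ
  rw [Finset.mem_biUnion] at h1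
  obtain ⟨m, hm, h2⟩ := h1
  refine ⟨m, hm, fun i hi => ?_⟩
  have h3 : (algebraMap ℂ (MvPolynomial (Fin k) ℂ)) (coeff m P) *
      ∏ j, (if S j then C (y j) else (X j : MvPolynomial (Fin k) ℂ)) ^ m j =
      monomial (m.filter (fun j => ¬ S j)) (coeff m P * ∏ j, (if S j then y j else 1) ^ m j) := by
    have h4 : ∏ j, (if S j then C (y j) else (X j : MvPolynomial (Fin k) ℂ)) ^ m j =
        C (∏ j, (if S j then y j else 1) ^ m j) *
          ∏ j, (X j : MvPolynomial (Fin k) ℂ) ^ (m.filter (fun j => ¬ S j)) j := by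
      rw [map_prod, ← Finset.prod_mul_distrib]
      refine Finset.prod_congr rfl fun j _ => ?_
      by_cases hS : S j
      · rw [if_pos hS, if_pos hS, map_pow, Finsupp.filter_apply_neg (fun j => ¬ S j) m (not_not.2 hS),
          pow_zero, mul_one]
      · rw [if_neg hS, if_neg hS, Finsupp.filter_apply_pos (fun j => ¬ S j) m hS]
        simp
    rw [h4, monomial_eq, algebraMap_eq, map_mul, mul_assoc, Finsupp.prod_fintype _ _ (fun j => pow_zero _)]
  rw [h3] at h2
  have h5 := support_monomial_subset h2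
  rw [Finset.mem_singleton] at h5
  rw [h5, Finsupp.filter_apply_pos (fun j => ¬ S j) m hi]

end Pool.Agent.Helper49.AXU
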