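import Pool.Agent.Helper49.AXU.U3
import Pool.Agent.Helper49.AXU.U4
import Pool.Agent.Helper49.AXU.U5
import Pool.Agent.Helper49.AXU.U6A
import Pool.Agent.Helper49.AXU.U6B

/-! # AXU-U6: the conclusion at one level -/

namespace Pool.Agent.Helper49.AXU

open MvPolynomial Pool.Agent.Helper94.AXG Pool.Agent.Helper49.AXQ

theorem proj_an {k : ℕ} (i : Fin k) (w : ℂ × (Fin k → ℂ)) :
    AnalyticAt ℂ (fun w : ℂ × (Fin k → ℂ) => w.2 i) w :=
  ((ContinuousLinearMap.proj (R := ℂ) (φ := fun _ : Fin k => ℂ) i).comp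
    (ContinuousLinearMap.snd ℂ ℂ (Fin k → ℂ))).analyticAt w

theorem Vproj_an {k : ℕ} (K0 : Finset (Fin k)) (i : Fin k) (w : ℂ × (Fin k → ℂ)) :
    AnalyticAt ℂ (fun w : ℂ × (Fin k → ℂ) => VV K0 i (w.2 i)) w := by
  change AnalyticAt ℂ (VV K0 i ∘ (fun w : ℂ × (Fin k → ℂ) => w.2 i)) w
  exact AnalyticAt.comp_of_eq ((VV_differentiable K0 i).analyticAt (w.2 i)) (proj_an i w) rfl

theorem poly_an {k : ℕ} (f : MvPolynomial (Fin k) ℂ) (g : ℂ × (Fin k → ℂ) → Fin k → ℂ)
    (w : ℂ × (Fin k → ℂ)) (hg : ∀ i, AnalyticAt ℂ (fun w => g w i) w) :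
    AnalyticAt ℂ (fun w => eval (g w) f) w := by
  have h := AnalyticAt.aeval_mvPolynomial hg f
  simpa [MvPolynomial.coe_aeval_eq_eval] using h

theorem exists_pt {k : ℕ} (c : Crv k) (t : ℂ) (ht : t ∉ c.S) : ∃ y, c.Pt t y := by
  have h2 : (c.M.map (Polynomial.evalRingHom t)).natDegree = c.M.natDegree :=
    c.monic.natDegree_map _
  have h3 : c.M.natDegree ≠ 0 := by
    intro h
    have h4 : c.M = 1 := (Polynomial.Monic.natDegree_eq_zero c.monic).1 h
    exact c.irr.not_isUnit (by rw [h4]; exact isUnit_one)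
  obtain ⟨y, hy⟩ := IsAlgClosed.exists_root (c.M.map (Polynomial.evalRingHom t)) (by
    intro h
    apply h3
    rw [← h2]
    exact Polynomial.natDegree_eq_of_degree_eq_some h)
  exact ⟨y, ht, hy⟩

theorem evalC_eq {r : ℕ} (χ : Polynomial (MvPolynomial (Fin r) ℂ)) (x : Fin r → ℂ) (b : ℂ) :
    (χ.map (eval x)).eval b = eval x (χ.eval (C b)) := by
  have h : (χ.map (eval x)).eval (eval x (C b)) = eval x (χ.eval (C b)) :=
    Polynomial.eval_map_apply (eval x) (C b)
  rwa [eval_C] at h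

open scoped Classical in
/-- the conclusion at one level -/
theorem level_finalU {r k d : ℕ} (A : Matrix (Fin r) (Fin k) ℤ)
    (I : Ideal (MvPolynomial (Fin k) ℂ)) (hint : ∀ i, Intg A I (X i))
    (hd : ∀ (i j : Fin k) (M M' : ℤ), Dich A I (lin2 i j (M : ℂ) (M' : ℂ)))
    (hdd : ∀ ψ : MvPolynomial (Fin k) ℂ, ψ.totalDegree ≤ d → Dich A I ψ)
    {Δ : Set (Fin r → ℂ)} (hΔ : IsOpen Δ) (hne : Δ.Nonempty) (K0 : Finset (Fin k))
    (P : MvPolynomial (Fin k) ℂ) (hP : P.totalDegree ≤ d) (D : ℕ)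
    (hdeg : DegC D K0 P)
    (hpts : ∀ z ∈ Δ, ∃ x : Fin k → ℂ, mv A x = z ∧ (∀ f ∈ I, eval x f = 0) ∧
      eval (fun i => VV K0 i (x i)) P = 0)
    (q : ℕ) (hq : 1 ≤ q) (a : Fin k → ℤ) (hnd : NDD D K0 q a)
    (hpt : ∀ f ∈ I, eval (fun i => (a i : ℂ) / q) f = 0) :
    ∃ J ⊆ K0, (∀ i ∈ K0, i ∉ J → ∃ c : ℂ, (X i : MvPolynomial (Fin k) ℂ) - C c ∈ I) ∧
      aeval (fun i => if i ∈ J then (X i : MvPolynomial (Fin k) ℂ) else
        C (VV K0 i ((a i : ℂ) / q))) P = 0 := by
  obtain ⟨J, hJd⟩ : ∃ J : Finset (Fin k), ∀ i, i ∈ J ↔ i ∈ K0 ∧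
      ¬ ∃ c : ℂ, (X i : MvPolynomial (Fin k) ℂ) - C c ∈ I :=
    ⟨K0.filter (fun i => ¬ ∃ c : ℂ, (X i : MvPolynomial (Fin k) ℂ) - C c ∈ I),
      fun i => by simp⟩
  have hJK : J ⊆ K0 := fun i hi => ((hJd i).1 hi).1
  have hJc : ∀ i, i ∈ K0 → i ∉ J → ∃ c : ℂ, (X i : MvPolynomial (Fin k) ℂ) - C c ∈ I := fun i hK hi => by
    by_contra h
    exact hi ((hJd i).2 ⟨hK, h⟩)
  obtain ⟨y₀, hy₀⟩ : ∃ y₀ : Fin k → ℂ, y₀ = fun i => (a i : ℂ) / q := ⟨_, rfl⟩
  obtain ⟨ψ, hψ⟩ : ∃ ψ : (Fin k × Fin k × ℤ × ℤ) ⊕ (Fin k →₀ ℕ) → MvPolynomial (Fin k) ℂ,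
      ψ = Sum.elim (fun w => lin2 w.1 w.2.1 (w.2.2.1 : ℂ) (w.2.2.2 : ℂ))
        (fun μ => coeff μ (PJ K0 J y₀ P)) := ⟨_, rfl⟩
  have hψd : ∀ w, Dich A I (ψ w) := by
    intro w
    rw [hψ]
    rcases w with w | μ
    · exact hd _ _ _ _
    · exact hdd _ ((PJ_deg K0 J y₀ P μ).trans hP)
  obtain ⟨p, hp⟩ := hne
  obtain ⟨v, hv⟩ := exists_lineU A I ψ hψd p
  obtain ⟨c, hc⟩ := line_curveU A I hint hΔ (fun x => eval (fun i => VV K0 i (x i)) P = 0) hpts p v hp
  have hmv : ∀ t y, c.Pt t y → mv A (fun j => c.X j t y) = fun l => p l + t * v l := by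
    intro t y hty
    funext l
    have h1 := hc (fun w => mv A w.2 l - (p l + w.1 * v l)) (fun w => by
      refine AnalyticAt.sub ?_ ?_
      · refine Finset.analyticAt_fun_sum _ fun i _ => ?_
        exact analyticAt_const.mul (proj_an i w)
      · exact analyticAt_const.add (analyticAt_fst.mul analyticAt_const))
      (fun t x h _ _ => by
        have h2 := congrFun h l
        change mv A x l - (p l + t * v l) = 0
        rw [h2, sub_self]) t y hty
    exact sub_eq_zero.1 h1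
  have hI : ∀ t y, c.Pt t y → ∀ f ∈ I, eval (fun j => c.X j t y) f = 0 := by
    intro t y hty f hf
    exact hc (fun w => eval w.2 f) (fun w => poly_an f (fun w => w.2) w (fun i => proj_an i w))
      (fun t x _ h _ => h f hf) t y hty
  have hPc : ∀ t y, c.Pt t y → eval (fun j => VV K0 j (c.X j t y)) P = 0 := by
    intro t y hty
    exact hc (fun w => eval (fun i => VV K0 i (w.2 i)) P)
      (fun w => poly_an P (fun w i => VV K0 i (w.2 i)) w (fun i => Vproj_an K0 i w))
      (fun t x _ _ h => h) t y hty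
  -- an element of the family which is constant on the curve is constant modulo `I`
  have hstar : ∀ w (b : ℂ), (∀ t y, c.Pt t y → eval (fun j => c.X j t y) (ψ w) = b) →
      ψ w - C b ∈ I := by
    intro w b hb
    rcases hv w with ⟨c', hc'⟩ | ⟨χ, hχ, hχI, hχc⟩
    · obtain ⟨t, ht⟩ := Infinite.exists_notMem_finset c.S
      obtain ⟨y, hty⟩ := exists_pt c t ht
      have h1 := hI t y hty _ hc'
      rw [map_sub, eval_C, hb t y hty, sub_eq_zero] at h1
      rwa [← h1] at hc'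
    · exfalso
      have h1 : ∀ t, t ∉ c.S → eval (fun l => p l + t * v l) (χ.eval (C b)) = 0 := by
        intro t ht
        obtain ⟨y, hty⟩ := exists_pt c t ht
        have h2 := hI t y hty _ hχI
        rw [eval_chi, hmv t y hty, hb t y hty] at h2
        rw [← evalC_eq]
        exact h2
      obtain ⟨t, ht⟩ := hχc b
      exact ht (line_zero _ p v c.S h1 t)
  have hlin : ∀ (i j : Fin k) (M M' : ℤ) (x : Fin k → ℂ),
      eval x (ψ (Sum.inl (i, j, M, M'))) = M * x i - M' * x j := by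
    intro i j M M' x
    rw [hψ]
    simp only [Sum.elim_inl, lin2, map_sub, map_mul, eval_C, eval_X]
  have hnotJ : ∀ i, i ∈ K0 → i ∉ J → ∀ t y, c.Pt t y → c.X i t y = (a i : ℂ) / q := by
    intro i hK hi t y hty
    obtain ⟨b, hb⟩ := hJc i hK hi
    have h1 := hI t y hty _ hb
    have h2 := hpt _ hb
    rw [map_sub, eval_X, eval_C, sub_eq_zero] at h1 h2
    rw [h1, h2]
  refine ⟨J, hJK, hJc, ?_⟩
  -- the polynomial with the variables in `K0 ∖ J` replaced
  obtain ⟨P1, hP1⟩ : ∃ P1 : MvPolynomial (Fin k) ℂ, P1 = aeval (fun i => if i ∈ K0 ∧ i ∉ J then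
      C (U (y₀ i)) else (X i : MvPolynomial (Fin k) ℂ)) P := ⟨_, rfl⟩
  have hv1 : ∀ i ∈ P1.vars, i ∈ K0 → i ∈ J := by
    intro i hi hiK
    have h1 : P1 ∈ supported ℂ ({i | i ∈ K0 → i ∈ J} : Set (Fin k)) := by
      have h2 : ∀ Q : MvPolynomial (Fin k) ℂ, aeval (fun i => if i ∈ K0 ∧ i ∉ J then
          C (U (y₀ i)) else (X i : MvPolynomial (Fin k) ℂ)) Q ∈
            supported ℂ ({i | i ∈ K0 → i ∈ J} : Set (Fin k)) := by
        intro Q
        induction Q using MvPolynomial.induction_on with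
        | C a =>
          rw [aeval_C]
          exact Subalgebra.algebraMap_mem _ _
        | add p q hp hq =>
          rw [map_add]
          exact Subalgebra.add_mem _ hp hq
        | mul_X p j hp =>
          rw [map_mul, aeval_X]
          refine Subalgebra.mul_mem _ hp ?_
          split_ifs with hj
          · exact Subalgebra.algebraMap_mem (supported ℂ ({i | i ∈ K0 → i ∈ J} : Set (Fin k))) _
          · refine X_mem_supported.2 ?_
            change j ∈ K0 → j ∈ J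
            intro h3
            by_contra h4
            exact hj ⟨h3, h4⟩
      rw [hP1]
      exact h2 P
    exact mem_supported.1 h1 (Finset.mem_coe.2 hi) hiK
  have hrel1 : ∀ t y, c.Pt t y → eval (fun j => VV K0 j (c.X j t y)) P1 = 0 := by
    intro t y hty
    rw [← hPc t y hty, hP1]
    have e : ((eval (fun j => VV K0 j (c.X j t y))).comp (aeval (fun i => if i ∈ K0 ∧ i ∉ J then
        C (U (y₀ i)) else (X i : MvPolynomial (Fin k) ℂ))).toRingHom) =
        eval (fun j => VV K0 j (c.X j t y)) := by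
      apply MvPolynomial.ringHom_ext
      · intro r
        simp
      · intro i
        simp only [RingHom.comp_apply, AlgHom.toRingHom_eq_coe, RingHom.coe_coe, aeval_X]
        split_ifs with h
        · rw [eval_C, eval_X, VV_mem h.1, hnotJ i h.1 h.2 t y hty, hy₀]
        · rfl
    exact congrArg (fun f => f P) e
  have hdeg1 : DegC D J P1 := by
    refine (hdeg.mono hJK).congr fun κ hκ => ?_
    rw [hP1] at hκ
    obtain ⟨m, hm, he⟩ := supp_subst (fun i => i ∈ K0 ∧ i ∉ J) (fun i => U (y₀ i)) P κ hκ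
    exact ⟨m, hm, fun i hi => he i fun h => h.2 hi⟩
  have hAL := gamma_indepU c K0 J hJK ?_ q hq a D (hnd.mono hJK) ?_ P1 hv1 hdeg1 hrel1
  · -- the coefficients of `PJ` vanish on the curve
    have hcf : ∀ μ, ∀ t y, c.Pt t y → eval (fun j => c.X j t y) (coeff μ (PJ K0 J y₀ P)) = 0 := by
      intro μ t y hty
      rw [← coeff_map, PJ_map]
      have h1 := hAL t y hty
      rw [hP1] at h1
      have e : ((aeval (fun i => if i ∈ J then (X i : MvPolynomial (Fin k) ℂ) else
          C (c.X i t y)) : MvPolynomial (Fin k) ℂ →ₐ[ℂ] MvPolynomial (Fin k) ℂ).toRingHom.comp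
          ((aeval (fun i => if i ∈ K0 ∧ i ∉ J then
            C (U (y₀ i)) else (X i : MvPolynomial (Fin k) ℂ)) :
              MvPolynomial (Fin k) ℂ →ₐ[ℂ] MvPolynomial (Fin k) ℂ)).toRingHom) =
          ((aeval (fun i => if i ∈ J then (X i : MvPolynomial (Fin k) ℂ) else
            C (if i ∈ K0 then U (y₀ i) else c.X i t y)) :
              MvPolynomial (Fin k) ℂ →ₐ[ℂ] MvPolynomial (Fin k) ℂ)).toRingHom := by
        apply MvPolynomial.ringHom_ext
        · intro r
          simp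
        · intro i
          simp only [RingHom.comp_apply, AlgHom.toRingHom_eq_coe, RingHom.coe_coe, aeval_X]
          by_cases hiJ : i ∈ J
          · rw [if_neg (fun h => h.2 hiJ), if_pos hiJ, aeval_X, if_pos hiJ]
          · by_cases hiK : i ∈ K0
            · rw [if_pos ⟨hiK, hiJ⟩, if_neg hiJ, if_pos hiK, aeval_C]
              rfl
            · rw [if_neg (fun h => hiK h.1), if_neg hiJ, if_neg hiK, aeval_X, if_neg hiJ]
      have e2 := congrArg (fun f => f P) e
      have e3 : aeval (fun i => if i ∈ J then (X i : MvPolynomial (Fin k) ℂ) else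
            C (if i ∈ K0 then U (y₀ i) else c.X i t y)) P = 0 := by
        rw [← h1]
        exact e2.symm
      rw [e3, coeff_zero]
    have hmem : ∀ μ, coeff μ (PJ K0 J y₀ P) ∈ I := by
      intro μ
      have h1 := hstar (Sum.inr μ) 0 (fun t y hty => by
        rw [hψ]
        exact hcf μ t y hty)
      rw [map_zero, sub_zero, hψ] at h1
      exact h1
    have hzero : map (eval y₀) (PJ K0 J y₀ P) = 0 := by
      ext μ
      rw [coeff_map, coeff_zero, hy₀]
      exact hpt _ (hy₀ ▸ hmem μ)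
    rw [PJ_map] at hzero
    rw [← hzero]
    congr 2
    funext i
    by_cases hiJ : i ∈ J
    · rw [if_pos hiJ, if_pos hiJ]
    · rw [if_neg hiJ, if_neg hiJ, hy₀]
      rfl
  · rintro j hj ⟨b, hb⟩
    have h1 := hstar (Sum.inl (j, j, 1, 0)) b (fun t y hty => by
      rw [hlin, Int.cast_one, Int.cast_zero, one_mul, zero_mul, sub_zero]
      exact hb t y hty)
    refine ((hJd j).1 hj).2 ⟨b, ?_⟩
    have h2 : ψ (Sum.inl (j, j, 1, 0)) = (X j : MvPolynomial (Fin k) ℂ) := by
      rw [hψ]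
      simp [lin2]
    rwa [h2] at h1
  · intro i _ j _ M M' b _ _ hb
    have h1 := hstar (Sum.inl (i, j, M, M')) b (fun t y hty => by
      rw [hlin]
      exact hb t y hty)
    have h2 := hpt _ h1
    rw [map_sub, eval_C, hlin, sub_eq_zero] at h2
    rw [← h2]
    push_cast
    ring

end Pool.Agent.Helper49.AXU
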