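import Pool.Agent.Helper49.AXQ.D3C
import Pool.Agent.Helper94.AXG.C11
import Pool.Agent.Helper94.AXG.D2

/-!
# AXU-V0: matchings with bounded coefficients
-/

namespace Pool.Agent.Helper49.AXU

open Complex Filter Topology Pool.Agent.Helper94.AXG Pool.Agent.Helper49.AXQ

open scoped Classical in
/-- no matching of degree `≤ D` -/
def NDD {ι : Type} (D : ℕ) (J : Finset ι) (q : ℕ) (a : ι → ℤ) : Prop :=
  ∀ (C : Finset ι), C ⊆ J → ∀ (N : ι → ℤ) (b : ι → ℚ) (m : ι → ℤ) (t₀ : ℚ),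
    (∑ i ∈ C, (m i).toNat ≤ D) → (∑ i ∈ C, (-m i).toNat ≤ D) → (∀ i ∈ C, N i ≠ 0) → (∀ i ∈ C, (N i : ℚ) * t₀ + b i = (a i : ℚ) / q) →
    (∀ τ : ℚ, ∑ i ∈ C, (if (∃ z : ℤ, (N i : ℚ) * τ + b i = z) then (N i).sign * m i else 0) = 0) →
    ∀ i ∈ C, m i = 0

theorem NDD.mono {ι : Type} {D : ℕ} {J J' : Finset ι} {q : ℕ} {a : ι → ℤ} (h : NDD D J q a)
    (hJ : J' ⊆ J) : NDD D J' q a := fun C hC => h C (hC.trans hJ)

/-- transport to the index type `T ⊆ J` -/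
theorem NDD.sub {ι : Type} {D : ℕ} {J : Finset ι} {q : ℕ} {a : ι → ℤ} (h : NDD D J q a) (T : Finset ι)
    (hT : T ⊆ J) : NDD D (Finset.univ : Finset T) q (fun i => a i) := by
  classical
  intro C _ N b m t₀ hmD hmD' hN hpt hsum i hi
  obtain ⟨C', hC'⟩ : ∃ C' : Finset ι, C' = C.map (Function.Embedding.subtype _) := ⟨_, rfl⟩
  have hmem : ∀ j : T, j ∈ C ↔ (j : ι) ∈ C' := by
    intro j
    rw [hC']
    simp
  have hC'T : ∀ j ∈ C', j ∈ T := by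
    intro j hj
    rw [hC'] at hj
    obtain ⟨j', -, rfl⟩ := Finset.mem_map.1 hj
    exact j'.2
  obtain ⟨N', hN'⟩ : ∃ N' : ι → ℤ, N' = fun j => if h : j ∈ T then N ⟨j, h⟩ else 0 := ⟨_, rfl⟩
  obtain ⟨b', hb'⟩ : ∃ b' : ι → ℚ, b' = fun j => if h : j ∈ T then b ⟨j, h⟩ else 0 := ⟨_, rfl⟩
  obtain ⟨m', hm'⟩ : ∃ m' : ι → ℤ, m' = fun j => if h : j ∈ T then m ⟨j, h⟩ else 0 := ⟨_, rfl⟩
  have eN : ∀ j : T, N' j = N j := fun j => by rw [hN']; simp
  have eb : ∀ j : T, b' j = b j := fun j => by rw [hb']; simp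
  have em : ∀ j : T, m' j = m j := fun j => by rw [hm']; simp
  have key := h C' (fun j hj => hT (hC'T j hj)) N' b' m' t₀ (by
      rw [hC', Finset.sum_map]
      simp only [Function.Embedding.subtype_apply, em]
      exact hmD) (by
      rw [hC', Finset.sum_map]
      simp only [Function.Embedding.subtype_apply, em]
      exact hmD') (fun j hj => by
      have h1 := hN ⟨j, hC'T j hj⟩ ((hmem _).2 hj)
      rwa [← eN] at h1) (fun j hj => by
      have h1 := hpt ⟨j, hC'T j hj⟩ ((hmem _).2 hj)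
      rwa [← eN, ← eb] at h1) (fun τ => by
      rw [hC', Finset.sum_map]
      refine Eq.trans (Finset.sum_congr rfl fun j _ => ?_) (hsum τ)
      simp only [Function.Embedding.subtype_apply, eN, eb, em])
  rw [← em]
  exact key i ((hmem i).1 hi)

/-- standard-independence of the numbers `a i / q`, `i ∈ J`, up to degree `D` -/
def SID {ι : Type} (D : ℕ) (J : Finset ι) (q : ℕ) (a : ι → ℤ) : Prop :=
  ∀ m : ι → ℤ, (∑ i ∈ J, (m i).toNat ≤ D) → (∑ i ∈ J, (-m i).toNat ≤ D) →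
    (∀ u : ℤ, IsCoprime u (q : ℤ) → ∑ i ∈ J, (m i : ℚ) * B1 (u * ((a i : ℚ) / q)) = 0) →
    ∀ i ∈ J, m i = 0

/-- standard-independent points up to `D` -/
theorem NDD_of_SID {ι : Type} (D : ℕ) (J : Finset ι) (q : ℕ) (hq : 1 ≤ q) (a : ι → ℤ)
    (ha : ∀ i ∈ J, ¬ (q : ℤ) ∣ a i) (hSI : SID D J q a) : NDD D J q a := by
  classical
  intro C hC N b m t₀ hmD hmD' hN hpt hsum
  obtain ⟨P, hP⟩ : ∃ P : ℕ, P = ∏ i ∈ C, (N i).natAbs := ⟨_, rfl⟩
  have hP1 : 1 ≤ P := by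
    rw [hP]
    apply Nat.one_le_iff_ne_zero.2
    apply Finset.prod_ne_zero_iff.2
    intro i hi
    exact Int.natAbs_ne_zero.2 (hN i hi)
  have hD : 1 ≤ q * P := Nat.one_le_iff_ne_zero.2 (Nat.mul_ne_zero (by omega) (by omega))
  have hdvd : ∀ i ∈ C, q * (N i).natAbs ∣ q * P := by
    intro i hi
    apply Nat.mul_dvd_mul_left
    rw [hP]
    exact Finset.dvd_prod_of_mem (fun i => (N i).natAbs) hi
  have hmain : ∀ u : ℤ, IsCoprime u ((q * P : ℕ) : ℤ) →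
      ∑ i ∈ C, (m i : ℚ) * B1 (u * ((a i : ℚ) / q)) = 0 := by
    intro u hu
    have h1 : ∑ n ∈ Finset.range (q * P), ((∑ i ∈ C,
        (if (∃ z : ℤ, (N i : ℚ) * (t₀ - (n : ℚ) / ((q * P : ℕ) : ℚ)) + b i = z) then
          (N i).sign * m i else 0) : ℤ) : ℚ) * B1 (u * ((n : ℚ) / ((q * P : ℕ) : ℚ))) = 0 := by
      refine Finset.sum_eq_zero fun n _ => ?_
      rw [hsum, Int.cast_zero, zero_mul]
    have h2 : ∀ n ∈ Finset.range (q * P), ((∑ i ∈ C,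
        (if (∃ z : ℤ, (N i : ℚ) * (t₀ - (n : ℚ) / ((q * P : ℕ) : ℚ)) + b i = z) then
          (N i).sign * m i else 0) : ℤ) : ℚ) * B1 (u * ((n : ℚ) / ((q * P : ℕ) : ℚ))) =
        ∑ i ∈ C, ((N i).sign * m i : ℚ) * (if (∃ z : ℤ, (a i : ℚ) / q - N i *
          ((n : ℚ) / ((q * P : ℕ) : ℚ)) = z) then B1 (u * ((n : ℚ) / ((q * P : ℕ) : ℚ))) else 0) := by
      intro n _
      rw [Int.cast_sum, Finset.sum_mul]
      refine Finset.sum_congr rfl fun i hi => ?_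
      have e : (N i : ℚ) * (t₀ - (n : ℚ) / ((q * P : ℕ) : ℚ)) + b i = (a i : ℚ) / q - N i *
          ((n : ℚ) / ((q * P : ℕ) : ℚ)) := by
        rw [← hpt i hi]
        ring
      rw [e]
      by_cases h : ∃ z : ℤ, (a i : ℚ) / q - N i * ((n : ℚ) / ((q * P : ℕ) : ℚ)) = z
      · rw [if_pos h, if_pos h]
        push_cast
        ring
      · rw [if_neg h, if_neg h]
        simp
    rw [Finset.sum_congr rfl h2, Finset.sum_comm] at h1
    rw [← h1]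
    refine Finset.sum_congr rfl fun i hi => ?_
    rw [← Finset.mul_sum, div_sum hq (hN i hi) hD (hdvd i hi) (ha i (hC hi)) hu]
    have hs2 : (((N i).sign : ℤ) : ℚ) * (N i).sign = 1 := by
      have : (N i).sign * (N i).sign = 1 := by
        rcases Int.lt_or_gt_of_ne (hN i hi) with h | h
        · rw [Int.sign_eq_neg_one_of_neg h]; rfl
        · rw [Int.sign_eq_one_of_pos h]; rfl
      exact_mod_cast this
    linear_combination (-(m i : ℚ) * B1 (u * ((a i : ℚ) / q))) * hs2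
  have hall : ∀ u : ℤ, IsCoprime u (q : ℤ) →
      ∑ i ∈ J, (((if i ∈ C then m i else 0) : ℤ) : ℚ) * B1 (u * ((a i : ℚ) / q)) = 0 := by
    intro u hu
    obtain ⟨z, hz⟩ := exists_coprime_shift hP1 hq (a := -u) hu.neg_left
    have h1 := hmain (q * z - -u) (by
      push_cast
      exact hz)
    have hq0 : (q : ℚ) ≠ 0 := Nat.cast_ne_zero.2 (by omega)
    have h2 : ∀ i, B1 (((q * z - -u : ℤ) : ℚ) * ((a i : ℚ) / q)) = B1 (u * ((a i : ℚ) / q)) := by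
      intro i
      have e : ((q * z - -u : ℤ) : ℚ) * ((a i : ℚ) / q) = u * ((a i : ℚ) / q) + ((z * a i : ℤ) : ℚ) := by
        push_cast
        field_simp
        ring
      rw [e, B1_add_int]
    rw [Finset.sum_congr rfl (fun i _ => by rw [h2 i])] at h1
    rw [← h1]
    symm
    refine Finset.sum_subset_zero_on_sdiff hC (fun i hi => ?_) (fun i hi => ?_)
    · rw [if_neg (Finset.mem_sdiff.1 hi).2, Int.cast_zero, zero_mul]
    · rw [if_pos hi]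
  intro i hi
  have h := hSI (fun i => if i ∈ C then m i else 0) (by
    rw [← Finset.sum_subset_zero_on_sdiff hC (f := fun i => (m i).toNat) (fun i hi => by
      rw [if_neg (Finset.mem_sdiff.1 hi).2, Int.toNat_zero]) (fun i hi => by rw [if_pos hi])]
    exact hmD) (by
    rw [← Finset.sum_subset_zero_on_sdiff hC (f := fun i => (-m i).toNat) (fun i hi => by
      rw [if_neg (Finset.mem_sdiff.1 hi).2, neg_zero, Int.toNat_zero]) (fun i hi => by rw [if_pos hi])]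
    exact hmD') hall i (hC hi)
  simpa [hi] using h


/-- a relation with minimal support inside a set `S` of exponents -/
theorem minrelS {T : Type} [Fintype T] [DecidableEq T] {K : ℕ} (hK : 1 ≤ K) (ξ h : T → ℂ → ℂ)
    (hξ : ∀ i, Pl K (ξ i) (h i)) (D : ℕ) (p : (T → Fin (D + 1)) → ℂ → ℂ) (hp : ∀ γ, Ex K (p γ))
    (hrel : Rl ξ D p) (hne : ∃ γ, ¬ Ze (p γ)) (S : (T → Fin (D + 1)) → Prop)
    (hS : ∀ γ, ¬ S γ → Ze (p γ)) :
    ∃ p' : (T → Fin (D + 1)) → ℂ → ℂ, (∀ γ, Ex K (p' γ)) ∧ Rl ξ D p' ∧ (∀ γ, ¬ S γ → Ze (p' γ)) ∧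
      (∃ γ₀ γ₁, γ₀ ≠ γ₁ ∧ ¬ Ze (p' γ₀) ∧ ¬ Ze (p' γ₁)) ∧
      ∀ p'' : (T → Fin (D + 1)) → ℂ → ℂ, (∀ γ, Ex K (p'' γ)) → Rl ξ D p'' →
        (∀ γ, Ze (p' γ) → Ze (p'' γ)) →
        ∀ γ γ', ∀ᶠ s in 𝓝[≠] (0 : ℂ), p' γ s * p'' γ' s = p'' γ s * p' γ' s := by
  classical
  have hex : ∃ n : ℕ, ∃ p' : (T → Fin (D + 1)) → ℂ → ℂ, (∀ γ, Ex K (p' γ)) ∧ Rl ξ D p' ∧
      (∀ γ, ¬ S γ → Ze (p' γ)) ∧ (∃ γ, ¬ Ze (p' γ)) ∧ (Finset.univ.filter fun γ => ¬ Ze (p' γ)).card = n :=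
    ⟨_, p, hp, hrel, hS, hne, rfl⟩
  obtain ⟨p', hp', hrel', hS', ⟨γ₀, hγ₀⟩, hcard⟩ := Nat.find_spec hex
  have hmin : ∀ q : (T → Fin (D + 1)) → ℂ → ℂ, (∀ γ, Ex K (q γ)) → Rl ξ D q →
      (∀ γ, ¬ S γ → Ze (q γ)) →
      (Finset.univ.filter fun γ => ¬ Ze (q γ)).card <
        (Finset.univ.filter fun γ => ¬ Ze (p' γ)).card → ∀ γ, Ze (q γ) := by
    intro q hq hq' hqS hlt γ
    by_contra hγ
    rw [hcard] at hlt
    exact Nat.find_min hex hlt ⟨q, hq, hq', hqS, ⟨γ, hγ⟩, rfl⟩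
  refine ⟨p', hp', hrel', hS', ?_, ?_⟩
  · by_contra hno
    have hall : ∀ γ, γ ≠ γ₀ → Ze (p' γ) := by
      intro γ hγ
      by_contra h
      exact hno ⟨γ₀, γ, hγ.symm, hγ₀, h⟩
    have hall' : ∀ᶠ s in 𝓝[≠] (0 : ℂ), ∀ γ, γ ≠ γ₀ → p' γ s = 0 := by
      rw [Filter.eventually_all]
      intro γ
      by_cases h : γ = γ₀
      · exact Eventually.of_forall fun s h' => absurd h h'
      · filter_upwards [hall γ h] with s hs _
        exact hs
    have hz : Ze (fun s => p' γ₀ s * ∏ i, U (ξ i s) ^ (D - (γ₀ i : ℕ))) := by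
      have hr : ∀ᶠ s in 𝓝[≠] (0 : ℂ),
          ∑ γ : T → Fin (D + 1), p' γ s * ∏ i, U (ξ i s) ^ (D - (γ i : ℕ)) = 0 := hrel'
      have h0 : ∀ᶠ s in 𝓝[≠] (0 : ℂ), p' γ₀ s * ∏ i, U (ξ i s) ^ (D - (γ₀ i : ℕ)) = 0 := by
        filter_upwards [hr, hall'] with s h1 h2
        rw [Finset.sum_eq_single γ₀] at h1
        · exact h1
        · intro γ _ hγ
          rw [h2 γ hγ, zero_mul]
        · intro h
          exact absurd (Finset.mem_univ _) h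
      exact h0
    have hAU : ∀ i, ∀ n : ℕ, An (fun s => U (ξ i s) ^ n) := by
      intro i n
      have h1 : ∀ᶠ s in 𝓝[≠] (0 : ℂ), AnalyticAt ℂ (fun s => U (ξ i s)) s := An_U (Pl_An (hξ i))
      have h2 : ∀ᶠ s in 𝓝[≠] (0 : ℂ), AnalyticAt ℂ (fun s => U (ξ i s) ^ n) s := by
        filter_upwards [h1] with s hs
        exact hs.fun_pow n
      exact h2
    have hAP : An (fun s => ∏ i, U (ξ i s) ^ (D - (γ₀ i : ℕ))) := by
      have h1 : ∀ᶠ s in 𝓝[≠] (0 : ℂ), ∀ i ∈ (Finset.univ : Finset T),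
          AnalyticAt ℂ (fun s => U (ξ i s) ^ (D - (γ₀ i : ℕ))) s := by
        rw [Filter.eventually_all_finset]
        exact fun i _ => hAU i _
      have h2 : ∀ᶠ s in 𝓝[≠] (0 : ℂ),
          AnalyticAt ℂ (fun s => ∏ i, U (ξ i s) ^ (D - (γ₀ i : ℕ))) s := by
        filter_upwards [h1] with s hs
        exact Finset.analyticAt_fun_prod Finset.univ hs
      exact h2
    rcases An_mul_zero (Ex_An (hp' γ₀)) hAP hz with h | h
    · exact hγ₀ h
    · obtain ⟨i, -, hi⟩ := An_prod_zero Finset.univ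
        (f := fun i s => U (ξ i s) ^ (D - (γ₀ i : ℕ))) (fun i _ => hAU i _) h
      refine not_Ze_U hK (hξ i) ?_
      have hi' : ∀ᶠ s in 𝓝[≠] (0 : ℂ), U (ξ i s) ^ (D - (γ₀ i : ℕ)) = 0 := hi
      have h3 : ∀ᶠ s in 𝓝[≠] (0 : ℂ), U (ξ i s) = 0 := by
        filter_upwards [hi'] with s hs
        exact eq_zero_of_pow_eq_zero hs
      exact h3
  · intro p'' hp'' hrel'' hsup γ γ'
    by_cases hγ : Ze (p' γ)
    · have h1 : ∀ᶠ s in 𝓝[≠] (0 : ℂ), p' γ s = 0 := hγ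
      have h2 : ∀ᶠ s in 𝓝[≠] (0 : ℂ), p'' γ s = 0 := hsup γ hγ
      filter_upwards [h1, h2] with s h3 h4
      rw [h3, h4, zero_mul, zero_mul]
    · have hc : ∀ κ, Ze (fun s => p' γ s * p'' κ s - p'' γ s * p' κ s) := by
        refine hmin (fun κ s => p' γ s * p'' κ s - p'' γ s * p' κ s) (fun κ =>
          Ex_sub hK (Ex_mul (hp' γ) (hp'' κ)) (Ex_mul (hp'' γ) (hp' κ))) ?_ (fun κ hκ => ?_) ?_
        · have hr' : ∀ᶠ s in 𝓝[≠] (0 : ℂ),
            ∑ γ : T → Fin (D + 1), p' γ s * ∏ i, U (ξ i s) ^ (D - (γ i : ℕ)) = 0 := hrel'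
          have hr'' : ∀ᶠ s in 𝓝[≠] (0 : ℂ),
            ∑ γ : T → Fin (D + 1), p'' γ s * ∏ i, U (ξ i s) ^ (D - (γ i : ℕ)) = 0 := hrel''
          have h0 : ∀ᶠ s in 𝓝[≠] (0 : ℂ), ∑ κ : T → Fin (D + 1),
              (p' γ s * p'' κ s - p'' γ s * p' κ s) * ∏ i, U (ξ i s) ^ (D - (κ i : ℕ)) = 0 := by
            filter_upwards [hr', hr''] with s h1 h2
            have h3 : ∑ κ : T → Fin (D + 1),
                (p' γ s * p'' κ s - p'' γ s * p' κ s) * ∏ i, U (ξ i s) ^ (D - (κ i : ℕ)) =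
                p' γ s * ∑ κ : T → Fin (D + 1), p'' κ s * ∏ i, U (ξ i s) ^ (D - (κ i : ℕ)) -
                p'' γ s * ∑ κ : T → Fin (D + 1), p' κ s * ∏ i, U (ξ i s) ^ (D - (κ i : ℕ)) := by
              rw [Finset.mul_sum, Finset.mul_sum, ← Finset.sum_sub_distrib]
              refine Finset.sum_congr rfl fun κ _ => ?_
              ring
            rw [h3, h1, h2, mul_zero, mul_zero, sub_zero]
          exact h0
        · have h1 : ∀ᶠ s in 𝓝[≠] (0 : ℂ), p' κ s = 0 := hS' κ hκ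
          have h2 : ∀ᶠ s in 𝓝[≠] (0 : ℂ), p'' κ s = 0 := hsup κ (hS' κ hκ)
          have h3 : ∀ᶠ s in 𝓝[≠] (0 : ℂ), p' γ s * p'' κ s - p'' γ s * p' κ s = 0 := by
            filter_upwards [h1, h2] with s h4 h5
            rw [h4, h5, mul_zero, mul_zero, sub_zero]
          exact h3
        · refine Finset.card_lt_card ⟨fun κ hκ => ?_, fun hsub => ?_⟩
          · rw [Finset.mem_filter] at hκ ⊢
            refine ⟨Finset.mem_univ _, fun h => hκ.2 ?_⟩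
            have h1 : ∀ᶠ s in 𝓝[≠] (0 : ℂ), p' κ s = 0 := h
            have h2 : ∀ᶠ s in 𝓝[≠] (0 : ℂ), p'' κ s = 0 := hsup κ h
            have h3 : ∀ᶠ s in 𝓝[≠] (0 : ℂ), p' γ s * p'' κ s - p'' γ s * p' κ s = 0 := by
              filter_upwards [h1, h2] with s h4 h5
              rw [h4, h5, mul_zero, mul_zero, sub_zero]
            exact h3
          · have h1 : γ ∈ Finset.univ.filter fun κ => ¬ Ze (p' κ) :=
              Finset.mem_filter.2 ⟨Finset.mem_univ _, hγ⟩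
            have h2 := (Finset.mem_filter.1 (hsub h1)).2
            apply h2
            have h3 : ∀ᶠ s in 𝓝[≠] (0 : ℂ), p' γ s * p'' γ s - p'' γ s * p' γ s = 0 :=
              Eventually.of_forall fun s => by ring
            exact h3
      have h1 : ∀ᶠ s in 𝓝[≠] (0 : ℂ), p' γ s * p'' γ' s - p'' γ s * p' γ' s = 0 := hc γ'
      filter_upwards [h1] with s hs
      exact sub_eq_zero.1 hs


private theorem v0_sgr (z : ℂ) : sgr z = 0 ∨ sgr z = 1 ∨ sgr z = -1 := by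
  unfold sgr
  split_ifs
  · exact Or.inr (Or.inl rfl)
  · exact Or.inr (Or.inr rfl)
  · exact Or.inl rfl

/-- the products are in `OP` -/
private theorem v0_OP {T : Type} [Fintype T] {K : ℕ} (hK : 1 ≤ K) (ξ h : T → ℂ → ℂ)
    (hξ : ∀ i, Pl K (ξ i) (h i)) {ω : ℂ} (hω : ω ≠ 0) (e : T → ℕ)
    (he : ∀ i, sgr (h i 0 / ω) = 0 → e i = 0) :
    OP K (2 * Real.pi * I * ω)
      (fun s => ∏ i, (1 - exp (2 * Real.pi * I * (sgr (h i 0 / ω) : ℂ) * ξ i s)) ^ e i) := by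
  have h1 := OP_prod_pow hK (ϖ := 2 * Real.pi * I * ω)
    (Finset.univ.filter fun i : T => sgr (h i 0 / ω) ≠ 0)
    (f := fun i s => 1 - exp (2 * Real.pi * I * (sgr (h i 0 / ω) : ℂ) * ξ i s)) e
    (fun i hi => OP_one_sub hK (hξ i) hω (Finset.mem_filter.1 hi).2)
  have h2 : (fun s => ∏ i, (1 - exp (2 * Real.pi * I * (sgr (h i 0 / ω) : ℂ) * ξ i s)) ^ e i) =
      fun s => ∏ i ∈ Finset.univ.filter (fun i : T => sgr (h i 0 / ω) ≠ 0),
        (1 - exp (2 * Real.pi * I * (sgr (h i 0 / ω) : ℂ) * ξ i s)) ^ e i := by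
    funext s
    symm
    refine Finset.prod_subset (Finset.subset_univ _) fun i _ hi => ?_
    have h3 : sgr (h i 0 / ω) = 0 := by
      by_contra h4
      exact hi (Finset.mem_filter.2 ⟨Finset.mem_univ i, h4⟩)
    rw [he i h3, pow_zero]
  rw [h2]
  exact h1

open scoped Classical in
/-- AXG-C11. Proof. Zero type functions are in `Ex K`; take the minimal relation `p'` and `γ₀ ≠ γ₁` of
`minrel`, `m i = γ₁ i - γ₀ i`. Given `ω ≠ 0`, `line_rel` gives `F, G, l, e, e'`; by C9e and C9c both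
products are in `OP K (2πiω)` (product over the `i` with `σ_i ≠ 0`; the other factors are
`0^0 = 1`... to be precise `(1 - 1)^0 = 1`), so `unit_eq` gives the equality of the products, `zero_count`
gives `∑_{ξ_i(s) ∈ ℤ} (e_i - e'_i) = 0`, and `e_i - e'_i = -σ_i m_i`. -/
theorem local_ALD {T : Type} [Fintype T] [DecidableEq T] {K : ℕ} (hK : 1 ≤ K) (ξ h : T → ℂ → ℂ)
    (hξ : ∀ i, Pl K (ξ i) (h i)) (D : ℕ) (p : (T → Fin (D + 1)) → ℂ → ℂ) (hp : ∀ γ, Zt K (p γ))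
    (hrel : Rl ξ D p) (hne : ∃ γ, ¬ Ze (p γ)) (hS : ∀ γ, ¬ (∑ i, (γ i : ℕ) ≤ D) → Ze (p γ)) :
    ∃ m : T → ℤ, m ≠ 0 ∧ (∑ i, (m i).toNat ≤ D) ∧ (∑ i, (-m i).toNat ≤ D) ∧
      ∀ ω : ℂ, ω ≠ 0 → ∀ᶠ s in 𝓝[≠] (0 : ℂ),
      ∑ i, (if (∃ n : ℤ, ξ i s = n) then sgr (h i 0 / ω) * m i else 0) = 0 := by
  obtain ⟨p', hp', hrel', hS', ⟨γ₀, γ₁, hγ, h0, h1⟩, hmin⟩ :=
    minrelS hK ξ h hξ D p (fun γ => Ex_of_Zt (hp γ)) hrel hne (fun γ => ∑ i, (γ i : ℕ) ≤ D) hS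
  have hb0 : ∑ i, (γ₀ i : ℕ) ≤ D := by
    by_contra hcon
    exact h0 (hS' γ₀ hcon)
  have hb1 : ∑ i, (γ₁ i : ℕ) ≤ D := by
    by_contra hcon
    exact h1 (hS' γ₁ hcon)
  refine ⟨fun i => ((γ₁ i : ℕ) : ℤ) - ((γ₀ i : ℕ) : ℤ), fun hm => hγ ?_,
    (Finset.sum_le_sum fun i _ => ?_).trans hb1, (Finset.sum_le_sum fun i _ => ?_).trans hb0,
    fun ω hω => ?_⟩
  · funext i
    have h2 := congrFun hm i
    simp only [Pi.zero_apply] at h2
    exact Fin.ext (by omega)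
  · simp only
    omega
  · simp only
    omega
  · obtain ⟨F, G, l, e, e', hF, hG, hF0, hG0, he, hz, heq⟩ :=
      line_rel hK ξ h hξ D p' hp' hrel' h0 h1 hmin hω
    have hϖ : (2 * Real.pi * I * ω : ℂ) ≠ 0 := mul_ne_zero Complex.two_pi_I_ne_zero hω
    have h2 := unit_eq hK hϖ hF hG hF0 hG0
      (v0_OP hK ξ h hξ hω e fun i hi => (hz i hi).1)
      (v0_OP hK ξ h hξ hω e' fun i hi => (hz i hi).2) heq
    have h3 := zero_count hK ξ h hξ (fun i => sgr (h i 0 / ω)) (fun i => v0_sgr _) e e' hz h2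
    filter_upwards [h3] with s hs
    have h4 : ∑ i, (if (∃ n : ℤ, ξ i s = n) then
        sgr (h i 0 / ω) * (((γ₁ i : ℕ) : ℤ) - ((γ₀ i : ℕ) : ℤ)) else 0) =
        -∑ i, (if (∃ n : ℤ, ξ i s = n) then (e i : ℤ) - e' i else 0) := by
      rw [← Finset.sum_neg_distrib]
      refine Finset.sum_congr rfl fun i _ => ?_
      by_cases hn : ∃ n : ℤ, ξ i s = n
      · rw [if_pos hn, if_pos hn, he i]
        ring
      · rw [if_neg hn, if_neg hn, neg_zero]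
    rw [h4, hs, neg_zero]


open scoped Classical in
/-- AXG-D4. Proof. Choose `i₀` with `m i₀ ≠ 0`. Let `C` be the set of the `i` for which there are integers
`M, M' ≠ 0` and `c : ℂ` with `M ξ_{i₀} - M' ξ_i = c` near `0`; by `H2` `c = (M a_{i₀} - M' a_i)/q` is
rational. `i₀ ∈ C` (`M = M' = 1`, `c = 0`). For `i ∈ C` choose `M_i, M'_i`; let `L = ∏_{i ∈ C} |M'_i| ≥ 1`,
`N_i = M_i L / M'_i` (a nonzero integer), `b_i = -(M_i a_{i₀} - M'_i a_i)/(q M'_i)`, so that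
`ξ_i = N_i ξ_{i₀}/L + b_i`. With `t₀ = a_{i₀}/(q L)`: `N_i t₀ + b_i = a_i / q`. `class_sum` gives `hsum` of
`no_div`, so `m i = 0` for all `i ∈ C`, in particular `m i₀ = 0`. -/
theorem no_matchingD {D : ℕ} {T : Type} [Fintype T] [DecidableEq T] {K : ℕ} (hK : 1 ≤ K) (ξ h : T → ℂ → ℂ)
    (hξ : ∀ i, Pl K (ξ i) (h i)) (m : T → ℤ) (hm0 : m ≠ 0)
    (hmD : ∑ i, (m i).toNat ≤ D) (hmD' : ∑ i, (-m i).toNat ≤ D)
    (hm : ∀ ω : ℂ, ω ≠ 0 → ∀ᶠ s in 𝓝[≠] (0 : ℂ),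
      ∑ i, (if (∃ n : ℤ, ξ i s = n) then sgr (h i 0 / ω) * m i else 0) = 0)
    (q : ℕ) (hq : 1 ≤ q) (a : T → ℤ) (hnd : NDD D Finset.univ q a)
    (H2 : ∀ (i j : T) (M M' : ℤ) (c : ℂ), M ≠ 0 → M' ≠ 0 →
      (∀ᶠ s in 𝓝[≠] (0 : ℂ), M * ξ i s - M' * ξ j s = c) →
      ((M * a i - M' * a j : ℤ) : ℂ) / q = c) : False := by
  classical
  obtain ⟨i₀, hi₀⟩ : ∃ i, m i ≠ 0 := by
    by_contra hcon
    push Not at hcon
    exact hm0 (funext hcon)
  have hi₀' : m i₀ ≠ 0 := hi₀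
  have hqC : (q : ℂ) ≠ 0 := by
    have : q ≠ 0 := by omega
    exact_mod_cast this
  have hqQ : (q : ℚ) ≠ 0 := by
    have : q ≠ 0 := by omega
    exact_mod_cast this
  let Pr : T → Prop := fun i => ∃ (M M' : ℤ) (c : ℂ), M ≠ 0 ∧ M' ≠ 0 ∧
      ∀ᶠ s in 𝓝[≠] (0 : ℂ), M * ξ i₀ s - M' * ξ i s = c
  let C : Finset T := Finset.univ.filter Pr
  have hmemC : ∀ i, i ∈ C ↔ Pr i := by
    intro i
    simp only [C, Finset.mem_filter, Finset.mem_univ, true_and]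
  have hch : ∀ i, ∃ (M M' : ℤ) (c : ℂ), M ≠ 0 ∧ M' ≠ 0 ∧ (i ∈ C →
      ∀ᶠ s in 𝓝[≠] (0 : ℂ), M * ξ i₀ s - M' * ξ i s = c) := by
    intro i
    by_cases h : i ∈ C
    · obtain ⟨M, M', c, h1, h2, h3⟩ := (hmemC i).1 h
      exact ⟨M, M', c, h1, h2, fun _ => h3⟩
    · exact ⟨1, 1, 0, one_ne_zero, one_ne_zero, fun h' => absurd h' h⟩
  choose M M' c hM hM' hMc using hch
  have hcval : ∀ i ∈ C, c i = ((M i * a i₀ - M' i * a i : ℤ) : ℂ) / q := by
    intro i hi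
    exact (H2 i₀ i (M i) (M' i) (c i) (hM i) (hM' i) (hMc i hi)).symm
  have hi₀C : i₀ ∈ C := by
    rw [hmemC]
    refine ⟨1, 1, 0, one_ne_zero, one_ne_zero, ?_⟩
    filter_upwards with s
    simp
  let L : ℕ := ∏ i ∈ C, (M' i).natAbs
  have hL : 1 ≤ L := by
    apply Nat.one_le_iff_ne_zero.2
    apply Finset.prod_ne_zero_iff.2
    intro i _
    exact Int.natAbs_ne_zero.2 (hM' i)
  have hLC : (L : ℂ) ≠ 0 := by
    have : L ≠ 0 := by omega
    exact_mod_cast this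
  have hLQ : (L : ℚ) ≠ 0 := by
    have : L ≠ 0 := by omega
    exact_mod_cast this
  have hdvd : ∀ i ∈ C, M' i ∣ (L : ℤ) := by
    intro i hi
    apply Int.natAbs_dvd_natAbs.1
    rw [Int.natAbs_natCast]
    exact Finset.dvd_prod_of_mem (fun i => (M' i).natAbs) hi
  have hch2 : ∀ i, ∃ l : ℤ, i ∈ C → (L : ℤ) = M' i * l := by
    intro i
    by_cases h : i ∈ C
    · obtain ⟨l, hl⟩ := hdvd i h
      exact ⟨l, fun _ => hl⟩
    · exact ⟨0, fun h' => absurd h' h⟩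
  choose l hl using hch2
  have hl0 : ∀ i ∈ C, l i ≠ 0 := by
    intro i hi h0
    have := hl i hi
    rw [h0, mul_zero] at this
    have h2 : L = 0 := by exact_mod_cast this
    omega
  let N : T → ℤ := fun i => M i * l i
  let b : T → ℚ := fun i => -((M i * a i₀ - M' i * a i : ℤ) : ℚ) / (q * M' i)
  have hN : ∀ i ∈ C, N i ≠ 0 := fun i hi => mul_ne_zero (hM i) (hl0 i hi)
  have hCC : ∀ i ∈ C, ∀ᶠ s in 𝓝[≠] (0 : ℂ), ξ i s = N i * (ξ i₀ s / L) + (b i : ℂ) := by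
    intro i hi
    have hM'C : (M' i : ℂ) ≠ 0 := by exact_mod_cast hM' i
    have hlC : (l i : ℂ) ≠ 0 := by exact_mod_cast hl0 i hi
    have hLe : (L : ℂ) = M' i * l i := by
      have := hl i hi
      exact_mod_cast this
    filter_upwards [hMc i hi] with s hs
    have h1 : (M' i : ℂ) * ξ i s = M i * ξ i₀ s - c i := by
      rw [← hs]; ring
    have h2 : ξ i s = (M i * ξ i₀ s - c i) / M' i := by
      rw [← h1]; field_simp
    rw [h2, hcval i hi]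
    simp only [N, b]
    rw [hLe]
    push_cast
    field_simp
    ring
  have hC' : ∀ i, i ∉ C → ¬ ∃ (M M' : ℤ) (c : ℂ), M ≠ 0 ∧ M' ≠ 0 ∧
      ∀ᶠ s in 𝓝[≠] (0 : ℂ), M * ξ i₀ s - M' * ξ i s = c := by
    intro i hi h
    exact hi ((hmemC i).2 h)
  have hsum := fun τ : ℚ => class_sum hK ξ h hξ m hm i₀ L hL C N b hN hCC hC' τ
  have hpt : ∀ i ∈ C, (N i : ℚ) * ((a i₀ : ℚ) / (q * L)) + b i = (a i : ℚ) / q := by
    intro i hi
    have hM'Q : (M' i : ℚ) ≠ 0 := by exact_mod_cast hM' i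
    have hlQ : (l i : ℚ) ≠ 0 := by exact_mod_cast hl0 i hi
    have hLe : (L : ℚ) = M' i * l i := by
      have := hl i hi
      exact_mod_cast this
    simp only [N, b]
    rw [hLe]
    push_cast
    field_simp
    ring
  have hfin := hnd C (Finset.subset_univ C) N b m ((a i₀ : ℚ) / (q * L))
    ((Finset.sum_le_sum_of_subset (Finset.subset_univ C)).trans hmD)
    ((Finset.sum_le_sum_of_subset (Finset.subset_univ C)).trans hmD') hN hpt hsum
  exact hi₀' (hfin i₀ hi₀C)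


end Pool.Agent.Helper49.AXU
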