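import Pool.Agent.Helper49.AXU.W13
import Pool.Agent.Helper49.AXU.V1

/-! # AXU-W14: the universal polynomial and its points -/

namespace Pool.Agent.Helper49.AXU

open MvPolynomial Pool.Agent.Helper94.AXG Pool.Agent.Helper49.AXQ

/-- the exponents of degree `≤ d` -/
abbrev EX (k d : ℕ) : Type := {ν : Fin k → Fin (d + 1) // ∑ o, (ν o : ℕ) ≤ d}

/-- pairs of a coefficient and an exponent -/
abbrev EL (n k d : ℕ) : Type := Fin n × EX k d

/-- their number -/
noncomputable def NL (n k d : ℕ) : ℕ := Fintype.card (EL n k d)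

/-- their enumeration -/
noncomputable def eL (n k d : ℕ) : EL n k d ≃ Fin (NL n k d) := Fintype.equivFin _

/-- the exponent -/
noncomputable def exX {k d : ℕ} (ν : EX k d) : Fin k →₀ ℕ :=
  Finsupp.equivFunOnFinite.symm (fun o => (ν.1 o : ℕ))

theorem exX_apply {k d : ℕ} (ν : EX k d) (o : Fin k) : exX ν o = (ν.1 o : ℕ) := rfl

theorem exX_inj {k d : ℕ} : Function.Injective (exX (k := k) (d := d)) := by
  intro a b hab
  refine Subtype.ext (funext fun i => ?_)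
  have := DFunLike.congr_fun hab i
  rw [exX_apply, exX_apply] at this
  exact Fin.ext this

theorem exX_surj {k d : ℕ} {R : MvPolynomial (Fin k) ℂ} (hR : R.totalDegree ≤ d)
    {κ : Fin k →₀ ℕ} (hκ : κ ∈ R.support) : ∃ ν : EX k d, exX ν = κ := by
  have h2 : κ.degree ≤ R.totalDegree := by
    have := le_totalDegree hκ
    simpa [Finsupp.degree, Finsupp.sum] using this
  have hle : ∀ i, κ i < d + 1 := by
    intro i
    have h1 : κ i ≤ κ.degree := Finsupp.le_degree i κ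
    omega
  refine ⟨⟨fun i => ⟨κ i, hle i⟩, ?_⟩, ?_⟩
  · rw [Finsupp.degree_eq_sum] at h2
    exact h2.trans hR
  ext i
  rfl

theorem sum_EX {k d : ℕ} {R : MvPolynomial (Fin k) ℂ} (hR : R.totalDegree ≤ d) (w : Fin k → ℂ) :
    eval w R = ∑ ν : EX k d, coeff (exX ν) R * ∏ o, w o ^ (ν.1 o : ℕ) := by
  classical
  have hsub : R.support ⊆ Finset.univ.image (exX : EX k d → _) := by
    intro κ hκ
    obtain ⟨ν, hν⟩ := exX_surj hR hκ
    exact Finset.mem_image.2 ⟨ν, Finset.mem_univ _, hν⟩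
  have h1 : eval w R = ∑ κ ∈ R.support, coeff κ R * ∏ o, w o ^ κ o := by
    rw [eval_eq']
  rw [h1, Finset.sum_subset hsub, Finset.sum_image (fun a _ b _ h => exX_inj h)]
  · rfl
  · intro κ _ hκ
    rw [notMem_support_iff.mp hκ]
    simp

/-- the tuple `(r, y)` -/
noncomputable def rhoL {n k d : ℕ} (M : ℕ) (r : Fin k → ℚ) (a : EL n k d → ℤ) : Fin (k + NL n k d) → ℚ :=
  Fin.append r (fun s => ((a ((eL n k d).symm s) + M : ℤ) : ℚ) / ((2 * M : ℕ) : ℚ))

theorem rhoL_left {n k d M : ℕ} (r : Fin k → ℚ) (a : EL n k d → ℤ) (i : Fin k) :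
    rhoL M r a (Fin.castAdd _ i) = r i := Fin.append_left _ _ i

theorem rhoL_right {n k d M : ℕ} (r : Fin k → ℚ) (a : EL n k d → ℤ) (ν : EL n k d) :
    rhoL M r a (Fin.natAdd k (eL n k d ν)) = ((a ν + M : ℤ) : ℚ) / ((2 * M : ℕ) : ℚ) := by
  unfold rhoL
  rw [Fin.append_right, Equiv.symm_apply_apply]

/-- the coordinates of the tuple lie in `[0, 1]` and have denominators `≤ 2 Q` -/
theorem rhoL_range {n k d Q : ℕ} {r : Fin k → ℚ} {a : EL n k d → ℤ} (hQ : 1 ≤ Q)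
    (hr : ∀ i, Rat01 Q (r i)) (ha : ∀ ν, |a ν| ≤ (Q : ℤ)) (s : Fin (k + NL n k d)) :
    0 ≤ rhoL Q r a s ∧ rhoL Q r a s ≤ 1 ∧ (rhoL Q r a s).den ≤ 2 * Q := by
  refine Fin.addCases (fun i => ?_) (fun j => ?_) s
  · rw [rhoL_left]
    obtain ⟨h1, h2, h3⟩ := hr i
    exact ⟨h1.le, h2.le, by omega⟩
  · obtain ⟨ν, hν⟩ := (eL n k d).surjective j
    rw [← hν, rhoL_right]
    have h3 := abs_le.1 (ha ν)
    have hpos : (0 : ℚ) < ((2 * Q : ℕ) : ℚ) := by
      have : 0 < 2 * Q := by omega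
      exact_mod_cast this
    refine ⟨div_nonneg ?_ hpos.le, ?_, ?_⟩
    · have : (0 : ℤ) ≤ a ν + Q := by linarith [h3.1]
      exact_mod_cast this
    · rw [div_le_one hpos]
      have : a ν + Q ≤ ((2 * Q : ℕ) : ℤ) := by
        push_cast
        linarith [h3.2]
      exact_mod_cast this
    · have h4 : (((a ν + Q : ℤ) : ℚ) / ((2 * Q : ℕ) : ℚ)).den ∣ 2 * Q := by
        have h5 := Rat.den_dvd (a ν + Q) ((2 * Q : ℕ) : ℤ)
        rw [Rat.divInt_eq_div] at h5
        exact_mod_cast h5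
      exact Nat.le_of_dvd (by omega) h4

/-- the universal polynomial -/
noncomputable def PL {n k : ℕ} (d : ℕ) (lam : Fin n → ℂ) : MvPolynomial (Fin (k + NL n k d)) ℂ :=
  ∑ ν : EL n k d, C (lam ν.1) * (C 2 * X (Fin.natAdd k (eL n k d ν)) - 1) *
    ∏ i : Fin k, X (Fin.castAdd (NL n k d) i) ^ (d - (ν.2.1 i : ℕ))

theorem PL_deg {n k d : ℕ} (lam : Fin n → ℂ) : (PL (k := k) d lam).totalDegree ≤ k * d + 1 := by
  unfold PL
  refine (totalDegree_finsetSum _ _).trans (Finset.sup_le fun ν _ => ?_)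
  refine (totalDegree_mul _ _).trans ?_
  have h1 : (C (lam ν.1) * (C 2 * X (Fin.natAdd k (eL n k d ν)) - 1) :
      MvPolynomial (Fin (k + NL n k d)) ℂ).totalDegree ≤ 1 := by
    refine (totalDegree_mul _ _).trans ?_
    rw [totalDegree_C, zero_add]
    refine (totalDegree_sub _ _).trans (max_le ?_ ?_)
    · refine (totalDegree_mul _ _).trans ?_
      rw [totalDegree_C, zero_add, totalDegree_X]
    · rw [totalDegree_one]
      exact Nat.zero_le 1
  have h2 : (∏ i : Fin k, X (Fin.castAdd (NL n k d) i) ^ (d - (ν.2.1 i : ℕ)) :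
      MvPolynomial (Fin (k + NL n k d)) ℂ).totalDegree ≤ k * d := by
    refine (totalDegree_finsetProd _ _).trans ?_
    calc ∑ i : Fin k, (X (Fin.castAdd (NL n k d) i) ^ (d - (ν.2.1 i : ℕ)) :
          MvPolynomial (Fin (k + NL n k d)) ℂ).totalDegree ≤ ∑ _i : Fin k, d := by
          refine Finset.sum_le_sum fun i _ => ?_
          refine (totalDegree_pow _ _).trans ?_
          rw [totalDegree_X, mul_one]
          omega
      _ = k * d := by simp
  omega

/-- the key identity -/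
theorem key_sumL {n k d : ℕ} {R : MvPolynomial (Fin k) ℂ} (hR : R.totalDegree ≤ d)
    (lam : Fin n → ℂ) (a : EL n k d → ℤ) (ha : ∀ ν, coeff (exX ν) R = ∑ j, (a (j, ν) : ℂ) * lam j)
    (z : Fin k → ℂ) (hz : ∀ i, z i ≠ 0) (M : ℂ) :
    ∑ ν : EL n k d, lam ν.1 * ((a ν : ℂ) / M) * ∏ i : Fin k, (z i)⁻¹ ^ (d - (ν.2.1 i : ℕ)) =
      M⁻¹ * (∏ i, (z i)⁻¹ ^ d) * eval z R := by
  rw [sum_EX hR, Finset.mul_sum, Fintype.sum_prod_type_right]
  refine Finset.sum_congr rfl fun ν _ => ?_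
  have h1 : ∏ i : Fin k, (z i)⁻¹ ^ (d - (ν.1 i : ℕ)) =
      (∏ i, (z i)⁻¹ ^ d) * ∏ i, z i ^ (ν.1 i : ℕ) := by
    rw [← Finset.prod_mul_distrib]
    refine Finset.prod_congr rfl fun i _ => ?_
    have h2 : (ν.1 i : ℕ) ≤ d := by
      have := (ν.1 i).2
      omega
    have h3 : (z i)⁻¹ ^ d = (z i)⁻¹ ^ (d - (ν.1 i : ℕ)) * (z i)⁻¹ ^ (ν.1 i : ℕ) := by
      rw [← pow_add]
      congr 1
      omega
    rw [h3, mul_assoc, ← mul_pow, inv_mul_cancel₀ (hz i), one_pow, mul_one]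
  simp only
  rw [h1, ha, ← Finset.sum_mul, Finset.sum_mul (f := fun j => (a (j, ν) : ℂ) * lam j), Finset.mul_sum,
    Finset.sum_mul]
  refine Finset.sum_congr rfl fun j _ => ?_
  ring

end Pool.Agent.Helper49.AXU
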