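import Pool.Agent.Helper49.AXU.W14
import Pool.Agent.Helper49.AXU.U15

/-! # AXU-W15: the points are admissible zeros -/

namespace Pool.Agent.Helper49.AXU

open MvPolynomial Pool.Agent.Helper94.AXG Pool.Agent.Helper49.AXQ

theorem two_rhoL {n k d Q : ℕ} (hQ : 1 ≤ Q) (r : Fin k → ℚ) (a : EL n k d → ℤ) (ν : EL n k d) :
    (2 : ℂ) * ((rhoL Q r a (Fin.natAdd k (eL n k d ν)) : ℚ) : ℂ) - 1 = (a ν : ℂ) / (Q : ℂ) := by
  have h2 : (Q : ℂ) ≠ 0 := Nat.cast_ne_zero.2 (by omega)
  rw [rhoL_right]
  push_cast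
  field_simp
  ring

theorem zrU_of_minL {n k d Q : ℕ} (hQ : 1 ≤ Q) {S : Set ℂ} (h0S : (0 : ℂ) ∈ S) (lam : Fin n → ℂ)
    {r : Fin k → ℚ} {R : MvPolynomial (Fin k) ℂ} (hr : ∀ i, Rat01 Q (r i)) (hR : SmL S d R)
    (a : EL n k d → ℤ) (ha : ∀ ν, |a ν| ≤ (Q : ℤ))
    (haR : ∀ ν, coeff (exX ν) R = ∑ j, (a (j, ν) : ℂ) * lam j)
    (h0 : eval (fun i : Fin k => Complex.Gamma ((r i : ℚ) : ℂ)) R = 0)
    (hmin : ∀ J' : Finset (Fin k), J'.Nonempty → ¬ ∃ R' : MvPolynomial (Fin k) ℂ, SmL S d R' ∧
      (∀ i ∈ J', i ∉ R'.vars) ∧ eval (fun i : Fin k => Complex.Gamma ((r i : ℚ) : ℂ)) R' = 0) :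
    ZrU (KK0 k (NL n k d)) (PL d lam) (ptT (rhoL Q r a)) := by
  classical
  have hG : ∀ i, Complex.Gamma ((r i : ℚ) : ℂ) ≠ 0 := by
    intro i
    refine Complex.Gamma_ne_zero_of_re_pos ?_
    have h1 : ((r i : ℚ) : ℂ) = (((r i : ℚ) : ℝ) : ℂ) := by push_cast; rfl
    rw [h1, Complex.ofReal_re]
    exact_mod_cast (hr i).1
  have hx : xp (ptT (rhoL Q r a)) = fun s => ((rhoL Q r a s : ℚ) : ℂ) :=
    xp_ptT0 fun s => (rhoL_range hQ hr ha s).1
  have hVl : ∀ i : Fin k, VV (KK0 k (NL n k d)) (Fin.castAdd _ i)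
      (xp (ptT (rhoL Q r a)) (Fin.castAdd _ i)) = (Complex.Gamma ((r i : ℚ) : ℂ))⁻¹ := by
    intro i
    rw [VV_mem (castAdd_mem _ _ i), hx]
    simp only
    rw [rhoL_left]
    rfl
  have hVr : ∀ ν : EL n k d, (2 : ℂ) * VV (KK0 k (NL n k d)) (Fin.natAdd k (eL n k d ν))
      (xp (ptT (rhoL Q r a)) (Fin.natAdd k (eL n k d ν))) - 1 = (a ν : ℂ) / (Q : ℂ) := by
    intro ν
    rw [VV_not (natAdd_not_mem _ _ _), hx]
    exact two_rhoL hQ r a ν
  refine ⟨?_, ?_⟩
  · have h1 : eval (fun i => VV (KK0 k (NL n k d)) i (xp (ptT (rhoL Q r a)) i)) (PL d lam) =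
        ∑ ν : EL n k d, lam ν.1 * ((a ν : ℂ) / (Q : ℂ)) *
          ∏ i : Fin k, (Complex.Gamma ((r i : ℚ) : ℂ))⁻¹ ^ (d - (ν.2.1 i : ℕ)) := by
      unfold PL
      rw [map_sum]
      refine Finset.sum_congr rfl fun ν _ => ?_
      simp only [map_mul, map_sub, map_one, map_prod, map_pow, eval_C, eval_X]
      rw [hVr ν]
      congr 1
      refine Finset.prod_congr rfl fun i _ => ?_
      rw [hVl i]
    rw [h1, key_sumL hR.2.1 lam a haR _ hG, h0, mul_zero]
  · intro J hJK hJ hcon
    obtain ⟨J', hJ'⟩ : ∃ J' : Finset (Fin k), J' = Finset.univ.filter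
        (fun i => Fin.castAdd (NL n k d) i ∈ J) := ⟨_, rfl⟩
    have hmem : ∀ i, i ∈ J' ↔ Fin.castAdd (NL n k d) i ∈ J := fun i => by rw [hJ']; simp
    have hJne : J'.Nonempty := by
      obtain ⟨s, hs⟩ := hJ
      obtain ⟨i, rfl⟩ := mem_KK0 (hJK hs)
      exact ⟨i, (hmem i).2 hs⟩
    obtain ⟨w, hw⟩ : ∃ w : Fin k → ℂ, w = fun i : Fin k => Complex.Gamma ((r i : ℚ) : ℂ) := ⟨_, rfl⟩
    have hzero : aeval (fun o => if o ∈ J' then (X o : MvPolynomial (Fin k) ℂ) else C (w o)) R = 0 := by
      refine funext_set (fun _ => ({0}ᶜ : Set ℂ)) (fun _ => ?_) (fun x hx' => ?_)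
      · exact infinite_of_mem_nhds (1 : ℂ) (isOpen_compl_singleton.mem_nhds one_ne_zero)
      · rw [map_zero]
        have hx0 : ∀ o, x o ≠ 0 := fun o => hx' o (Set.mem_univ o)
        obtain ⟨z, hz⟩ : ∃ z : Fin k → ℂ, z = fun i => if i ∈ J' then x i else
          Complex.Gamma ((r i : ℚ) : ℂ) := ⟨_, rfl⟩
        have hz0 : ∀ i, z i ≠ 0 := by
          intro i
          rw [hz]
          simp only
          split_ifs
          · exact hx0 _
          · exact hG i
        have e1 : eval x (aeval (fun o => if o ∈ J' then (X o : MvPolynomial (Fin k) ℂ) else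
            C (w o)) R) = eval z R := by
          have e : ((eval x : MvPolynomial (Fin k) ℂ →+* ℂ).comp (aeval (fun o => if o ∈ J' then
              (X o : MvPolynomial (Fin k) ℂ) else C (w o)) :
                MvPolynomial (Fin k) ℂ →ₐ[ℂ] MvPolynomial (Fin k) ℂ).toRingHom) = eval z := by
            apply MvPolynomial.ringHom_ext
            · intro c
              simp
            · intro i
              simp only [RingHom.comp_apply, AlgHom.toRingHom_eq_coe, RingHom.coe_coe, aeval_X, eval_X]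
              rw [hz]
              simp only
              by_cases hi : i ∈ J'
              · rw [if_pos hi, if_pos hi, eval_X]
              · rw [if_neg hi, if_neg hi, eval_C, hw]
          exact congrArg (fun f => f R) e
        rw [e1]
        have hM : (Q : ℂ)⁻¹ ≠ 0 := inv_ne_zero (Nat.cast_ne_zero.2 (by omega))
        have hP : ∏ i, (z i)⁻¹ ^ d ≠ 0 := Finset.prod_ne_zero_iff.2 fun i _ =>
          pow_ne_zero _ (inv_ne_zero (hz0 i))
        have hkey := key_sumL hR.2.1 lam a haR z hz0 (Q : ℂ)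
        obtain ⟨x', hx''⟩ : ∃ x' : Fin (k + NL n k d) → ℂ,
            x' = Fin.append (fun i => (x i)⁻¹) (fun _ => 0) := ⟨_, rfl⟩
        have hcomp : eval x' (aeval (fun s => if s ∈ J then
            (X s : MvPolynomial (Fin (k + NL n k d)) ℂ) else
              C (VV (KK0 k (NL n k d)) s (xp (ptT (rhoL Q r a)) s))) (PL d lam)) =
            eval (fun s => if s ∈ J then x' s else
              VV (KK0 k (NL n k d)) s (xp (ptT (rhoL Q r a)) s)) (PL d lam) := by
          have e : ((eval x').comp ((aeval (fun s => if s ∈ J then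
            (X s : MvPolynomial (Fin (k + NL n k d)) ℂ) else
              C (VV (KK0 k (NL n k d)) s (xp (ptT (rhoL Q r a)) s))) :
                MvPolynomial (Fin (k + NL n k d)) ℂ →ₐ[ℂ] MvPolynomial (Fin (k + NL n k d)) ℂ)).toRingHom) =
              eval (fun s => if s ∈ J then x' s else
                VV (KK0 k (NL n k d)) s (xp (ptT (rhoL Q r a)) s)) := by
            apply MvPolynomial.ringHom_ext
            · intro c
              simp
            · intro s
              simp only [RingHom.comp_apply, AlgHom.toRingHom_eq_coe, RingHom.coe_coe, aeval_X, eval_X]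
              split_ifs
              · rw [eval_X]
              · rw [eval_C]
          exact congrArg (fun f => f (PL d lam)) e
        have hev : eval (fun s => if s ∈ J then x' s else
              VV (KK0 k (NL n k d)) s (xp (ptT (rhoL Q r a)) s)) (PL d lam) =
            ∑ ν : EL n k d, lam ν.1 * ((a ν : ℂ) / (Q : ℂ)) *
                ∏ i : Fin k, (z i)⁻¹ ^ (d - (ν.2.1 i : ℕ)) := by
          unfold PL
          rw [map_sum]
          refine Finset.sum_congr rfl fun ν _ => ?_
          simp only [map_mul, map_sub, map_one, map_prod, map_pow, eval_C, eval_X]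
          have c2 : Fin.natAdd k (eL n k d ν) ∉ J := fun h => natAdd_not_mem _ _ _ (hJK h)
          rw [if_neg c2, hVr ν]
          congr 1
          refine Finset.prod_congr rfl fun i _ => ?_
          congr 1
          rw [hz]
          simp only
          by_cases hi : i ∈ J'
          · rw [if_pos ((hmem i).1 hi), if_pos hi, hx'', Fin.append_left]
          · rw [if_neg (fun h => hi ((hmem i).2 h)), if_neg hi, hVl i]
        have hall : (Q : ℂ)⁻¹ * (∏ i, (z i)⁻¹ ^ d) * eval z R = 0 := by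
          rw [← hkey, ← hev, ← hcomp]
          have hcon' : aeval (fun s => if s ∈ J then
            (X s : MvPolynomial (Fin (k + NL n k d)) ℂ) else
              C (VV (KK0 k (NL n k d)) s (xp (ptT (rhoL Q r a)) s))) (PL d lam) = 0 := by
            convert hcon
          rw [hcon', map_zero]
        exact (mul_eq_zero.1 hall).resolve_left (mul_ne_zero hM hP)
    obtain ⟨R', hR', hv, hR0⟩ := free_relL h0S hR J' w (by convert hzero)
    refine hmin J' hJne ⟨R', hR', hv, ?_⟩
    rw [← hw]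
    exact hR0

end Pool.Agent.Helper49.AXU
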