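import Pool.Agent.Helper49.AXU.W15
import Pool.Agent.Helper49.AXU.V1
import Pool.Agent.Helper49.AXQ.YQ3

/-! # AXU-W16: counting minimal dependent sets -/

namespace Pool.Agent.Helper49.AXU

open MvPolynomial Pool.Agent.Helper94.AXG Pool.Agent.Helper49.AXQ

/-- the numbers `∑ a_j λ_j` with integers `|a_j| ≤ H` -/
def Lam {n : ℕ} (lam : Fin n → ℂ) (H : ℕ) : Set ℂ :=
  {z | ∃ a : Fin n → ℤ, (∀ j, |a j| ≤ (H : ℤ)) ∧ z = ∑ j, (a j : ℂ) * lam j}

theorem zero_mem_Lam {n : ℕ} (lam : Fin n → ℂ) (H : ℕ) : (0 : ℂ) ∈ Lam lam H :=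
  ⟨0, fun j => by rw [Pi.zero_apply, abs_zero]; exact Int.natCast_nonneg H, by simp⟩

/-- the degrees of the universal polynomial -/
theorem PL_DegC {n k d : ℕ} (lam : Fin n → ℂ) : DegC d (KK0 k (NL n k d)) (PL (k := k) d lam) := by
  classical
  intro κ hκ
  unfold PL at hκ
  have h1 := support_sum hκ
  rw [Finset.mem_biUnion] at h1
  obtain ⟨ν, -, h2⟩ := h1
  have h3 := support_mul _ _ h2
  rw [Finset.mem_add] at h3
  obtain ⟨κ1, hκ1, κ2, hκ2, rfl⟩ := h3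
  have hν : ∀ i : Fin k, (ν.2.1 i : ℕ) ≤ d := fun i => by
    have := (ν.2.1 i).2
    omega
  have e1 : ∀ i : Fin k, κ1 (Fin.castAdd (NL n k d) i) = 0 := by
    intro i
    have h4 : (C (lam ν.1) * (C 2 * X (Fin.natAdd k (eL n k d ν)) - 1) :
          MvPolynomial (Fin (k + NL n k d)) ℂ).degreeOf (Fin.castAdd (NL n k d) i) = 0 := by
      refine Nat.le_zero.1 ((degreeOf_mul_le _ _ _).trans ?_)
      rw [degreeOf_C, zero_add]
      refine (degreeOf_sub_le _ _ _).trans (max_le ?_ ?_)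
      · refine (degreeOf_mul_le _ _ _).trans ?_
        rw [degreeOf_C, zero_add, degreeOf_X, if_neg]
        intro h5
        have h6 := congrArg Fin.val h5
        have h7 : (Fin.natAdd k (eL n k d ν)).val = k + (eL n k d ν).val := rfl
        have h8 : (Fin.castAdd (NL n k d) i).val = i.val := rfl
        have := i.2
        omega
      · rw [degreeOf_one]
    exact Nat.le_zero.1 ((monomial_le_degreeOf _ hκ1).trans h4.le)
  have e2 : ∀ i : Fin k, κ2 (Fin.castAdd (NL n k d) i) = d - (ν.2.1 i : ℕ) := by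
    intro i
    have h4 : (∏ i : Fin k, X (Fin.castAdd (NL n k d) i) ^ (d - (ν.2.1 i : ℕ)) :
        MvPolynomial (Fin (k + NL n k d)) ℂ) =
        monomial (∑ i : Fin k, Finsupp.single (Fin.castAdd (NL n k d) i) (d - (ν.2.1 i : ℕ))) 1 := by
      rw [monomial_sum_one]
      refine Finset.prod_congr rfl fun i _ => ?_
      rw [X_pow_eq_monomial]
    rw [h4] at hκ2
    have h5 := support_monomial_subset hκ2
    rw [Finset.mem_singleton] at h5
    rw [h5, Finsupp.finsetSum_apply, Finset.sum_eq_single i]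
    · rw [Finsupp.single_eq_same]
    · intro j _ hj
      rw [Finsupp.single_eq_of_ne]
      intro h6
      exact hj (Fin.castAdd_injective _ _ h6).symm
    · intro h6
      exact absurd (Finset.mem_univ i) h6
  have e3 : ∀ i : Fin k, (κ1 + κ2) (Fin.castAdd (NL n k d) i) = d - (ν.2.1 i : ℕ) := by
    intro i
    rw [Finsupp.add_apply, e1, e2, zero_add]
  refine ⟨fun s hs => ?_, ?_⟩
  · obtain ⟨i, rfl⟩ := mem_KK0 hs
    rw [e3]
    exact Nat.sub_le _ _
  · have h4 : ∑ s ∈ KK0 k (NL n k d), (d - (κ1 + κ2) s) = ∑ i : Fin k, (ν.2.1 i : ℕ) := by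
      unfold KK0
      rw [Finset.sum_map]
      refine Finset.sum_congr rfl fun i _ => ?_
      have e0 : (Fin.castAddEmb (NL n k d)) i = Fin.castAdd (NL n k d) i := rfl
      rw [e0, e3]
      have := hν i
      omega
    rw [h4]
    exact ν.2.2

theorem admU_rhoL {n k d Q : ℕ} (hQ : 1 ≤ Q) {r : Fin k → ℚ} {a : EL n k d → ℤ} {J : Finset ℚ}
    (hr : ∀ i, Rat01 Q (r i)) (hinj : Function.Injective r) (hrJ : ∀ i, r i ∈ J) (hS : NR d J id)
    (ha : ∀ ν, |a ν| ≤ (Q : ℤ)) : AdmU d (KK0 k (NL n k d)) (ptT (rhoL Q r a)) := by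
  have hq := qT_pos (rhoL Q r a)
  have hq' : (0 : ℚ) < (qT (rhoL Q r a) : ℕ) := by exact_mod_cast hq
  refine ⟨hq, fun s => ?_, ?_⟩
  · obtain ⟨h1, h2, -⟩ := rhoL_range hQ hr ha s
    have h3 := en_cast h1 (den_dvd (rhoL Q r a) s)
    have h4 : ((en (qT (rhoL Q r a)) (rhoL Q r a s) : ℕ) : ℚ) ≤ (qT (rhoL Q r a) : ℕ) := by
      rw [h3]
      calc rhoL Q r a s * (qT (rhoL Q r a) : ℕ) ≤ 1 * (qT (rhoL Q r a) : ℕ) :=
            mul_le_mul_of_nonneg_right h2 hq'.le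
        _ = _ := one_mul _
    exact_mod_cast h4
  · refine NDD_of_NR (NR_pull hS (fun s => rhoL Q r a s) (fun s hs s' hs' h => ?_) (fun s hs => ?_)
      (fun s hs => ?_))
    · obtain ⟨i, rfl⟩ := mem_KK0 (Finset.mem_coe.1 hs)
      obtain ⟨i', rfl⟩ := mem_KK0 (Finset.mem_coe.1 hs')
      simp only [rhoL_left] at h
      rw [hinj h]
    · obtain ⟨i, rfl⟩ := mem_KK0 hs
      simp only [rhoL_left]
      exact hrJ i
    · have e1 : (((((ptT (rhoL Q r a)).2 s : ℕ) : ℤ) : ℚ)) / ((ptT (rhoL Q r a)).1 : ℕ) =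
          rhoL Q r a s := by
        rw [Int.cast_natCast]
        exact en_div hq (rhoL_range hQ hr ha s).1 (den_dvd _ s)
      exact e1.symm

/-- minimal dependent sets of `k` numbers without a matching of degree `≤ d` -/
def MinL (S : Set ℂ) (k d Q : ℕ) : Set (Finset ℚ) :=
  {J : Finset ℚ | J.card = k ∧ (∀ r ∈ J, Rat01 Q r) ∧ NR d J id ∧ DepL S d J ∧
    ∀ J', J' ⊂ J → ¬ DepL S d J'}

theorem minL_finite (S : Set ℂ) (k d Q : ℕ) : (MinL S k d Q).Finite :=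
  finite_of_rat (Q := Q) fun _ hJ => hJ.2.1

/-- a relation free of some variables contradicts the minimality -/
theorem not_freeL {k d Q : ℕ} {S : Set ℂ} (h0S : (0 : ℂ) ∈ S) {J : Finset ℚ} (hJ : J ∈ MinL S k d Q)
    (J' : Finset (Fin k)) (hJ' : J'.Nonempty) : ¬ ∃ R' : MvPolynomial (Fin k) ℂ, SmL S d R' ∧
      (∀ i ∈ J', i ∉ R'.vars) ∧ eval (fun i : Fin k => Complex.Gamma ((tup k J i : ℚ) : ℂ)) R' = 0 := by
  classical
  rintro ⟨R', ⟨h1, h2, h3⟩, hfree, h0⟩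
  have hinj := tup_injective hJ.1
  let f : {i : Fin k // i ∉ J'} → Fin k := Subtype.val
  have hf : Function.Injective f := Subtype.val_injective
  have hv : (↑R'.vars : Set (Fin k)) ⊆ Set.range f := by
    intro i ho
    exact ⟨⟨i, fun hi => hfree i hi ho⟩, rfl⟩
  obtain ⟨R'', hR''⟩ := exists_rename_eq_of_vars_subset_range R' f hf hv
  have hc : ∀ ν, coeff ν R'' = coeff (ν.mapDomain f) R' := by
    intro ν
    rw [← hR'', coeff_rename_mapDomain f hf]
  refine hJ.2.2.2.2 ((Finset.univ.filter (fun i => i ∉ J')).image (tup k J)) ?_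
    (depL_of_inj h0S (σ := {i : Fin k // i ∉ J'}) (R := R'') (fun i => tup k J i.1) (fun i => ?_)
      (fun i j hij => Subtype.ext (hinj hij)) ⟨?_, ?_, fun ν => ?_⟩ ?_)
  · rw [Finset.ssubset_iff_of_subset]
    · obtain ⟨i, hi⟩ := hJ'
      refine ⟨tup k J i, (tup_range hJ.1 _).2 ⟨i, rfl⟩, fun h => ?_⟩
      obtain ⟨j, hj, hji⟩ := Finset.mem_image.1 h
      rw [hinj hji] at hj
      exact (Finset.mem_filter.1 hj).2 hi
    · intro x hx
      obtain ⟨j, -, rfl⟩ := Finset.mem_image.1 hx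
      exact (tup_range hJ.1 _).2 ⟨j, rfl⟩
  · exact Finset.mem_image_of_mem _ (Finset.mem_filter.mpr ⟨Finset.mem_univ _, i.2⟩)
  · rintro rfl
    exact h1 (by rw [← hR'', map_zero])
  · refine le_trans (Finset.sup_le fun ν hν => ?_) h2
    have h4 : ν.mapDomain f ∈ R'.support := by
      rw [mem_support_iff, ← hc]
      exact mem_support_iff.mp hν
    have h5 := le_totalDegree h4
    rwa [Finsupp.sum_mapDomain_index (fun _ => rfl) (fun _ _ _ => rfl)] at h5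
  · rw [hc]
    exact h3 _
  · rw [← hR'', eval_rename] at h0
    rw [← h0]
    rfl

/-- the number of minimal dependent sets -/
theorem count_minL_pos {k : ℕ} (hk : 1 ≤ k) (n d : ℕ) {ε : ℝ} (hε : 0 < ε) : ∃ C : ℝ, 0 ≤ C ∧
    ∀ (lam : Fin n → ℂ) (H Q : ℕ), 1 ≤ Q → H ≤ Q →
      ((MinL (Lam lam H) k d Q).ncard : ℝ) ≤ C * (Q : ℝ) ^ ε := by
  classical
  have hn0 : (0 : ℝ) < ((k + NL n k d : ℕ) : ℝ) := by
    have : 0 < k + NL n k d := by omega
    exact_mod_cast this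
  obtain ⟨C, hC⟩ := uniformU (KK0 k (NL n k d)) (k * d + 1) d (div_pos hε hn0)
  have hC0 : 0 ≤ C := by
    have h := hC 1 le_rfl 0 (by rw [totalDegree_zero]; exact Nat.zero_le _)
      (fun m hm => by rw [support_zero] at hm; exact absurd hm (Finset.notMem_empty m)) ∅ (by simp) (by simp)
    simpa using h
  refine ⟨C * 2 ^ ε, by positivity, fun lam H Q hQ hHQ => ?_⟩
  obtain ⟨S, hS⟩ : ∃ S, S = Lam lam H := ⟨_, rfl⟩
  have h0S : (0 : ℂ) ∈ S := by
    rw [hS]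
    exact zero_mem_Lam lam H
  rw [← hS]
  obtain ⟨M, hM⟩ : ∃ M, M = (minL_finite S k d Q).toFinset := ⟨_, rfl⟩
  have hMm : ∀ J, J ∈ M ↔ J ∈ MinL S k d Q := fun J => by rw [hM, Set.Finite.mem_toFinset]
  have hMc : (MinL S k d Q).ncard = M.card := by
    rw [hM]
    exact Set.ncard_eq_toFinset_card _ _
  have hrel : ∀ J : Finset ℚ, ∃ (R : MvPolynomial (Fin k) ℂ) (a : EL n k d → ℤ),
      (∀ ν, |a ν| ≤ (Q : ℤ)) ∧ (J ∈ M → SmL S d R ∧
        (∀ ν, coeff (exX ν) R = ∑ j, (a (j, ν) : ℂ) * lam j) ∧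
        eval (fun i : Fin k => Complex.Gamma ((tup k J i : ℚ) : ℂ)) R = 0) := by
    intro J
    by_cases hJ : J ∈ M
    · obtain ⟨hc, -, -, hd, -⟩ := (hMm J).1 hJ
      obtain ⟨R, h1, h2⟩ := depL_fin h0S hc hd
      have h3 : ∀ ν : EX k d, ∃ a : Fin n → ℤ, (∀ j, |a j| ≤ (H : ℤ)) ∧
          coeff (exX ν) R = ∑ j, (a j : ℂ) * lam j := by
        intro ν
        have h4 := h1.2.2 (exX ν)
        rw [hS] at h4
        exact h4
      choose a ha1 ha2 using h3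
      refine ⟨R, fun p => a p.2 p.1, fun ν => ?_, fun _ => ⟨h1, fun ν => ha2 ν, ?_⟩⟩
      · exact (ha1 _ _).trans (by exact_mod_cast hHQ)
      · unfold tup
        rw [dif_pos hc]
        exact h2
    · exact ⟨0, 0, fun ν => by rw [Pi.zero_apply, abs_zero]; exact Int.natCast_nonneg Q,
        fun h => absurd h hJ⟩
  choose R a ha hR using hrel
  have hrat : ∀ J ∈ M, ∀ i, Rat01 Q (tup k J i) := fun J hJ i =>
    ((hMm J).1 hJ).2.1 _ ((tup_range ((hMm J).1 hJ).1 _).2 ⟨i, rfl⟩)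
  have hxpt : ∀ J ∈ M, ∀ i : Fin k, xp (ptT (rhoL Q (tup k J) (a J))) (Fin.castAdd (NL n k d) i) =
      ((tup k J i : ℚ) : ℂ) := by
    intro J hJ i
    rw [xp_ptT0 fun s => (rhoL_range hQ (hrat J hJ) (ha J) s).1]
    simp only
    rw [rhoL_left]
  have hinj : ∀ J ∈ M, ∀ J' ∈ M, (fun j : KK0 k (NL n k d) => xp (ptT (rhoL Q (tup k J) (a J))) j) =
      (fun j : KK0 k (NL n k d) => xp (ptT (rhoL Q (tup k J') (a J'))) j) → J = J' := by
    intro J hJ J' hJ' h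
    refine tup_injOn ((hMm J).1 hJ).1 ((hMm J').1 hJ').1 (funext fun i => ?_)
    have h1 := congrFun h ⟨Fin.castAdd (NL n k d) i, castAdd_mem _ _ i⟩
    simp only at h1
    rw [hxpt J hJ, hxpt J' hJ'] at h1
    exact_mod_cast h1
  have hinj' : Set.InjOn (fun J => ptT (rhoL Q (tup k J) (a J))) (M : Set (Finset ℚ)) := by
    intro J hJ J' hJ' h
    refine hinj J hJ J' hJ' ?_
    have h' : ptT (rhoL Q (tup k J) (a J)) = ptT (rhoL Q (tup k J') (a J')) := h
    rw [h']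
  have h := hC ((2 * Q) ^ (k + NL n k d)) (Nat.one_le_pow _ _ (by omega)) (PL d lam) (PL_deg lam)
    (PL_DegC lam)
    (M.image (fun J => ptT (rhoL Q (tup k J) (a J)))) (by
      intro x hx y hy hxy
      rw [Finset.mem_coe, Finset.mem_image] at hx hy
      obtain ⟨J, hJ, rfl⟩ := hx
      obtain ⟨J', hJ', rfl⟩ := hy
      rw [hinj J hJ J' hJ' hxy]) (by
      intro x hx
      rw [Finset.mem_image] at hx
      obtain ⟨J, hJ, rfl⟩ := hx
      have hm := (hMm J).1 hJ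
      refine ⟨admU_rhoL hQ (hrat J hJ) (tup_injective hm.1) (fun i => (tup_range hm.1 _).2 ⟨i, rfl⟩)
        hm.2.2.1 (ha J), qT_le fun s => (rhoL_range hQ (hrat J hJ) (ha J) s).2.2, ?_⟩
      exact zrU_of_minL hQ h0S lam (hrat J hJ) (hR J hJ).1 (a J) (ha J) (hR J hJ).2.1 (hR J hJ).2.2
        (fun J' hJ' => not_freeL h0S hm J' hJ'))
  rw [Finset.card_image_of_injOn hinj'] at h
  rw [hMc]
  refine h.trans (le_of_eq ?_)
  have hQ0 : (0 : ℝ) ≤ Q := Nat.cast_nonneg Q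
  have h2Q : (0 : ℝ) ≤ 2 * Q := by positivity
  rw [Nat.cast_pow, Nat.cast_mul, Nat.cast_ofNat, ← Real.rpow_natCast (2 * (Q : ℝ)) (k + NL n k d),
    ← Real.rpow_mul h2Q, mul_div_cancel₀ _ hn0.ne', Real.mul_rpow (by norm_num) hQ0]
  ring

end Pool.Agent.Helper49.AXU
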