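import Pool.Agent.Helper49.AXU.W16
import Pool.Agent.Helper94.AXG.Y1

/-! # AXU-W17: the counting theorems -/

namespace Pool.Agent.Helper49.AXU

open MvPolynomial Pool.Agent.Helper94.AXG Pool.Agent.Helper49.AXQ

/-- dependent sets of `k` numbers without a matching of degree `≤ d` -/
def AllL (S : Set ℂ) (k d Q : ℕ) : Set (Finset ℚ) :=
  {J : Finset ℚ | J.card = k ∧ (∀ r ∈ J, Rat01 Q r) ∧ NR d J id ∧ DepL S d J}

theorem allL_finite (S : Set ℂ) (k d Q : ℕ) : (AllL S k d Q).Finite :=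
  finite_of_rat (Q := Q) fun _ hJ => hJ.2.1

theorem not_depL_empty (S : Set ℂ) (d : ℕ) : ¬ DepL S d ∅ := by
  rintro ⟨P, hP, -, -, h0⟩
  haveI : IsEmpty (↥(∅ : Finset ℚ)) := ⟨fun x => absurd x.2 (Finset.notMem_empty _)⟩
  rw [eq_C_of_isEmpty P, eval_C] at h0
  exact hP (by rw [eq_C_of_isEmpty P, h0, map_zero])

theorem count_minL (k n d : ℕ) {ε : ℝ} (hε : 0 < ε) : ∃ C : ℝ, 0 ≤ C ∧
    ∀ (lam : Fin n → ℂ) (H Q : ℕ), 1 ≤ Q → H ≤ Q →
      ((MinL (Lam lam H) k d Q).ncard : ℝ) ≤ C * (Q : ℝ) ^ ε := by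
  rcases Nat.eq_zero_or_pos k with hk | hk
  · subst hk
    refine ⟨0, le_rfl, fun lam H Q hQ _ => ?_⟩
    have h1 : MinL (Lam lam H) 0 d Q = ∅ := by
      ext J
      simp only [Set.mem_empty_iff_false, iff_false]
      intro hJ
      have h2 := Finset.card_eq_zero.1 hJ.1
      have h3 := hJ.2.2.2.1
      rw [h2] at h3
      exact not_depL_empty _ _ h3
    rw [h1, Set.ncard_empty]
    simp
  · exact count_minL_pos hk n d hε

private theorem w17_pow {Q B : ℕ} (hB : 1 ≤ B) (ε : ℝ) :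
    ((Q ^ B : ℕ) : ℝ) ^ (ε / B) = (Q : ℝ) ^ ε := by
  have hB' : (B : ℝ) ≠ 0 := by
    have : B ≠ 0 := by omega
    exact_mod_cast this
  rw [Nat.cast_pow, ← Real.rpow_natCast, ← Real.rpow_mul (Nat.cast_nonneg Q), mul_div_cancel₀ _ hB']

theorem rat01_le {Q Q' : ℕ} {r : ℚ} (h : Rat01 Q r) (hQ : Q ≤ Q') : Rat01 Q' r :=
  ⟨h.1, h.2.1, h.2.2.trans hQ⟩

/-- the number of minimal dependent sets, coefficients up to a power of `Q` -/
theorem count_minLA (k n d A : ℕ) {ε : ℝ} (hε : 0 < ε) : ∃ C : ℝ, 0 ≤ C ∧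
    ∀ (lam : Fin n → ℂ) (H Q : ℕ), 1 ≤ Q → H ≤ Q ^ A →
      ((MinL (Lam lam H) k d Q).ncard : ℝ) ≤ C * (Q : ℝ) ^ ε := by
  obtain ⟨B, hB1, hB2⟩ : ∃ B, 1 ≤ B ∧ A ≤ B := ⟨max A 1, le_max_right _ _, le_max_left _ _⟩
  have hB0 : (0 : ℝ) < B := by exact_mod_cast hB1
  obtain ⟨C, hC0, hC⟩ := count_minL k n d (div_pos hε hB0)
  refine ⟨C, hC0, fun lam H Q hQ hH => ?_⟩
  have h1 : MinL (Lam lam H) k d Q ⊆ MinL (Lam lam H) k d (Q ^ B) := fun J hJ =>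
    ⟨hJ.1, fun r hr => rat01_le (hJ.2.1 r hr) (Nat.le_self_pow (by omega) Q), hJ.2.2⟩
  have h2 := Set.ncard_le_ncard h1 (minL_finite _ _ _ _)
  have h3 := hC lam H (Q ^ B) (Nat.one_le_pow _ _ hQ) (hH.trans (Nat.pow_le_pow_right hQ hB2))
  rw [w17_pow hB1] at h3
  exact (by exact_mod_cast h2 : ((MinL (Lam lam H) k d Q).ncard : ℝ) ≤
    (MinL (Lam lam H) k d (Q ^ B)).ncard).trans h3

theorem exists_minL' {S : Set ℂ} {d : ℕ} {J : Finset ℚ} (h : DepL S d J) :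
    ∃ J', J' ⊆ J ∧ DepL S d J' ∧ ∀ J'', J'' ⊂ J' → ¬ DepL S d J'' := by
  classical
  induction hn : J.card using Nat.strong_induction_on generalizing J with
  | _ n ih =>
  by_cases hc : ∃ J'', J'' ⊂ J ∧ DepL S d J''
  · obtain ⟨J'', h1, h2⟩ := hc
    obtain ⟨J', h3, h4, h5⟩ := ih J''.card (by rw [← hn]; exact Finset.card_lt_card h1) h2 rfl
    exact ⟨J', h3.trans h1.1, h4, h5⟩
  · push Not at hc
    exact ⟨J, Finset.Subset.refl J, h, hc⟩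

theorem exists_minL {k d Q : ℕ} {S : Set ℂ} {J : Finset ℚ} (hJ : J ∈ AllL S k d Q) :
    ∃ J', J' ⊆ J ∧ 1 ≤ J'.card ∧ J'.card ≤ k ∧ J' ∈ MinL S J'.card d Q := by
  obtain ⟨h1, h2, h3, h4⟩ := hJ
  obtain ⟨J', h5, h6, h7⟩ := exists_minL' h4
  refine ⟨J', h5, ?_, ?_, rfl, fun r hr => h2 r (h5 hr), h3.mono h5, h6, h7⟩
  · rw [Nat.one_le_iff_ne_zero, Ne, Finset.card_eq_zero]
    intro h
    rw [h] at h6
    exact not_depL_empty _ _ h6
  · rw [← h1]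
    exact Finset.card_le_card h5

/-- from minimal dependent sets to dependent sets -/
theorem allL_of_min {k d Q : ℕ} {S : Set ℂ} {C : ℕ → ℝ} {B : ℝ} (hB : 0 ≤ B)
    (hC : ∀ j, ((MinL S j d Q).ncard : ℝ) ≤ C j * B) (hC0 : ∀ j, 0 ≤ C j)
    (hQ : 1 ≤ Q) : ((AllL S k d Q).ncard : ℝ) ≤
      (∑ j ∈ Finset.Icc 1 k, C j * 4 ^ (k - 1)) * (B * (Q : ℝ) ^ (2 * ((k : ℝ) - 1))) := by
  classical
  have hQ' : (1 : ℝ) ≤ Q := by exact_mod_cast hQ
  have hQ0 : (0 : ℝ) < Q := by linarith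
  obtain ⟨A, hA⟩ : ∃ A, A = (allL_finite S k d Q).toFinset := ⟨_, rfl⟩
  obtain ⟨M, hM⟩ : ∃ M : ℕ → Finset (Finset ℚ), M = fun j => (minL_finite S j d Q).toFinset := ⟨_, rfl⟩
  have hAc : (AllL S k d Q).ncard = A.card := by
    rw [hA]
    exact Set.ncard_eq_toFinset_card _ _
  have hMc : ∀ j, (MinL S j d Q).ncard = (M j).card := by
    intro j
    rw [hM]
    exact Set.ncard_eq_toFinset_card _ _
  have hsub : A ⊆ (Finset.Icc 1 k).biUnion (fun j =>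
      (M j ×ˢ (ratSet Q).powersetCard (k - j)).image (fun p => p.1 ∪ p.2)) := by
    intro J hJ
    rw [hA, Set.Finite.mem_toFinset] at hJ
    obtain ⟨J', h1, h2, h3, h4⟩ := exists_minL hJ
    rw [Finset.mem_biUnion]
    refine ⟨J'.card, Finset.mem_Icc.2 ⟨h2, h3⟩, ?_⟩
    rw [Finset.mem_image]
    refine ⟨(J', J \ J'), ?_, Finset.union_sdiff_of_subset h1⟩
    rw [Finset.mem_product, Finset.mem_powersetCard]
    refine ⟨?_, fun r hr => mem_ratSet (hJ.2.1 r (Finset.mem_sdiff.1 hr).1), ?_⟩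
    · rw [hM]
      exact (Set.Finite.mem_toFinset _).2 h4
    · rw [Finset.card_sdiff_of_subset h1, hJ.1]
  have hone : ∀ j ∈ Finset.Icc 1 k,
      (((M j ×ˢ (ratSet Q).powersetCard (k - j)).image (fun p => p.1 ∪ p.2)).card : ℝ) ≤
        (C j * 4 ^ (k - 1)) * (B * (Q : ℝ) ^ (2 * ((k : ℝ) - 1))) := by
    intro j hj
    obtain ⟨hj1, hj2⟩ := Finset.mem_Icc.1 hj
    have h1 : (((M j ×ˢ (ratSet Q).powersetCard (k - j)).image (fun p => p.1 ∪ p.2)).card : ℝ) ≤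
        ((M j).card : ℝ) * ((4 * Q ^ 2 : ℕ) : ℝ) ^ (k - j) := by
      have h2 := Finset.card_image_le (s := M j ×ˢ (ratSet Q).powersetCard (k - j))
        (f := fun p => p.1 ∪ p.2)
      rw [Finset.card_product, Finset.card_powersetCard] at h2
      have h3 : ((ratSet Q).card).choose (k - j) ≤ (4 * Q ^ 2) ^ (k - j) :=
        (Nat.choose_le_pow _ _).trans (Nat.pow_le_pow_left (card_ratSet hQ) _)
      have h4 := h2.trans (Nat.mul_le_mul_left _ h3)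
      exact_mod_cast h4
    have h5 : ((4 * Q ^ 2 : ℕ) : ℝ) ^ (k - j) ≤ 4 ^ (k - 1) * (Q : ℝ) ^ (2 * ((k : ℝ) - 1)) := by
      have h6 : (1 : ℝ) ≤ ((4 * Q ^ 2 : ℕ) : ℝ) := by
        have : 1 ≤ 4 * Q ^ 2 := by nlinarith
        exact_mod_cast this
      refine (pow_le_pow_right₀ h6 (Nat.sub_le_sub_left hj1 k)).trans (le_of_eq ?_)
      have h7 : 2 * ((k : ℝ) - 1) = ((2 * (k - 1) : ℕ) : ℝ) := by
        rw [Nat.cast_mul, Nat.cast_sub (by omega)]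
        push_cast
        ring
      rw [h7, Real.rpow_natCast]
      push_cast
      rw [mul_pow, ← pow_mul]
    have h8 : ((M j).card : ℝ) ≤ C j * B := by
      rw [← hMc]
      exact hC j
    refine h1.trans ?_
    calc ((M j).card : ℝ) * ((4 * Q ^ 2 : ℕ) : ℝ) ^ (k - j)
        ≤ (C j * B) * (4 ^ (k - 1) * (Q : ℝ) ^ (2 * ((k : ℝ) - 1))) :=
          mul_le_mul h8 h5 (by positivity) (mul_nonneg (hC0 j) hB)
      _ = _ := by ring
  rw [hAc]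
  have h1 : (A.card : ℝ) ≤ ∑ j ∈ Finset.Icc 1 k,
      (((M j ×ˢ (ratSet Q).powersetCard (k - j)).image (fun p => p.1 ∪ p.2)).card : ℝ) := by
    have h2 := (Finset.card_le_card hsub).trans Finset.card_biUnion_le
    exact_mod_cast h2
  refine h1.trans ((Finset.sum_le_sum hone).trans (le_of_eq ?_))
  rw [← Finset.sum_mul]

/-- the number of minimal dependent sets -/
theorem count_minLH (k n d : ℕ) {ε : ℝ} (hε : 0 < ε) : ∃ C : ℝ, 0 ≤ C ∧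
    ∀ (lam : Fin n → ℂ) (H Q : ℕ), 1 ≤ Q → 1 ≤ H →
      ((MinL (Lam lam H) k d Q).ncard : ℝ) ≤ C * ((Q : ℝ) * H) ^ ε := by
  obtain ⟨C, hC0, hC⟩ := count_minL k n d hε
  refine ⟨C, hC0, fun lam H Q hQ hH => ?_⟩
  have h1 : MinL (Lam lam H) k d Q ⊆ MinL (Lam lam H) k d (Q * H) := fun J hJ =>
    ⟨hJ.1, fun r hr => rat01_le (hJ.2.1 r hr) (Nat.le_mul_of_pos_right Q hH), hJ.2.2⟩
  have h2 := Set.ncard_le_ncard h1 (minL_finite _ _ _ _)
  have h3 := hC lam H (Q * H) (Nat.mul_pos hQ hH) (Nat.le_mul_of_pos_left H hQ)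
  rw [Nat.cast_mul] at h3
  exact (by exact_mod_cast h2 : ((MinL (Lam lam H) k d Q).ncard : ℝ) ≤
    (MinL (Lam lam H) k d (Q * H)).ncard).trans h3

/-- the number of dependent sets -/
theorem count_allLH (k n d : ℕ) {ε : ℝ} (hε : 0 < ε) : ∃ C : ℝ, 0 ≤ C ∧
    ∀ (lam : Fin n → ℂ) (H Q : ℕ), 1 ≤ Q → 1 ≤ H →
      ((AllL (Lam lam H) k d Q).ncard : ℝ) ≤
        C * (((Q : ℝ) * H) ^ ε * (Q : ℝ) ^ (2 * ((k : ℝ) - 1))) := by
  classical
  choose C hC0 hC using fun j : ℕ => count_minLH j n d hε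
  exact ⟨∑ j ∈ Finset.Icc 1 k, C j * 4 ^ (k - 1),
    Finset.sum_nonneg fun j _ => mul_nonneg (hC0 j) (by positivity), fun lam H Q hQ hH =>
    allL_of_min (by positivity) (fun j => hC j lam H Q hQ hH) hC0 hQ⟩

end Pool.Agent.Helper49.AXU
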