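import Pool.Agent.Helper49.AXU.W17
import Pool.Agent.Helper94.AXG.Y2

/-!
# AXU-W18: relations with `π`, linear relations
-/

namespace Pool.Agent.Helper49.AXU

open MvPolynomial Pool.Agent.Helper94.AXG Pool.Agent.Helper49.AXQ

/-- the coefficients of the image of an integer polynomial -/
theorem coeff_piSub {σ : Type} [Fintype σ] {d : ℕ} {P : MvPolynomial (Option σ) ℤ}
    (hd : P.totalDegree ≤ d) (ν : σ →₀ ℕ) : coeff ν (piSub P) =
      ∑ j : Fin (d + 1), ((coeff (ν.optionElim (j : ℕ)) P : ℤ) : ℂ) * (Real.pi : ℂ) ^ (j : ℕ) := by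
  classical
  have hterm : ∀ κ : Option σ →₀ ℕ, ∏ o, (o.elim (C (Real.pi : ℂ)) X : MvPolynomial σ ℂ) ^ κ o =
      monomial κ.some ((Real.pi : ℂ) ^ κ none) := by
    intro κ
    rw [Fintype.prod_option, monomial_eq, Finsupp.prod_fintype _ _ (fun o => pow_zero _), map_pow]
    rfl
  have h1 : coeff ν (piSub P) = ∑ κ ∈ P.support.filter (fun κ => κ.some = ν),
      ((coeff κ P : ℤ) : ℂ) * (Real.pi : ℂ) ^ κ none := by
    unfold piSub
    rw [aeval_eq_eval₂Hom, coe_eval₂Hom, eval₂_eq', coeff_sum, Finset.sum_filter]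
    refine Finset.sum_congr rfl fun κ _ => ?_
    rw [hterm]
    have e2 : (algebraMap ℤ (MvPolynomial σ ℂ)) (coeff κ P) = C ((coeff κ P : ℤ) : ℂ) := by
      simp
    rw [e2, coeff_C_mul, coeff_monomial]
    by_cases hc : κ.some = ν
    · rw [if_pos hc, if_pos hc]
    · rw [if_neg hc, if_neg hc, mul_zero]
  have hinj : Function.Injective (fun j : Fin (d + 1) => ν.optionElim (j : ℕ)) := by
    intro i j hij
    have := DFunLike.congr_fun hij none
    simp only [Finsupp.optionElim_apply_none] at this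
    exact Fin.ext this
  rw [h1, Finset.sum_subset (s₂ := Finset.univ.image (fun j : Fin (d + 1) => ν.optionElim (j : ℕ))),
    Finset.sum_image (fun a _ b _ h => hinj h)]
  · simp only [Finsupp.optionElim_apply_none]
  · intro κ hκ
    obtain ⟨h2, h3⟩ := Finset.mem_filter.1 hκ
    have h4 : κ none ≤ d := by
      have h5 := le_totalDegree h2
      have h6 : κ none ≤ κ.sum fun _ e => e := by
        have h7 := Finsupp.le_degree none κ
        simpa [Finsupp.degree, Finsupp.sum] using h7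
      omega
    refine Finset.mem_image.2 ⟨⟨κ none, by omega⟩, Finset.mem_univ _, ?_⟩
    ext o
    cases o with
    | none => simp
    | some i => simp [← h3]
  · intro κ hκ hκ'
    obtain ⟨j, -, rfl⟩ := Finset.mem_image.1 hκ
    have h2 : coeff (ν.optionElim (j : ℕ)) P = 0 := by
      by_contra hne
      apply hκ'
      refine Finset.mem_filter.2 ⟨mem_support_iff.2 hne, ?_⟩
      ext i
      simp
    rw [h2, Int.cast_zero, zero_mul]

/-- a relation between `π` and the `Γ(r)` is a relation between the `Γ(r)` over `ℤ + ℤ π + ... + ℤ π^d` -/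
theorem depL_of_pi {d H : ℕ} {J : Finset ℚ} (P : MvPolynomial (Option J) ℤ) (hP : P ≠ 0)
    (hd : P.totalDegree ≤ d) (hH : ∀ ν, |coeff ν P| ≤ (H : ℤ))
    (h0 : aeval (fun o : Option J => o.elim (Real.pi : ℂ) (fun r => Complex.Gamma ((r : ℚ) : ℂ))) P = 0) :
    DepL (Lam (fun j : Fin (d + 1) => (Real.pi : ℂ) ^ (j : ℕ)) H) d J := by
  refine ⟨piSub P, piSub_ne hP, (piSub_deg P).trans hd, fun ν => ?_, ?_⟩
  · exact ⟨fun j => coeff (ν.optionElim (j : ℕ)) P, fun j => hH _, coeff_piSub hd ν⟩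
  · rw [← h0]
    have e : (eval (fun r : J => Complex.Gamma ((r : ℚ) : ℂ))).comp
        (aeval (fun o : Option J => (o.elim (C (Real.pi : ℂ)) X : MvPolynomial J ℂ)) :
          MvPolynomial (Option J) ℤ →ₐ[ℤ] MvPolynomial J ℂ).toRingHom =
        (aeval (fun o : Option J => o.elim (Real.pi : ℂ) (fun r => Complex.Gamma ((r : ℚ) : ℂ))) :
          MvPolynomial (Option J) ℤ →ₐ[ℤ] ℂ).toRingHom := by
      apply MvPolynomial.ringHom_ext
      · intro c
        simp
      · intro o
        cases o with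
        | none => simp
        | some i => simp
    exact congrArg (fun f => f P) e

/-- linear relations: only `1/2` is excluded -/
theorem stdInd_one {J : Finset ℚ} (hJ : ∀ r ∈ J, 0 < r ∧ r < 1) : StdInd 1 J ↔ (1 / 2 : ℚ) ∉ J := by
  classical
  constructor
  · intro h hmem
    have key := h (fun r => if r = 1 / 2 then 1 else 0) (fun _ => 0) (by
      rw [Finset.sum_ite_eq' J (1 / 2 : ℚ), if_pos hmem]) (by simp) (fun u hu => ?_) _ hmem
    · simp at key
    · rw [Finset.sum_eq_single (1 / 2 : ℚ)]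
      · have h2 : IsCoprime u 2 := by
          have h3 := hu _ hmem
          have h4 : ((1 / 2 : ℚ).den : ℤ) = 2 := by norm_num
          rwa [h4] at h3
        obtain ⟨w, hw⟩ : ∃ w : ℤ, u = 2 * w + 1 := by
          rcases Int.even_or_odd u with h3 | h3
          · exfalso
            have h5 : (2 : ℤ) ∣ 1 := by
              have h6 := Int.isCoprime_iff_gcd_eq_one.1 h2
              have h7 : (2 : ℤ) ∣ (Int.gcd u 2 : ℤ) := Int.dvd_coe_gcd h3.two_dvd dvd_rfl
              rw [h6] at h7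
              exact_mod_cast h7
            norm_num at h5
          · exact h3
        have h5 : (u : ℚ) * (1 / 2) = 1 / 2 + (w : ℤ) := by
          rw [hw]
          push_cast
          ring
        rw [h5, B1_add_int]
        unfold B1
        norm_num
      · intro b _ hb
        rw [if_neg hb]
        simp
      · intro hn
        exact absurd hmem hn
  · intro h m n hm hn hu
    have h1 := hu 1 (fun r _ => isCoprime_one_left)
    have hB : ∀ r ∈ J, B1 (((1 : ℤ) : ℚ) * r) = r - 1 / 2 := by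
      intro r hr
      unfold B1
      rw [Int.cast_one, one_mul, Int.fract_eq_self.2 ⟨(hJ r hr).1.le, (hJ r hr).2⟩]
    rw [Finset.sum_congr rfl fun r hr => by rw [hB r hr]] at h1
    have hdich : ∀ f : ℚ → ℕ, ∑ r ∈ J, f r ≤ 1 → (∀ r ∈ J, f r = 0) ∨
        ∃ s ∈ J, f s = 1 ∧ ∀ r ∈ J, r ≠ s → f r = 0 := by
      intro f hf
      by_cases h2 : ∀ r ∈ J, f r = 0
      · exact Or.inl h2
      · push Not at h2
        obtain ⟨s, hs, hs0⟩ := h2
        have h3 := Finset.add_sum_erase J f hs
        have h4 : ∑ r ∈ J.erase s, f r = 0 := by omega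
        refine Or.inr ⟨s, hs, by omega, fun r hr hne => ?_⟩
        exact (Finset.sum_eq_zero_iff.1 h4) r (Finset.mem_erase.2 ⟨hne, hr⟩)
    have hval : ∀ f : ℚ → ℕ, ∑ r ∈ J, f r ≤ 1 → ∀ F : ℚ → ℚ, (∑ r ∈ J, (f r : ℚ) * F r = 0 ∧
        ∀ r ∈ J, f r = 0) ∨ ∃ s ∈ J, f s = 1 ∧ (∀ r ∈ J, r ≠ s → f r = 0) ∧
          ∑ r ∈ J, (f r : ℚ) * F r = F s := by
      intro f hf F
      rcases hdich f hf with h2 | ⟨s, hs, hs1, h2⟩
      · exact Or.inl ⟨Finset.sum_eq_zero fun r hr => by rw [h2 r hr]; simp, h2⟩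
      · refine Or.inr ⟨s, hs, hs1, h2, ?_⟩
        rw [Finset.sum_eq_single_of_mem s hs fun r hr hne => by rw [h2 r hr hne]; simp, hs1]
        simp
    have h2 : ∑ r ∈ J, (m r : ℚ) * (r - 1 / 2) = ∑ r ∈ J, (n r : ℚ) * (r - 1 / 2) := by
      rw [← sub_eq_zero, ← Finset.sum_sub_distrib, ← h1]
      refine Finset.sum_congr rfl fun r _ => ?_
      ring
    rcases hval m hm (fun r => r - 1 / 2) with ⟨e1, e2⟩ | ⟨s, hs, hs1, e2, e1⟩
    · rcases hval n hn (fun r => r - 1 / 2) with ⟨e3, e4⟩ | ⟨s', hs', hs1', e4, e3⟩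
      · intro r hr
        rw [e2 r hr, e4 r hr]
      · exfalso
        have h3 : s' - 1 / 2 = 0 := by
          rw [← e3, ← h2, e1]
        exact h (by rw [← sub_eq_zero.1 h3]; exact hs')
    · rcases hval n hn (fun r => r - 1 / 2) with ⟨e3, e4⟩ | ⟨s', hs', hs1', e4, e3⟩
      · exfalso
        have h3 : s - 1 / 2 = 0 := by
          rw [← e1, h2, e3]
        exact h (by rw [← sub_eq_zero.1 h3]; exact hs)
      · have h3 : s - 1 / 2 = s' - 1 / 2 := by
          rw [← e1, h2, e3]
        have h4 : s = s' := by linarith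
        subst h4
        intro r hr
        by_cases hrs : r = s
        · rw [hrs, hs1, hs1']
        · rw [e2 r hr hrs, e4 r hr hrs]

end Pool.Agent.Helper49.AXU
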