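import Pool.Agent.Helper49.AXU.W17

/-! # AXU-W19: all parameters tend to infinity -/

namespace Pool.Agent.Helper49.AXU

open MvPolynomial Filter Topology Pool.Agent.Helper94.AXG Pool.Agent.Helper49.AXQ

/-- minimal dependent sets of at most `k` numbers without a matching of degree `≤ d` -/
def MinLe (S : Set ℂ) (k d Q : ℕ) : Set (Finset ℚ) :=
  {J : Finset ℚ | J.card ≤ k ∧ (∀ r ∈ J, Rat01 Q r) ∧ NR d J id ∧ DepL S d J ∧
    ∀ J', J' ⊂ J → ¬ DepL S d J'}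

theorem minLe_finite (S : Set ℂ) (k d Q : ℕ) : (MinLe S k d Q).Finite :=
  finite_of_rat (Q := Q) fun _ hJ => hJ.2.1

theorem minLe_trivial (S : Set ℂ) (k d : ℕ) {Q Q0 : ℕ} (hQ : 1 ≤ Q) (hQ0 : Q ≤ Q0) :
    ((MinLe S k d Q).ncard : ℝ) ≤ 2 ^ (4 * Q0 ^ 2) := by
  have h1 : MinLe S k d Q ⊆ ((ratSet Q).powerset : Set (Finset ℚ)) := by
    intro J hJ
    rw [Finset.mem_coe, Finset.mem_powerset]
    exact fun r hr => mem_ratSet (hJ.2.1 r hr)
  have h2 := Set.ncard_le_ncard h1 (Finset.finite_toSet _)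
  rw [Set.ncard_coe_finset, Finset.card_powerset] at h2
  have h3 : 2 ^ (ratSet Q).card ≤ 2 ^ (4 * Q0 ^ 2) := by
    refine Nat.pow_le_pow_right (by norm_num) ((card_ratSet hQ).trans ?_)
    exact Nat.mul_le_mul_left _ (Nat.pow_le_pow_left hQ0 2)
  exact_mod_cast h2.trans h3

theorem minLe_le_sum (S : Set ℂ) (k d Q : ℕ) :
    ((MinLe S k d Q).ncard : ℝ) ≤ ∑ j ∈ Finset.range (k + 1), ((MinL S j d Q).ncard : ℝ) := by
  classical
  obtain ⟨M, hM⟩ : ∃ M : ℕ → Finset (Finset ℚ), M = fun j => (minL_finite S j d Q).toFinset := ⟨_, rfl⟩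
  have hMc : ∀ j, (MinL S j d Q).ncard = (M j).card := by
    intro j
    rw [hM]
    exact Set.ncard_eq_toFinset_card _ _
  have h1 : MinLe S k d Q ⊆ (((Finset.range (k + 1)).biUnion M : Finset (Finset ℚ)) :
      Set (Finset ℚ)) := by
    intro J hJ
    rw [Finset.mem_coe, Finset.mem_biUnion]
    refine ⟨J.card, Finset.mem_range.2 (by have := hJ.1; omega), ?_⟩
    rw [hM]
    exact (Set.Finite.mem_toFinset _).2 ⟨rfl, hJ.2⟩
  have h2 := Set.ncard_le_ncard h1 (Finset.finite_toSet _)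
  rw [Set.ncard_coe_finset] at h2
  have h3 := h2.trans Finset.card_biUnion_le
  have h4 : (((MinLe S k d Q).ncard : ℕ) : ℝ) ≤ ((∑ j ∈ Finset.range (k + 1), (M j).card : ℕ) : ℝ) := by
    exact_mod_cast h3
  refine h4.trans (le_of_eq ?_)
  push_cast
  exact Finset.sum_congr rfl fun j _ => by rw [hMc]

/-- the sizes, the degrees, the numbers of constants and the exponents of the heights tend to infinity -/
theorem count_diag : ∃ m : ℕ → ℕ, Tendsto m atTop atTop ∧ ∀ ε : ℝ, 0 < ε → ∃ C : ℝ, 0 ≤ C ∧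
    ∀ (Q n d H : ℕ) (lam : Fin n → ℂ), 1 ≤ Q → n ≤ m Q → d ≤ m Q → H ≤ Q ^ m Q →
      ((MinLe (Lam lam H) (m Q) d Q).ncard : ℝ) ≤ C * (Q : ℝ) ^ ε := by
  classical
  have hpos : ∀ N : ℕ, (0 : ℝ) < 1 / ((N : ℝ) + 1) := fun N => by positivity
  choose C hC0 hC using fun (k n d N : ℕ) => count_minLA k n d N (hpos N)
  obtain ⟨CC, hCC⟩ : ∃ CC : ℕ → ℝ, CC = fun N => ∑ n ∈ Finset.range (N + 1),
      ∑ d ∈ Finset.range (N + 1), ∑ j ∈ Finset.range (N + 1), C j n d N := ⟨_, rfl⟩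
  have hCC1 : ∀ N n d : ℕ, n ≤ N → d ≤ N → ∑ j ∈ Finset.range (N + 1), C j n d N ≤ CC N := by
    intro N n d hn hd
    rw [hCC]
    have h1 : ∑ j ∈ Finset.range (N + 1), C j n d N ≤
        ∑ d ∈ Finset.range (N + 1), ∑ j ∈ Finset.range (N + 1), C j n d N :=
      Finset.single_le_sum (f := fun d => ∑ j ∈ Finset.range (N + 1), C j n d N)
        (fun d _ => Finset.sum_nonneg fun j _ => hC0 _ _ _ _) (Finset.mem_range.2 (by omega))
    refine h1.trans ?_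
    exact Finset.single_le_sum (f := fun n => ∑ d ∈ Finset.range (N + 1),
      ∑ j ∈ Finset.range (N + 1), C j n d N) (fun n _ => Finset.sum_nonneg fun d _ =>
        Finset.sum_nonneg fun j _ => hC0 _ _ _ _) (Finset.mem_range.2 (by omega))
  obtain ⟨Pr, hPr⟩ : ∃ Pr : ℕ → ℕ → Prop, Pr = fun (Q N : ℕ) => CC N ≤ (Q : ℝ) ^ (1 / ((N : ℝ) + 1)) :=
    ⟨_, rfl⟩
  have hPr1 : ∀ Q N, Pr Q N ↔ CC N ≤ (Q : ℝ) ^ (1 / ((N : ℝ) + 1)) := fun Q N => by rw [hPr]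
  have hev : ∀ N, ∀ᶠ Q in atTop, Pr Q N := by
    intro N
    have h1 : Tendsto (fun Q : ℕ => (Q : ℝ) ^ (1 / ((N : ℝ) + 1))) atTop atTop :=
      (tendsto_rpow_atTop (hpos N)).comp tendsto_natCast_atTop_atTop
    filter_upwards [h1.eventually_ge_atTop (CC N)] with Q hQ
    exact (hPr1 Q N).2 hQ
  obtain ⟨m, hm⟩ : ∃ m : ℕ → ℕ, m = fun Q => Nat.findGreatest (Pr Q) Q := ⟨_, rfl⟩
  have hmN : ∀ N, ∀ᶠ Q in atTop, N ≤ m Q ∧ Pr Q (m Q) := by
    intro N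
    filter_upwards [hev N, eventually_ge_atTop N] with Q h1 h2
    rw [hm]
    exact ⟨Nat.le_findGreatest h2 h1, Nat.findGreatest_spec h2 h1⟩
  refine ⟨m, ?_, fun ε hε => ?_⟩
  · rw [tendsto_atTop]
    intro N
    filter_upwards [hmN N] with Q h
    exact h.1
  · obtain ⟨N0, hN0⟩ := exists_nat_ge (2 / ε)
    obtain ⟨Q0, hQ0⟩ := eventually_atTop.1 (hmN N0)
    refine ⟨2 ^ (4 * Q0 ^ 2), by positivity, fun Q n d H lam hQ hn hd hH => ?_⟩
    have hQ1 : (1 : ℝ) ≤ Q := by exact_mod_cast hQ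
    have hQε : (1 : ℝ) ≤ (Q : ℝ) ^ ε := Real.one_le_rpow hQ1 hε.le
    have hbig : (1 : ℝ) ≤ 2 ^ (4 * Q0 ^ 2) := one_le_pow₀ (by norm_num)
    rcases Nat.lt_or_ge Q Q0 with hlt | hge
    · refine (minLe_trivial _ _ _ hQ hlt.le).trans ?_
      exact le_mul_of_one_le_right (by linarith) hQε
    · obtain ⟨h1, h2⟩ := hQ0 Q hge
      rw [hPr1] at h2
      have h3 : ((MinLe (Lam lam H) (m Q) d Q).ncard : ℝ) ≤
          (∑ j ∈ Finset.range (m Q + 1), C j n d (m Q)) * (Q : ℝ) ^ (1 / ((m Q : ℝ) + 1)) := by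
        refine (minLe_le_sum _ _ _ _).trans ?_
        rw [Finset.sum_mul]
        exact Finset.sum_le_sum fun j _ => hC j n d (m Q) lam H Q hQ hH
      have h4 : (0 : ℝ) ≤ (Q : ℝ) ^ (1 / ((m Q : ℝ) + 1)) := by positivity
      have h5 : ((MinLe (Lam lam H) (m Q) d Q).ncard : ℝ) ≤
          (Q : ℝ) ^ (1 / ((m Q : ℝ) + 1)) * (Q : ℝ) ^ (1 / ((m Q : ℝ) + 1)) :=
        h3.trans (mul_le_mul_of_nonneg_right ((hCC1 _ _ _ hn hd).trans h2) h4)
      have h6 : (Q : ℝ) ^ (1 / ((m Q : ℝ) + 1)) * (Q : ℝ) ^ (1 / ((m Q : ℝ) + 1)) ≤ (Q : ℝ) ^ ε := by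
        rw [← Real.rpow_add (by linarith)]
        refine Real.rpow_le_rpow_of_exponent_le hQ1 ?_
        have h7 : (N0 : ℝ) ≤ m Q := by exact_mod_cast h1
        have h8 : 2 / ε ≤ (m Q : ℝ) + 1 := by linarith
        rw [← add_div, div_le_iff₀ (by positivity)]
        rw [div_le_iff₀ hε] at h8
        linarith
      exact (h5.trans h6).trans (le_mul_of_one_le_left (by linarith) hbig)

end Pool.Agent.Helper49.AXU
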