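import Pool.Agent.Helper49.AXU.X14
import Pool.Agent.Helper49.AXU.U15

/-! # AXU-X15: proper zeros of the combinations of a family -/

namespace Pool.Agent.Helper49.AXU

open MvPolynomial Pool.Agent.Helper94.AXG Pool.Agent.Helper49.AXQ

/-- `z` is a zero of `P`, and `P` does not become `0` if a proper part (or none) of the coordinates of `z`
is substituted -/
def PrZ {k : ℕ} (P : MvPolynomial (Fin k) ℂ) (z : Fin k → ℂ) : Prop :=
  eval z P = 0 ∧ ∀ J : Finset (Fin k), J.Nonempty →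
    aeval (fun i => if i ∈ J then (X i : MvPolynomial (Fin k) ℂ) else C (z i)) P ≠ 0

theorem zrU_fam {n k d Q : ℕ} (hQ : 1 ≤ Q) {P : Fin n → MvPolynomial (Fin k) ℂ}
    (hP : ∀ j, (P j).totalDegree ≤ d) {r : Fin k → ℚ} (hr : ∀ i, Rat01 Q (r i)) {y : Fin n → ℤ}
    (hy : ∀ j, |y j| ≤ (Q : ℤ))
    (h : PrZ (∑ j, (y j : ℂ) • P j) (fun i => Complex.Gamma ((r i : ℚ) : ℂ))) :
    ZrU (KK0 k n) (PF d P) (ptT (rhoF Q r y)) := by
  classical
  have hQ0 : (Q : ℂ) ≠ 0 := Nat.cast_ne_zero.2 (by omega)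
  have hG : ∀ i, Complex.Gamma ((r i : ℚ) : ℂ) ≠ 0 := by
    intro i
    refine Complex.Gamma_ne_zero_of_re_pos ?_
    have h1 : ((r i : ℚ) : ℂ) = (((r i : ℚ) : ℝ) : ℂ) := by push_cast; rfl
    rw [h1, Complex.ofReal_re]
    exact_mod_cast (hr i).1
  have hx : xp (ptT (rhoF Q r y)) = fun s => ((rhoF Q r y s : ℚ) : ℂ) :=
    xp_ptT0 fun s => (rhoF_range hQ hr hy s).1
  have hVl : ∀ i : Fin k, VV (KK0 k n) (Fin.castAdd n i)
      (xp (ptT (rhoF Q r y)) (Fin.castAdd n i)) = (Complex.Gamma ((r i : ℚ) : ℂ))⁻¹ := by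
    intro i
    rw [VV_mem (castAdd_mem _ _ i), hx]
    simp only
    rw [rhoF_left]
    rfl
  have hVr : ∀ j : Fin n, (2 : ℂ) * VV (KK0 k n) (Fin.natAdd k j)
      (xp (ptT (rhoF Q r y)) (Fin.natAdd k j)) - 1 = (y j : ℂ) / (Q : ℂ) := by
    intro j
    rw [VV_not (natAdd_not_mem _ _ _), hx]
    simp only
    rw [rhoF_right]
    push_cast
    field_simp
    ring
  refine ⟨?_, ?_⟩
  · rw [eval_PF hP (fun i => Complex.Gamma ((r i : ℚ) : ℂ)) hG y (Q : ℂ) _ hVl hVr, h.1, mul_zero]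
  · intro J hJK hJ hcon
    obtain ⟨J', hJ'⟩ : ∃ J' : Finset (Fin k), J' = Finset.univ.filter
        (fun i => Fin.castAdd n i ∈ J) := ⟨_, rfl⟩
    have hmem : ∀ i, i ∈ J' ↔ Fin.castAdd n i ∈ J := fun i => by rw [hJ']; simp
    have hJne : J'.Nonempty := by
      obtain ⟨s, hs⟩ := hJ
      obtain ⟨i, rfl⟩ := mem_KK0 (hJK hs)
      exact ⟨i, (hmem i).2 hs⟩
    obtain ⟨w, hw⟩ : ∃ w : Fin k → ℂ, w = fun i : Fin k => Complex.Gamma ((r i : ℚ) : ℂ) := ⟨_, rfl⟩
    obtain ⟨R, hR⟩ : ∃ R : MvPolynomial (Fin k) ℂ, R = ∑ j, (y j : ℂ) • P j := ⟨_, rfl⟩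
    refine h.2 J' hJne ?_
    rw [← hR, ← hw]
    refine funext_set (fun _ => ({0}ᶜ : Set ℂ)) (fun _ => ?_) (fun x hx' => ?_)
    · exact infinite_of_mem_nhds (1 : ℂ) (isOpen_compl_singleton.mem_nhds one_ne_zero)
    · rw [map_zero]
      have hx0 : ∀ o, x o ≠ 0 := fun o => hx' o (Set.mem_univ o)
      obtain ⟨z, hz⟩ : ∃ z : Fin k → ℂ, z = fun i => if i ∈ J' then x i else
        Complex.Gamma ((r i : ℚ) : ℂ) := ⟨_, rfl⟩
      have hz0 : ∀ i, z i ≠ 0 := by
        intro i
        rw [hz]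
        simp only
        split_ifs
        · exact hx0 _
        · exact hG i
      have e1 : eval x (aeval (fun o => if o ∈ J' then (X o : MvPolynomial (Fin k) ℂ) else
          C (w o)) R) = eval z R := by
        have e : ((eval x : MvPolynomial (Fin k) ℂ →+* ℂ).comp (aeval (fun o => if o ∈ J' then
            (X o : MvPolynomial (Fin k) ℂ) else C (w o)) :
              MvPolynomial (Fin k) ℂ →ₐ[ℂ] MvPolynomial (Fin k) ℂ).toRingHom) = eval z := by
          apply MvPolynomial.ringHom_ext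
          · intro c
            simp
          · intro i
            simp only [RingHom.comp_apply, AlgHom.toRingHom_eq_coe, RingHom.coe_coe, aeval_X, eval_X]
            rw [hz]
            simp only
            by_cases hi : i ∈ J'
            · rw [if_pos hi, if_pos hi, eval_X]
            · rw [if_neg hi, if_neg hi, eval_C, hw]
        exact congrArg (fun f => f R) e
      rw [e1]
      obtain ⟨x', hx''⟩ : ∃ x' : Fin (k + n) → ℂ,
          x' = Fin.append (fun i => (x i)⁻¹) (fun _ => 0) := ⟨_, rfl⟩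
      have hcomp : eval x' (aeval (fun s => if s ∈ J then
          (X s : MvPolynomial (Fin (k + n)) ℂ) else
            C (VV (KK0 k n) s (xp (ptT (rhoF Q r y)) s))) (PF d P)) =
          eval (fun s => if s ∈ J then x' s else
            VV (KK0 k n) s (xp (ptT (rhoF Q r y)) s)) (PF d P) := by
        have e : ((eval x').comp ((aeval (fun s => if s ∈ J then
          (X s : MvPolynomial (Fin (k + n)) ℂ) else
            C (VV (KK0 k n) s (xp (ptT (rhoF Q r y)) s))) :
              MvPolynomial (Fin (k + n)) ℂ →ₐ[ℂ] MvPolynomial (Fin (k + n)) ℂ)).toRingHom) =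
            eval (fun s => if s ∈ J then x' s else
              VV (KK0 k n) s (xp (ptT (rhoF Q r y)) s)) := by
          apply MvPolynomial.ringHom_ext
          · intro c
            simp
          · intro s
            simp only [RingHom.comp_apply, AlgHom.toRingHom_eq_coe, RingHom.coe_coe, aeval_X, eval_X]
            split_ifs
            · rw [eval_X]
            · rw [eval_C]
        exact congrArg (fun f => f (PF d P)) e
      have hev := eval_PF hP z hz0 y (Q : ℂ) (fun s => if s ∈ J then x' s else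
          VV (KK0 k n) s (xp (ptT (rhoF Q r y)) s)) (fun i => by
        rw [hz]
        simp only
        by_cases hi : i ∈ J'
        · rw [if_pos ((hmem i).1 hi), if_pos hi, hx'', Fin.append_left]
        · rw [if_neg (fun h => hi ((hmem i).2 h)), if_neg hi, hVl i]) (fun j => by
        have c2 : Fin.natAdd k j ∉ J := fun h => natAdd_not_mem _ _ _ (hJK h)
        rw [if_neg c2]
        exact hVr j)
      have hall : (Q : ℂ)⁻¹ * (∏ i, (z i)⁻¹ ^ d) * eval z R = 0 := by
        rw [hR, ← hev, ← hcomp]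
        have hcon' : aeval (fun s => if s ∈ J then
          (X s : MvPolynomial (Fin (k + n)) ℂ) else
            C (VV (KK0 k n) s (xp (ptT (rhoF Q r y)) s))) (PF d P) = 0 := by
          convert hcon
        rw [hcon', map_zero]
      exact (mul_eq_zero.1 hall).resolve_left (mul_ne_zero (inv_ne_zero hQ0)
        (Finset.prod_ne_zero_iff.2 fun i _ => pow_ne_zero _ (inv_ne_zero (hz0 i))))

/-- the degrees of the universal polynomial -/
theorem PF_DegC {n k d : ℕ} (P : Fin n → MvPolynomial (Fin k) ℂ) : DegC d (KK0 k n) (PF d P) := by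
  classical
  intro κ hκ
  unfold PF at hκ
  have h1 := support_sum hκ
  rw [Finset.mem_biUnion] at h1
  obtain ⟨j, -, h2⟩ := h1
  have h3 := support_mul _ _ h2
  rw [Finset.mem_add] at h3
  obtain ⟨κ1, hκ1, κ2, hκ2, rfl⟩ := h3
  have e1 : ∀ i : Fin k, κ1 (Fin.castAdd n i) = 0 := by
    intro i
    have h4 : (C 2 * X (Fin.natAdd k j) - 1 :
          MvPolynomial (Fin (k + n)) ℂ).degreeOf (Fin.castAdd n i) = 0 := by
      refine Nat.le_zero.1 ((degreeOf_sub_le _ _ _).trans (max_le ?_ ?_))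
      · refine (degreeOf_mul_le _ _ _).trans ?_
        rw [degreeOf_C, zero_add, degreeOf_X, if_neg]
        intro h5
        have h6 := congrArg Fin.val h5
        have h7 : (Fin.natAdd k j).val = k + j.val := rfl
        have h8 : (Fin.castAdd n i).val = i.val := rfl
        have := i.2
        omega
      · rw [degreeOf_one]
    exact Nat.le_zero.1 ((monomial_le_degreeOf _ hκ1).trans h4.le)
  obtain ⟨κ3, hκ3, hκ3'⟩ : ∃ κ3 ∈ (RevP d (P j)).support, κ3.mapDomain (Fin.castAdd n) = κ2 := by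
    have h4 := support_rename_of_injective (p := RevP d (P j)) (Fin.castAdd_injective k n)
    rw [h4, Finset.mem_image] at hκ2
    obtain ⟨κ3, h5, h6⟩ := hκ2
    exact ⟨κ3, h5, h6⟩
  obtain ⟨ν, hν⟩ : ∃ ν : EX k d, ∀ i, κ3 i = d - (ν.1 i : ℕ) := by
    unfold RevP at hκ3
    have h4 := support_sum hκ3
    rw [Finset.mem_biUnion] at h4
    obtain ⟨ν, -, h5⟩ := h4
    refine ⟨ν, fun i => ?_⟩
    have h6 : C (coeff (exX ν) (P j)) * ∏ i : Fin k, (X i : MvPolynomial (Fin k) ℂ) ^
        (d - (ν.1 i : ℕ)) = monomial (Finsupp.equivFunOnFinite.symm (fun i => d - (ν.1 i : ℕ)))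
          (coeff (exX ν) (P j)) := by
      rw [monomial_eq, Finsupp.prod_fintype _ _ (fun i => pow_zero _)]
      rfl
    rw [h6] at h5
    have h7 := support_monomial_subset h5
    rw [Finset.mem_singleton] at h7
    rw [h7]
    rfl
  have e2 : ∀ i : Fin k, κ2 (Fin.castAdd n i) = d - (ν.1 i : ℕ) := by
    intro i
    rw [← hκ3', Finsupp.mapDomain_apply (Fin.castAdd_injective k n), hν]
  have e3 : ∀ i : Fin k, (κ1 + κ2) (Fin.castAdd n i) = d - (ν.1 i : ℕ) := by
    intro i
    rw [Finsupp.add_apply, e1, e2, zero_add]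
  refine ⟨fun s hs => ?_, ?_⟩
  · obtain ⟨i, rfl⟩ := mem_KK0 hs
    rw [e3]
    exact Nat.sub_le _ _
  · have h4 : ∑ s ∈ KK0 k n, (d - (κ1 + κ2) s) = ∑ i : Fin k, (ν.1 i : ℕ) := by
      unfold KK0
      rw [Finset.sum_map]
      refine Finset.sum_congr rfl fun i _ => ?_
      have e0 : (Fin.castAddEmb n) i = Fin.castAdd n i := rfl
      rw [e0, e3]
      have := (ν.1 i).2
      omega
    rw [h4]
    exact ν.2

theorem admU_rhoF {n k d Q : ℕ} (hQ : 1 ≤ Q) {r : Fin k → ℚ} {y : Fin n → ℤ}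
    (hr : ∀ i, Rat01 Q (r i)) (hS : NR d Finset.univ r)
    (hy : ∀ j, |y j| ≤ (Q : ℤ)) : AdmU d (KK0 k n) (ptT (rhoF Q r y)) := by
  classical
  have hq := qT_pos (rhoF Q r y)
  have hq' : (0 : ℚ) < (qT (rhoF Q r y) : ℕ) := by exact_mod_cast hq
  refine ⟨hq, fun s => ?_, ?_⟩
  · obtain ⟨h1, h2, -⟩ := rhoF_range hQ hr hy s
    have h3 := en_cast h1 (den_dvd (rhoF Q r y) s)
    have h4 : ((en (qT (rhoF Q r y)) (rhoF Q r y s) : ℕ) : ℚ) ≤ (qT (rhoF Q r y) : ℕ) := by
      rw [h3]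
      calc rhoF Q r y s * (qT (rhoF Q r y) : ℕ) ≤ 1 * (qT (rhoF Q r y) : ℕ) :=
            mul_le_mul_of_nonneg_right h2 hq'.le
        _ = _ := one_mul _
    exact_mod_cast h4
  · rcases Nat.eq_zero_or_pos k with hk | hk
    · subst hk
      intro C hC N b m t₀ _ _ _ _ _ i hi
      obtain ⟨i', -⟩ := mem_KK0 (hC hi)
      exact absurd i'.2 (by omega)
    obtain ⟨g, hg⟩ : ∃ g : Fin (k + n) → Fin k, ∀ i, g (Fin.castAdd n i) = i := by
      refine ⟨fun s => if h : s.val < k then ⟨s.val, h⟩ else ⟨0, hk⟩, fun i => ?_⟩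
      have h1 : (Fin.castAdd n i).val < k := i.2
      exact dif_pos h1
    refine NDD_of_NR (NR_pull hS g (fun s hs s' hs' h => ?_) (fun s _ => Finset.mem_univ _)
      (fun s hs => ?_))
    · obtain ⟨i, rfl⟩ := mem_KK0 (Finset.mem_coe.1 hs)
      obtain ⟨i', rfl⟩ := mem_KK0 (Finset.mem_coe.1 hs')
      rw [hg, hg] at h
      rw [h]
    · obtain ⟨i, rfl⟩ := mem_KK0 hs
      have e1 : (((((ptT (rhoF Q r y)).2 (Fin.castAdd n i) : ℕ) : ℤ) : ℚ)) /
          ((ptT (rhoF Q r y)).1 : ℕ) = rhoF Q r y (Fin.castAdd n i) := by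
        rw [Int.cast_natCast]
        exact en_div hq (rhoF_range hQ hr hy _).1 (den_dvd _ _)
      rw [hg]
      rw [rhoF_left] at e1
      exact e1.symm

end Pool.Agent.Helper49.AXU
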