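import Pool.Agent.Helper49.AXU.W18
import Pool.Agent.Helper49.AXU.W19
import Pool.Agent.Helper49.AXU.X15

/-! # AXU-W20: summary -/

namespace Pool.Agent.Helper49.AXU

open MvPolynomial Filter Topology Pool.Agent.Helper94.AXG Pool.Agent.Helper49.AXQ

theorem count_minLeH (k n d : ℕ) {ε : ℝ} (hε : 0 < ε) : ∃ C : ℝ, 0 ≤ C ∧
    ∀ (lam : Fin n → ℂ) (H Q : ℕ), 1 ≤ Q → 1 ≤ H →
      ((MinLe (Lam lam H) k d Q).ncard : ℝ) ≤ C * ((Q : ℝ) * H) ^ ε := by
  choose C hC0 hC using fun j : ℕ => count_minLH j n d hε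
  refine ⟨∑ j ∈ Finset.range (k + 1), C j, Finset.sum_nonneg fun j _ => hC0 j,
    fun lam H Q hQ hH => ?_⟩
  refine (minLe_le_sum _ _ _ _).trans ?_
  rw [Finset.sum_mul]
  exact Finset.sum_le_sum fun j _ => hC j lam H Q hQ hH

/-- the tuples of rationals without a matching of degree `≤ d` at which a combination of the `P_j` with
integers `≤ H` vanishes properly -/
def FamT {k n : ℕ} (P : Fin n → MvPolynomial (Fin k) ℂ) (d H Q : ℕ) : Set (Fin k → ℚ) :=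
  {r | (∀ i, Rat01 Q (r i)) ∧ NR d Finset.univ r ∧ ∃ y : Fin n → ℤ, (∀ j, |y j| ≤ (H : ℤ)) ∧
    PrZ (∑ j, (y j : ℂ) • P j) (fun i => Complex.Gamma ((r i : ℚ) : ℂ))}

theorem famT_finite {k n : ℕ} (P : Fin n → MvPolynomial (Fin k) ℂ) (d H Q : ℕ) :
    (FamT P d H Q).Finite := by
  classical
  refine Set.Finite.subset (Finset.finite_toSet (Fintype.piFinset fun _ : Fin k => ratSet Q))
    fun r hr => ?_
  rw [Finset.mem_coe, Fintype.mem_piFinset]
  exact fun i => mem_ratSet (hr.1 i)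

theorem count_fam_pos {k : ℕ} (hk : 1 ≤ k) (n d : ℕ) {ε : ℝ} (hε : 0 < ε) : ∃ C : ℝ, 0 ≤ C ∧
    ∀ P : Fin n → MvPolynomial (Fin k) ℂ, (∀ j, (P j).totalDegree ≤ d) → ∀ H Q : ℕ, 1 ≤ Q → H ≤ Q →
      ((FamT P d H Q).ncard : ℝ) ≤ C * (Q : ℝ) ^ ε := by
  classical
  have hn0 : (0 : ℝ) < ((k + n : ℕ) : ℝ) := by
    have : 0 < k + n := by omega
    exact_mod_cast this
  obtain ⟨C, hC⟩ := uniformU (KK0 k n) (k * d + 1) d (div_pos hε hn0)
  have hC0 : 0 ≤ C := by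
    have h := hC 1 le_rfl 0 (by rw [totalDegree_zero]; exact Nat.zero_le _)
      (fun m hm => by rw [support_zero] at hm; exact absurd hm (Finset.notMem_empty m)) ∅ (by simp) (by simp)
    simpa using h
  refine ⟨C * 2 ^ ε, by positivity, fun P hP H Q hQ hHQ => ?_⟩
  obtain ⟨M, hM⟩ : ∃ M, M = (famT_finite P d H Q).toFinset := ⟨_, rfl⟩
  have hMm : ∀ r, r ∈ M ↔ r ∈ FamT P d H Q := fun r => by rw [hM, Set.Finite.mem_toFinset]
  have hMc : (FamT P d H Q).ncard = M.card := by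
    rw [hM]
    exact Set.ncard_eq_toFinset_card _ _
  have hrel : ∀ r : Fin k → ℚ, ∃ y : Fin n → ℤ, (∀ j, |y j| ≤ (Q : ℤ)) ∧ (r ∈ M →
      PrZ (∑ j, (y j : ℂ) • P j) (fun i => Complex.Gamma ((r i : ℚ) : ℂ))) := by
    intro r
    by_cases hr : r ∈ M
    · obtain ⟨-, -, y, h1, h2⟩ := (hMm r).1 hr
      exact ⟨y, fun j => (h1 j).trans (by exact_mod_cast hHQ), fun _ => h2⟩
    · exact ⟨0, fun j => by rw [Pi.zero_apply, abs_zero]; exact Int.natCast_nonneg Q,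
        fun h => absurd h hr⟩
  choose y hy hyP using hrel
  have hxpt : ∀ r ∈ M, ∀ i : Fin k, xp (ptT (rhoF Q r (y r))) (Fin.castAdd n i) = ((r i : ℚ) : ℂ) := by
    intro r hr i
    rw [xp_ptT0 fun s => (rhoF_range hQ ((hMm r).1 hr).1 (hy r) s).1]
    simp only
    rw [rhoF_left]
  have hinj : ∀ r ∈ M, ∀ r' ∈ M, (fun j : KK0 k n => xp (ptT (rhoF Q r (y r))) j) =
      (fun j : KK0 k n => xp (ptT (rhoF Q r' (y r'))) j) → r = r' := by
    intro r hr r' hr' h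
    funext i
    have h1 := congrFun h ⟨Fin.castAdd n i, castAdd_mem _ _ i⟩
    simp only at h1
    rw [hxpt r hr, hxpt r' hr'] at h1
    exact_mod_cast h1
  have hinj' : Set.InjOn (fun r => ptT (rhoF Q r (y r))) (M : Set (Fin k → ℚ)) := by
    intro r hr r' hr' h
    refine hinj r hr r' hr' ?_
    have h' : ptT (rhoF Q r (y r)) = ptT (rhoF Q r' (y r')) := h
    rw [h']
  have h := hC ((2 * Q) ^ (k + n)) (Nat.one_le_pow _ _ (by omega)) (PF d P) (PF_deg P) (PF_DegC P)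
    (M.image (fun r => ptT (rhoF Q r (y r)))) (by
      intro x hx x' hx' hxy
      rw [Finset.mem_coe, Finset.mem_image] at hx hx'
      obtain ⟨r, hr, rfl⟩ := hx
      obtain ⟨r', hr', rfl⟩ := hx'
      rw [hinj r hr r' hr' hxy]) (by
      intro x hx
      rw [Finset.mem_image] at hx
      obtain ⟨r, hr, rfl⟩ := hx
      have hm := (hMm r).1 hr
      exact ⟨admU_rhoF hQ hm.1 hm.2.1 (hy r), qT_le fun s => (rhoF_range hQ hm.1 (hy r) s).2.2,
        zrU_fam hQ hP hm.1 (hy r) (hyP r hr)⟩)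
  rw [Finset.card_image_of_injOn hinj'] at h
  rw [hMc]
  refine h.trans (le_of_eq ?_)
  have hQ0 : (0 : ℝ) ≤ Q := Nat.cast_nonneg Q
  have h2Q : (0 : ℝ) ≤ 2 * Q := by positivity
  rw [Nat.cast_pow, Nat.cast_mul, Nat.cast_ofNat, ← Real.rpow_natCast (2 * (Q : ℝ)) (k + n),
    ← Real.rpow_mul h2Q, mul_div_cancel₀ _ hn0.ne', Real.mul_rpow (by norm_num) hQ0]
  ring

/-- the number of tuples at which a combination of the family vanishes properly -/
theorem count_fam (k n d : ℕ) {ε : ℝ} (hε : 0 < ε) : ∃ C : ℝ, 0 ≤ C ∧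
    ∀ P : Fin n → MvPolynomial (Fin k) ℂ, (∀ j, (P j).totalDegree ≤ d) → ∀ H Q : ℕ, 1 ≤ Q → 1 ≤ H →
      ((FamT P d H Q).ncard : ℝ) ≤ C * ((Q : ℝ) * H) ^ ε := by
  rcases Nat.eq_zero_or_pos k with hk | hk
  · subst hk
    refine ⟨1, zero_le_one, fun P _ H Q hQ hH => ?_⟩
    have h1 : FamT P d H Q ⊆ {fun i => i.elim0} := fun r _ => funext fun i => i.elim0
    have h2 : (FamT P d H Q).ncard ≤ 1 := by
      have h3 := Set.ncard_le_ncard h1 (Set.finite_singleton _)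
      rwa [Set.ncard_singleton] at h3
    have h4 : (1 : ℝ) ≤ ((Q : ℝ) * H) ^ ε := by
      refine Real.one_le_rpow ?_ hε.le
      have h5 : 1 ≤ Q * H := Nat.mul_pos hQ hH
      exact_mod_cast h5
    have h5 : ((FamT P d H Q).ncard : ℝ) ≤ 1 := by exact_mod_cast h2
    linarith
  · obtain ⟨C, hC0, hC⟩ := count_fam_pos hk n d hε
    refine ⟨C, hC0, fun P hP H Q hQ hH => ?_⟩
    have h1 : FamT P d H Q ⊆ FamT P d H (Q * H) := fun r hr =>
      ⟨fun i => rat01_le (hr.1 i) (Nat.le_mul_of_pos_right Q hH), hr.2⟩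
    have h2 := Set.ncard_le_ncard h1 (famT_finite _ _ _ _)
    have h3 := hC P hP H (Q * H) (Nat.mul_pos hQ hH) (Nat.le_mul_of_pos_left H hQ)
    rw [Nat.cast_mul] at h3
    exact (by exact_mod_cast h2 : ((FamT P d H Q).ncard : ℝ) ≤ (FamT P d H (Q * H)).ncard).trans h3

end Pool.Agent.Helper49.AXU
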