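import Pool.Agent.Helper49.AXU.W14

/-! # AXU-X14: the universal polynomial of a family and its points -/

namespace Pool.Agent.Helper49.AXU

open MvPolynomial Pool.Agent.Helper94.AXG Pool.Agent.Helper49.AXQ

/-- the polynomial `∏ X_i^d P(1 / X)` -/
noncomputable def RevP {k : ℕ} (d : ℕ) (P : MvPolynomial (Fin k) ℂ) : MvPolynomial (Fin k) ℂ :=
  ∑ ν : EX k d, C (coeff (exX ν) P) * ∏ i : Fin k, X i ^ (d - (ν.1 i : ℕ))

theorem eval_RevP {k d : ℕ} {P : MvPolynomial (Fin k) ℂ} (hP : P.totalDegree ≤ d) (z : Fin k → ℂ)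
    (hz : ∀ i, z i ≠ 0) : eval (fun i => (z i)⁻¹) (RevP d P) = (∏ i, (z i)⁻¹ ^ d) * eval z P := by
  unfold RevP
  rw [sum_EX hP, Finset.mul_sum, map_sum]
  refine Finset.sum_congr rfl fun ν _ => ?_
  simp only [map_mul, eval_C, map_prod, map_pow, eval_X]
  have h1 : ∏ i : Fin k, (z i)⁻¹ ^ (d - (ν.1 i : ℕ)) =
      (∏ i, (z i)⁻¹ ^ d) * ∏ i, z i ^ (ν.1 i : ℕ) := by
    rw [← Finset.prod_mul_distrib]
    refine Finset.prod_congr rfl fun i _ => ?_
    have h2 : (ν.1 i : ℕ) ≤ d := by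
      have := (ν.1 i).2
      omega
    have h3 : (z i)⁻¹ ^ d = (z i)⁻¹ ^ (d - (ν.1 i : ℕ)) * (z i)⁻¹ ^ (ν.1 i : ℕ) := by
      rw [← pow_add]
      congr 1
      omega
    rw [h3, mul_assoc, ← mul_pow, inv_mul_cancel₀ (hz i), one_pow, mul_one]
  rw [h1]
  ring

theorem RevP_deg {k d : ℕ} (P : MvPolynomial (Fin k) ℂ) : (RevP d P).totalDegree ≤ k * d := by
  unfold RevP
  refine (totalDegree_finsetSum _ _).trans (Finset.sup_le fun ν _ => ?_)
  refine (totalDegree_mul _ _).trans ?_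
  rw [totalDegree_C, zero_add]
  refine (totalDegree_finsetProd _ _).trans ?_
  calc ∑ i : Fin k, (X i ^ (d - (ν.1 i : ℕ)) : MvPolynomial (Fin k) ℂ).totalDegree ≤
        ∑ _i : Fin k, d := by
        refine Finset.sum_le_sum fun i _ => ?_
        refine (totalDegree_pow _ _).trans ?_
        rw [totalDegree_X, mul_one]
        omega
    _ = k * d := by simp

/-- the tuple `(r, y)` -/
noncomputable def rhoF {n k : ℕ} (M : ℕ) (r : Fin k → ℚ) (y : Fin n → ℤ) : Fin (k + n) → ℚ :=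
  Fin.append r (fun j => ((y j + M : ℤ) : ℚ) / ((2 * M : ℕ) : ℚ))

theorem rhoF_left {n k M : ℕ} (r : Fin k → ℚ) (y : Fin n → ℤ) (i : Fin k) :
    rhoF M r y (Fin.castAdd _ i) = r i := Fin.append_left _ _ i

theorem rhoF_right {n k M : ℕ} (r : Fin k → ℚ) (y : Fin n → ℤ) (j : Fin n) :
    rhoF M r y (Fin.natAdd k j) = ((y j + M : ℤ) : ℚ) / ((2 * M : ℕ) : ℚ) := Fin.append_right _ _ j

/-- the coordinates of the tuple lie in `[0, 1]` and have denominators `≤ 2 Q` -/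
theorem rhoF_range {n k Q : ℕ} {r : Fin k → ℚ} {y : Fin n → ℤ} (hQ : 1 ≤ Q)
    (hr : ∀ i, Rat01 Q (r i)) (hy : ∀ j, |y j| ≤ (Q : ℤ)) (s : Fin (k + n)) :
    0 ≤ rhoF Q r y s ∧ rhoF Q r y s ≤ 1 ∧ (rhoF Q r y s).den ≤ 2 * Q := by
  refine Fin.addCases (fun i => ?_) (fun j => ?_) s
  · rw [rhoF_left]
    obtain ⟨h1, h2, h3⟩ := hr i
    exact ⟨h1.le, h2.le, by omega⟩
  · rw [rhoF_right]
    have h3 := abs_le.1 (hy j)
    have hpos : (0 : ℚ) < ((2 * Q : ℕ) : ℚ) := by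
      have : 0 < 2 * Q := by omega
      exact_mod_cast this
    refine ⟨div_nonneg ?_ hpos.le, ?_, ?_⟩
    · have : (0 : ℤ) ≤ y j + Q := by linarith [h3.1]
      exact_mod_cast this
    · rw [div_le_one hpos]
      have : y j + Q ≤ ((2 * Q : ℕ) : ℤ) := by
        push_cast
        linarith [h3.2]
      exact_mod_cast this
    · have h4 : (((y j + Q : ℤ) : ℚ) / ((2 * Q : ℕ) : ℚ)).den ∣ 2 * Q := by
        have h5 := Rat.den_dvd (y j + Q) ((2 * Q : ℕ) : ℤ)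
        rw [Rat.divInt_eq_div] at h5
        exact_mod_cast h5
      exact Nat.le_of_dvd (by omega) h4

/-- the universal polynomial of the family -/
noncomputable def PF {n k : ℕ} (d : ℕ) (P : Fin n → MvPolynomial (Fin k) ℂ) :
    MvPolynomial (Fin (k + n)) ℂ :=
  ∑ j : Fin n, (C 2 * X (Fin.natAdd k j) - 1) * rename (Fin.castAdd n) (RevP d (P j))

theorem PF_deg {n k d : ℕ} (P : Fin n → MvPolynomial (Fin k) ℂ) : (PF d P).totalDegree ≤ k * d + 1 := by
  unfold PF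
  refine (totalDegree_finsetSum _ _).trans (Finset.sup_le fun j _ => ?_)
  refine (totalDegree_mul _ _).trans ?_
  have h1 : (C 2 * X (Fin.natAdd k j) - 1 : MvPolynomial (Fin (k + n)) ℂ).totalDegree ≤ 1 := by
    refine (totalDegree_sub _ _).trans (max_le ?_ ?_)
    · refine (totalDegree_mul _ _).trans ?_
      rw [totalDegree_C, zero_add, totalDegree_X]
    · rw [totalDegree_one]
      exact Nat.zero_le 1
  have h2 := (totalDegree_rename_le (Fin.castAdd n) (RevP d (P j))).trans (RevP_deg (P j))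
  omega

theorem eval_PF {n k d : ℕ} {P : Fin n → MvPolynomial (Fin k) ℂ} (hP : ∀ j, (P j).totalDegree ≤ d)
    (z : Fin k → ℂ) (hz : ∀ i, z i ≠ 0) (y : Fin n → ℤ) (M : ℂ) (x : Fin (k + n) → ℂ)
    (hx1 : ∀ i, x (Fin.castAdd n i) = (z i)⁻¹) (hx2 : ∀ j, 2 * x (Fin.natAdd k j) - 1 = (y j : ℂ) / M) :
    eval x (PF d P) = M⁻¹ * (∏ i, (z i)⁻¹ ^ d) * eval z (∑ j, (y j : ℂ) • P j) := by
  unfold PF
  rw [map_sum, map_sum, Finset.mul_sum]
  refine Finset.sum_congr rfl fun j _ => ?_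
  rw [map_mul, map_sub, map_mul, eval_C, eval_X, map_one, hx2, eval_rename, smul_eval]
  have h1 : (x ∘ Fin.castAdd n) = fun i => (z i)⁻¹ := funext fun i => hx1 i
  rw [h1, eval_RevP (hP j) z hz]
  ring

end Pool.Agent.Helper49.AXU
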